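import Pool.Agent.helper65.Cat.Defs

/-!
# The CAT(0) inequality from its form with Stewart's formula
-/

open Filter Topology Set Metric
open scoped InnerProductSpace

namespace Pool.Agent.helper65.Cat

/-- Stewart's theorem. -/
theorem stewart_plane {V : Type} [NormedAddCommGroup V] [InnerProductSpace ℝ V] (p x y z : V)
    (h : dist x z + dist z y = dist x y) :
    dist x y * dist p z ^ 2 =
      dist z y * dist p x ^ 2 + dist x z * dist p y ^ 2 - dist x y * (dist x z * dist z y) := by
  obtain ⟨s, ⟨hs0, hs1⟩, hs⟩ := dist_add_dist_eq_iff.1 h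
  have hz : z = x + s • (y - x) := by
    rw [← hs, AffineMap.lineMap_apply, vsub_eq_sub, vadd_eq_add, add_comm]
  have e1 : dist x z = s * dist x y := by
    rw [hz, dist_eq_norm, dist_eq_norm]
    have : x - (x + s • (y - x)) = s • (x - y) := by module
    rw [this, norm_smul, Real.norm_of_nonneg hs0]
  have e2 : dist z y = (1 - s) * dist x y := by linarith
  have e3 : dist p z ^ 2 = (1 - s) * dist p x ^ 2 + s * dist p y ^ 2 -
      s * (1 - s) * dist x y ^ 2 := by
    rw [dist_eq_norm, dist_eq_norm, dist_eq_norm, dist_eq_norm]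
    have f1 : p - z = (1 - s) • (p - x) + s • (p - y) := by
      rw [hz]
      module
    have f2 : x - y = (p - y) - (p - x) := by abel
    have n1 : ‖(1 - s) • (p - x) + s • (p - y)‖ ^ 2 = (1 - s) ^ 2 * ‖p - x‖ ^ 2 +
        2 * ((1 - s) * s) * ⟪p - x, p - y⟫_ℝ + s ^ 2 * ‖p - y‖ ^ 2 := by
      rw [norm_add_sq_real, norm_smul, norm_smul, real_inner_smul_left, real_inner_smul_right,
        Real.norm_of_nonneg hs0, Real.norm_of_nonneg (by linarith : 0 ≤ 1 - s)]
      ring
    have n2 : ‖(p - y) - (p - x)‖ ^ 2 = ‖p - y‖ ^ 2 - 2 * ⟪p - x, p - y⟫_ℝ + ‖p - x‖ ^ 2 := by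
      rw [norm_sub_sq_real, real_inner_comm]
    rw [f1, f2, n1, n2]
    ring
  rw [e1, e2, e3]
  ring

theorem StewartCAT0.isCAT0 {X : Type} [MetricSpace X] (h : StewartCAT0 X) : IsCAT0 X := by
  refine ⟨h.geodesic, ?_⟩
  intro p q r x y p' q' r' x' y' hpq hpr hqr hx hx1 hx2 hy hy1 hy2
  have hx' : dist p' x' + dist x' q' = dist p' q' := by rw [hx1, hx2, hpq, hx]
  have hy' : dist p' y' + dist y' r' = dist p' r' := by rw [hy1, hy2, hpr, hy]
  have h1 : dist r x ≤ dist r' x' := by
    rcases (dist_nonneg (x := p) (y := q)).eq_or_lt with h0 | h0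
    · have a1 : dist p x = 0 := by
        have := dist_nonneg (x := p) (y := x)
        have := dist_nonneg (x := x) (y := q)
        linarith
      have a2 : p = x := dist_eq_zero.1 a1
      have a3 : p' = x' := dist_eq_zero.1 (hx1.trans a1)
      rw [← a2, ← a3, dist_comm r, dist_comm r', hpr]
    · have a1 := h.comparison r p q x hx
      have a2 := stewart_plane r' p' q' x' hx'
      rw [dist_comm r' p', dist_comm r' q', hpq, hpr, hqr, hx1, hx2] at a2
      rw [dist_comm r p, dist_comm r q] at a1
      have a3 : dist p q * dist r x ^ 2 ≤ dist p q * dist r' x' ^ 2 := by linarith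
      have a4 := le_of_mul_le_mul_left a3 h0
      exact (pow_le_pow_iff_left₀ dist_nonneg dist_nonneg (by norm_num)).1 a4
  rcases (dist_nonneg (x := p) (y := r)).eq_or_lt with h0 | h0
  · have a1 : dist p y = 0 := by
      have := dist_nonneg (x := p) (y := y)
      have := dist_nonneg (x := y) (y := r)
      linarith
    have a2 : p = y := dist_eq_zero.1 a1
    have a3 : p' = y' := dist_eq_zero.1 (hy1.trans a1)
    rw [← a2, ← a3, dist_comm x, dist_comm x', hx1]
  · have a1 := h.comparison x p r y hy
    have a2 := stewart_plane x' p' r' y' hy'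
    rw [dist_comm x' p', dist_comm x' r', hpr, hx1, hy1, hy2] at a2
    rw [dist_comm x p, dist_comm x r] at a1
    have a3 : dist p y * dist r x ^ 2 ≤ dist p y * dist r' x' ^ 2 :=
      mul_le_mul_of_nonneg_left (pow_le_pow_left₀ dist_nonneg h1 2) dist_nonneg
    have a4 : dist p r * dist x y ^ 2 ≤ dist p r * dist x' y' ^ 2 := by linarith
    have a5 := le_of_mul_le_mul_left a4 h0
    exact (pow_le_pow_iff_left₀ dist_nonneg dist_nonneg (by norm_num)).1 a5

end Pool.Agent.helper65.Cat
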