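import Pool.Agent.helper65.Cat.Defs

/-!
# The metric on the boundary
-/

open Filter Topology Set Metric MeasureTheory
open scoped ENNReal NNReal

namespace Pool.Agent.helper65.Cat

/-! ### Integrals -/

theorem integrableOn_mul_exp {b : ℝ} (hb : 0 < b) :
    IntegrableOn (fun r : ℝ => r * Real.exp (-(b * r))) (Ioi 0) := by
  have h := integrableOn_rpow_mul_exp_neg_mul_rpow (p := 1) (s := 1) (b := b) (by norm_num)
    one_pos hb
  refine h.congr_fun (fun r _ => ?_) measurableSet_Ioi
  simp

theorem integral_mul_exp {b : ℝ} (hb : 0 < b) :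
    ∫ r in Ioi (0 : ℝ), r * Real.exp (-(b * r)) = (1 / b) ^ 2 := by
  have h := Real.integral_rpow_mul_exp_neg_mul_Ioi (a := 2) (r := b) (by norm_num) hb
  have h1 : ∫ r in Ioi (0 : ℝ), r * Real.exp (-(b * r)) =
      ∫ t in Ioi (0 : ℝ), t ^ ((2 : ℝ) - 1) * Real.exp (-(b * t)) := by
    refine setIntegral_congr_fun measurableSet_Ioi fun r _ => ?_
    norm_num
  rw [h1, h, Real.Gamma_two, mul_one]
  norm_num

variable {X : Type} [MetricSpace X] {x₀ : X}

namespace Boundary

theorem dist_le (α β : Boundary X x₀) (r : ℝ≥0) : dist (α.ray r) (β.ray r) ≤ 2 * r := by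
  have h1 : dist (α.ray r) (α.ray 0) = r := by
    rw [α.isometry.dist_eq, NNReal.dist_eq]
    simp
  have h2 : dist (β.ray r) (β.ray 0) = r := by
    rw [β.isometry.dist_eq, NNReal.dist_eq]
    simp
  rw [α.base] at h1
  rw [β.base] at h2
  have := dist_triangle_right (α.ray r) (β.ray r) x₀
  linarith

theorem continuous_integrand (α β : Boundary X x₀) :
    Continuous fun r : ℝ => dist (α.ray r.toNNReal) (β.ray r.toNNReal) * Real.exp (-r) := by
  have h1 : Continuous fun r : ℝ => α.ray r.toNNReal :=
    α.isometry.continuous.comp continuous_real_toNNReal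
  have h2 : Continuous fun r : ℝ => β.ray r.toNNReal :=
    β.isometry.continuous.comp continuous_real_toNNReal
  exact (h1.dist h2).mul (by fun_prop)

theorem integrand_le (α β : Boundary X x₀) {r : ℝ} (hr : 0 ≤ r) :
    dist (α.ray r.toNNReal) (β.ray r.toNNReal) * Real.exp (-r) ≤ 2 * (r * Real.exp (-(1 * r))) := by
  have h1 := dist_le α β r.toNNReal
  rw [Real.coe_toNNReal r hr] at h1
  rw [one_mul, ← mul_assoc]
  exact mul_le_mul_of_nonneg_right h1 (Real.exp_nonneg _)

theorem integrable (α β : Boundary X x₀) : IntegrableOn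
    (fun r : ℝ => dist (α.ray r.toNNReal) (β.ray r.toNNReal) * Real.exp (-r)) (Ioi 0) := by
  refine ((integrableOn_mul_exp one_pos).const_mul 2).mono'
    (continuous_integrand α β).aestronglyMeasurable ?_
  refine (ae_restrict_mem measurableSet_Ioi).mono fun r hr => ?_
  rw [Real.norm_of_nonneg (mul_nonneg dist_nonneg (Real.exp_nonneg _))]
  exact integrand_le α β (le_of_lt hr)

theorem ext' {α β : Boundary X x₀} (h : ∀ r, α.ray r = β.ray r) : α = β := by
  cases α
  cases β
  congr
  exact funext h

noncomputable instance : MetricSpace (Boundary X x₀) where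
  dist := bdist
  dist_self := fun α => by
    change bdist α α = 0
    unfold bdist
    simp
  dist_comm := fun α β => by
    change bdist α β = bdist β α
    unfold bdist
    simp_rw [dist_comm]
  dist_triangle := fun α β γ => by
    change bdist α γ ≤ bdist α β + bdist β γ
    unfold bdist
    rw [← integral_add (integrable α β) (integrable β γ)]
    refine setIntegral_mono (integrable α γ) ((integrable α β).add (integrable β γ)) fun r => ?_
    rw [← add_mul]
    exact mul_le_mul_of_nonneg_right (dist_triangle _ _ _) (Real.exp_nonneg _)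
  eq_of_dist_eq_zero := fun {α β} h => by
    change bdist α β = 0 at h
    unfold bdist at h
    rw [setIntegral_eq_zero_iff_of_nonneg_ae] at h
    · have h1 : ∀ r ∈ Ioi (0 : ℝ),
          dist (α.ray r.toNNReal) (β.ray r.toNNReal) * Real.exp (-r) = 0 := by
        have h2 : (fun r : ℝ => dist (α.ray r.toNNReal) (β.ray r.toNNReal) * Real.exp (-r))
            =ᵐ[volume.restrict (Ioi 0)] fun _ => (0 : ℝ) := h
        have h3 := Measure.eqOn_open_of_ae_eq h2 isOpen_Ioi
          (continuous_integrand α β).continuousOn continuousOn_const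
        exact fun r hr => h3 hr
      refine ext' fun r => ?_
      by_cases hr : r = 0
      · rw [hr, α.base, β.base]
      · have h4 := h1 (r : ℝ) (by
          have : 0 < r := pos_iff_ne_zero.2 hr
          exact_mod_cast this)
        rw [Real.toNNReal_coe, mul_eq_zero] at h4
        exact dist_eq_zero.1 (h4.resolve_right (Real.exp_ne_zero _))
    · exact Eventually.of_forall fun r => mul_nonneg dist_nonneg (Real.exp_nonneg _)
    · exact integrable α β

theorem dist_eq (α β : Boundary X x₀) : dist α β = bdist α β := rfl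

/-- Upper bound for the distance of two rays which are close up to time `ρ`. -/
theorem dist_le_of (α β : Boundary X x₀) {ρ D : ℝ} (hD : 0 ≤ D)
    (h : ∀ r : ℝ≥0, (r : ℝ) ≤ ρ → dist (α.ray r) (β.ray r) ≤ r * D) :
    dist α β ≤ D + 8 * Real.exp (-(ρ / 2)) := by
  rw [dist_eq, bdist]
  have h1 : IntegrableOn (fun r : ℝ => D * (r * Real.exp (-(1 * r))) +
      (2 * Real.exp (-(ρ / 2))) * (r * Real.exp (-((1 / 2) * r)))) (Ioi 0) :=
    ((integrableOn_mul_exp one_pos).const_mul _).add
      ((integrableOn_mul_exp (by norm_num)).const_mul _)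
  have h2 : ∫ r in Ioi (0 : ℝ), (D * (r * Real.exp (-(1 * r))) +
      (2 * Real.exp (-(ρ / 2))) * (r * Real.exp (-((1 / 2) * r)))) =
      D + 8 * Real.exp (-(ρ / 2)) := by
    rw [integral_add ((integrableOn_mul_exp one_pos).const_mul _)
      ((integrableOn_mul_exp (by norm_num)).const_mul _), integral_const_mul, integral_const_mul,
      integral_mul_exp one_pos, integral_mul_exp (by norm_num)]
    norm_num
    ring
  rw [← h2]
  refine setIntegral_mono_on (integrable α β) h1 measurableSet_Ioi fun r hr => ?_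
  have hr0 : 0 ≤ r := le_of_lt hr
  have e0 := Real.exp_nonneg (-r)
  rcases le_or_gt r ρ with hrρ | hrρ
  · have h3 := h r.toNNReal (by rw [Real.coe_toNNReal r hr0]; exact hrρ)
    rw [Real.coe_toNNReal r hr0] at h3
    have h4 : 0 ≤ (2 * Real.exp (-(ρ / 2))) * (r * Real.exp (-((1 / 2) * r))) := by positivity
    have h5 := mul_le_mul_of_nonneg_right h3 e0
    rw [one_mul]
    calc _ ≤ r * D * Real.exp (-r) := h5
      _ = D * (r * Real.exp (-r)) := by ring
      _ ≤ _ := by linarith
  · have h3 := dist_le α β r.toNNReal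
    rw [Real.coe_toNNReal r hr0] at h3
    have h4 : Real.exp (-r) ≤ Real.exp (-(ρ / 2)) * Real.exp (-((1 / 2) * r)) := by
      rw [← Real.exp_add]
      exact Real.exp_le_exp.2 (by linarith)
    have h5 : 0 ≤ D * (r * Real.exp (-(1 * r))) := by positivity
    calc _ ≤ (2 * r) * (Real.exp (-(ρ / 2)) * Real.exp (-((1 / 2) * r))) :=
          mul_le_mul h3 h4 e0 (by positivity)
      _ = (2 * Real.exp (-(ρ / 2))) * (r * Real.exp (-((1 / 2) * r))) := by ring
      _ ≤ _ := by linarith

/-- Lower bound for the distance of two rays. -/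
theorem le_dist_of (α β : Boundary X x₀) {D : ℝ} (hD : 0 ≤ D)
    (h : ∀ r : ℝ≥0, (r : ℝ) ≤ 1 → r * D ≤ dist (α.ray r) (β.ray r)) : D / 6 ≤ dist α β := by
  rw [dist_eq, bdist]
  have h1 : ∫ r in Ioc (0 : ℝ) 1, r * (D / 3) ≤
      ∫ r in Ioc (0 : ℝ) 1, dist (α.ray r.toNNReal) (β.ray r.toNNReal) * Real.exp (-r) := by
    refine setIntegral_mono_on ?_ ((integrable α β).mono_set Ioc_subset_Ioi_self)
      measurableSet_Ioc fun r hr => ?_
    · exact (by fun_prop : Continuous fun r : ℝ => r * (D / 3)).integrableOn_Ioc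
    · have hr0 : 0 ≤ r := hr.1.le
      have h3 := h r.toNNReal (by rw [Real.coe_toNNReal r hr0]; exact hr.2)
      rw [Real.coe_toNNReal r hr0] at h3
      have h4 : 1 / 3 ≤ Real.exp (-r) := by
        have h5 : Real.exp (-1) ≤ Real.exp (-r) := Real.exp_le_exp.2 (by linarith [hr.2])
        have h6 : Real.exp 1 < 3 := by
          have := Real.exp_one_lt_d9
          linarith
        rw [Real.exp_neg] at h5
        refine le_trans ?_ h5
        rw [one_div]
        exact inv_anti₀ (Real.exp_pos 1) h6.le
      calc r * (D / 3) = (r * D) * (1 / 3) := by ring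
        _ ≤ _ := mul_le_mul h3 h4 (by norm_num) dist_nonneg
  have h2 : ∫ r in Ioc (0 : ℝ) 1, r * (D / 3) = D / 6 := by
    rw [← intervalIntegral.integral_of_le zero_le_one, intervalIntegral.integral_mul_const,
      integral_id]
    ring
  rw [h2] at h1
  refine h1.trans (setIntegral_mono_set (integrable α β) ?_ Ioc_subset_Ioi_self.eventuallyLE)
  exact Eventually.of_forall fun r => mul_nonneg dist_nonneg (Real.exp_nonneg _)

end Boundary

end Pool.Agent.helper65.Cat
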