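import Mathlib

/-!
# CAT(0) spaces, geometric actions, boundaries and linearly controlled dimension
-/

open Filter Topology Set Metric MeasureTheory
open scoped ENNReal NNReal

namespace Pool.Agent.helper65.Cat

/-- The CAT(0) inequality in a form which is convenient for computations: a geodesic metric space in
which the distance from a vertex `p` of a geodesic triangle to a point `z` of the opposite side
`[x, y]` is at most the corresponding distance in the Euclidean comparison triangle. By Stewart's
theorem the square of the comparison distance is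
`(d(z,y) d(p,x)² + d(x,z) d(p,y)²) / d(x,y) - d(x,z) d(z,y)`. -/
structure StewartCAT0 (X : Type) [MetricSpace X] : Prop where
  geodesic : ∀ x y : X, ∃ γ : ℝ → X, γ 0 = x ∧ γ (dist x y) = y ∧
    ∀ s ∈ Icc 0 (dist x y), ∀ t ∈ Icc 0 (dist x y), dist (γ s) (γ t) = |s - t|
  comparison : ∀ p x y z : X, dist x z + dist z y = dist x y →
    dist x y * dist p z ^ 2 ≤
      dist z y * dist p x ^ 2 + dist x z * dist p y ^ 2 - dist x y * (dist x z * dist z y)

/-- The Euclidean plane. -/
abbrev Plane : Type := EuclideanSpace ℝ (Fin 2)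

/-- A CAT(0) space: a geodesic metric space whose geodesic triangles are at least as thin as their
comparison triangles in the Euclidean plane. Here `p, q, r` are the vertices of a triangle, `x` is a
point of the side `[p, q]` and `y` is a point of the side `[p, r]`; `p', q', r'` is a comparison
triangle with comparison points `x'` and `y'`. -/
structure IsCAT0 (X : Type) [MetricSpace X] : Prop where
  geodesic : ∀ x y : X, ∃ γ : ℝ → X, γ 0 = x ∧ γ (dist x y) = y ∧
    ∀ s ∈ Icc 0 (dist x y), ∀ t ∈ Icc 0 (dist x y), dist (γ s) (γ t) = |s - t|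
  comparison : ∀ (p q r x y : X) (p' q' r' x' y' : Plane),
    dist p' q' = dist p q → dist p' r' = dist p r → dist q' r' = dist q r →
    dist p x + dist x q = dist p q → dist p' x' = dist p x → dist x' q' = dist x q →
    dist p y + dist y r = dist p r → dist p' y' = dist p y → dist y' r' = dist y r →
    dist x y ≤ dist x' y'

/-- The action of `G` on `X` is geometric: properly discontinuous and cocompact by isometries. -/
structure IsGeometric (G X : Type) [Group G] [MetricSpace X] [MulAction G X] : Prop where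
  isometry : ∀ g : G, Isometry fun x : X => g • x
  proper : ∀ K : Set X, IsCompact K → {g : G | ((fun x => g • x) '' K ∩ K).Nonempty}.Finite
  cocompact : ∃ K : Set X, IsCompact K ∧ ∀ x : X, ∃ g : G, ∃ y ∈ K, g • y = x

/-- The boundary `∂X` seen from `x₀`: the geodesic rays starting at `x₀` (in a proper CAT(0) space
every asymptoty class contains exactly one of them). -/
structure Boundary (X : Type) [MetricSpace X] (x₀ : X) where
  /-- the ray -/
  ray : ℝ≥0 → X
  isometry : Isometry ray
  base : ray 0 = x₀

/-- The distance `∫ d(α(r), β(r)) e^{-r} dr` (over `r > 0`) on the boundary. -/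
noncomputable def bdist {X : Type} [MetricSpace X] {x₀ : X} (α β : Boundary X x₀) : ℝ :=
  ∫ r in Ioi (0 : ℝ), dist (α.ray r.toNNReal) (β.ray r.toNNReal) * Real.exp (-r)

/-- `ℓ-dim Z ≤ n`, for the linearly controlled dimension: there are `c > 0`, `δ₀ > 0` such that for
all `0 < δ ≤ δ₀` there is an open cover `𝒰` of order at most `n + 1`, with mesh at most `c δ` and
Lebesgue number at least `δ`. -/
def LinDimLE (Z : Type) [MetricSpace Z] (n : ℕ) : Prop :=
  ∃ c : ℝ, 0 < c ∧ ∃ δ₀ : ℝ, 0 < δ₀ ∧ ∀ δ : ℝ, 0 < δ → δ ≤ δ₀ → ∃ 𝒰 : Set (Set Z),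
    (∀ U ∈ 𝒰, IsOpen U) ∧ ⋃₀ 𝒰 = univ ∧
    (∀ z : Z, {U | U ∈ 𝒰 ∧ z ∈ U}.encard ≤ n + 1) ∧
    (∀ U ∈ 𝒰, ediam U ≤ ENNReal.ofReal (c * δ)) ∧
    (∀ S : Set Z, S.Nonempty → ediam S < ENNReal.ofReal δ → ∃ U ∈ 𝒰, S ⊆ U)

end Pool.Agent.helper65.Cat
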