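import Mathlib

/-!
# Covers of a grid by sets of bounded width
-/

open Finset

set_option linter.unusedSectionVars false

namespace Pool.Agent.helper65.Cat

variable {ι : Type} [Fintype ι] [DecidableEq ι]

/-- Adding one in the coordinate `j`. -/
def bump (j : ι) (x : ι → ℕ) : ι → ℕ := Function.update x j (x j + 1)

theorem bump_same (j : ι) (x : ι → ℕ) : bump j x j = x j + 1 := by simp [bump]

theorem bump_ne {j i : ι} (h : i ≠ j) (x : ι → ℕ) : bump j x i = x i := by simp [bump, h]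

/-- Adding `k` in the coordinate `j`. -/
def addk (j : ι) (k : ℕ) (x : ι → ℕ) : ι → ℕ := Function.update x j (x j + k)

theorem addk_same (j : ι) (k : ℕ) (x : ι → ℕ) : addk j k x j = x j + k := by simp [addk]

theorem addk_ne {j i : ι} (h : i ≠ j) (k : ℕ) (x : ι → ℕ) : addk j k x i = x i := by
  simp [addk, h]

theorem bump_addk (j : ι) (k : ℕ) (x : ι → ℕ) : bump j (addk j k x) = addk j (k + 1) x := by
  funext i
  by_cases h : i = j
  · subst h
    rw [bump_same, addk_same, addk_same, add_assoc]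
  · rw [bump_ne h, addk_ne h, addk_ne h]

theorem addk_zero (j : ι) (x : ι → ℕ) : addk j 0 x = x := by
  funext i
  by_cases h : i = j
  · subst h
    rw [addk_same, add_zero]
  · rw [addk_ne h]

/-- Growth in one direction. -/
theorem growth_one (A : Finset (ι → ℕ)) (j : ι) {l : ℕ}
    (hw : ∀ x ∈ A, ∀ y ∈ A, x j < y j + l) :
    #A * (l + 1) ≤ l * #(A ∪ A.image (bump j)) := by
  classical
  -- the first exit time
  have hex : ∀ x ∈ A, ∃ k, 0 < k ∧ addk j k x ∉ A := by
    intro x hx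
    by_cases hl : l = 0
    · have := hw x hx x hx
      omega
    · refine ⟨l, Nat.pos_of_ne_zero hl, fun h => ?_⟩
      have := hw _ h x hx
      rw [addk_same] at this
      omega
  let f : (ι → ℕ) → (ι → ℕ) := fun x => if h : ∃ k, 0 < k ∧ addk j k x ∉ A then
    addk j (Nat.find h) x else x
  have hf : ∀ x ∈ A, ∃ k, 0 < k ∧ k ≤ l ∧ f x = addk j k x ∧ addk j k x ∉ A ∧
      addk j k x ∈ A.image (bump j) := by
    intro x hx
    have h := hex x hx
    have h1 := Nat.find_spec h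
    refine ⟨Nat.find h, h1.1, ?_, by simp only [f]; rw [dif_pos h], h1.2, ?_⟩
    · refine Nat.find_min' h ⟨?_, fun hl => ?_⟩
      · have := hw x hx x hx
        omega
      · have := hw _ hl x hx
        rw [addk_same] at this
        omega
    · obtain ⟨k, hk⟩ : ∃ k, Nat.find h = k + 1 := Nat.exists_eq_succ_of_ne_zero h1.1.ne'
      rw [hk, ← bump_addk]
      refine mem_image_of_mem _ ?_
      by_cases hk0 : k = 0
      · subst hk0
        rw [addk_zero]
        exact hx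
      · have h2 := Nat.find_min h (m := k) (by omega)
        by_contra hne
        exact h2 ⟨Nat.pos_of_ne_zero hk0, hne⟩
  have himg : A.image f ⊆ (A.image (bump j)) \ A := by
    intro z hz
    obtain ⟨x, hx, rfl⟩ := mem_image.1 hz
    obtain ⟨k, _, _, h3, h4, h5⟩ := hf x hx
    rw [h3]
    exact mem_sdiff.2 ⟨h5, h4⟩
  have hfib : ∀ a ∈ A.image f, #{x ∈ A | f x = a} ≤ l := by
    intro a _
    have h1 : #{x ∈ A | f x = a} ≤ #(range l) := by
      refine card_le_card_of_injOn (fun x => a j - x j - 1) ?_ ?_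
      · intro x hx
        obtain ⟨hxA, hxa⟩ := mem_filter.1 hx
        obtain ⟨k, h1, h2, h3, _, _⟩ := hf x hxA
        rw [mem_coe, mem_range]
        change a j - x j - 1 < l
        rw [← hxa, h3, addk_same]
        omega
      · intro x hx y hy hxy
        obtain ⟨hxA, hxa⟩ := mem_filter.1 hx
        obtain ⟨hyA, hya⟩ := mem_filter.1 hy
        obtain ⟨k, h1, h2, h3, _, _⟩ := hf x hxA
        obtain ⟨k', h1', h2', h3', _, _⟩ := hf y hyA
        have e1 : addk j k x = addk j k' y := by rw [← h3, ← h3', hxa, hya]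
        have e2 : x j + k = y j + k' := by
          have := congrFun e1 j
          rwa [addk_same, addk_same] at this
        have e3 : a j = x j + k := by rw [← hxa, h3, addk_same]
        simp only at hxy
        funext i
        by_cases hi : i = j
        · subst hi
          omega
        · have := congrFun e1 i
          rwa [addk_ne hi, addk_ne hi] at this
    rwa [card_range] at h1
  have h1 := card_le_mul_card_image A l hfib
  have h2 : #(A ∪ A.image (bump j)) = #A + #((A.image (bump j)) \ A) := by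
    rw [← card_union_of_disjoint disjoint_sdiff, union_sdiff_self_eq_union]
  have h3 := card_le_card himg
  rw [h2]
  calc #A * (l + 1) = #A + #A * l := by ring
    _ ≤ l * #(A.image f) + #A * l := by gcongr
    _ ≤ l * #((A.image (bump j)) \ A) + #A * l := by gcongr
    _ = _ := by ring

/-- Growth in several directions. -/
theorem growth (A : Finset (ι → ℕ)) {l : ℕ} (hw : ∀ x ∈ A, ∀ y ∈ A, ∀ j, x j < y j + l)
    (S : Finset ι) : ∃ B : Finset (ι → ℕ),
      (∀ z ∈ B, ∃ x ∈ A, (∀ i ∈ S, x i ≤ z i ∧ z i ≤ x i + 1) ∧ ∀ i, i ∉ S → z i = x i) ∧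
      #A * (l + 1) ^ #S ≤ l ^ #S * #B := by
  classical
  induction S using Finset.induction_on with
  | empty =>
    exact ⟨A, fun z hz => ⟨z, hz, by simp, by simp⟩, by simp⟩
  | insert j S hj ih =>
    obtain ⟨B, hB, hcard⟩ := ih
    refine ⟨B ∪ B.image (bump j), fun z hz => ?_, ?_⟩
    · rcases mem_union.1 hz with hz | hz
      · obtain ⟨x, hx, h1, h2⟩ := hB z hz
        refine ⟨x, hx, fun i hi => ?_, fun i hi => h2 i fun h => hi (mem_insert_of_mem h)⟩
        rcases mem_insert.1 hi with rfl | hi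
        · rw [h2 i hj]
          exact ⟨le_rfl, Nat.le_succ _⟩
        · exact h1 i hi
      · obtain ⟨z', hz', rfl⟩ := mem_image.1 hz
        obtain ⟨x, hx, h1, h2⟩ := hB z' hz'
        refine ⟨x, hx, fun i hi => ?_, fun i hi => ?_⟩
        · rcases mem_insert.1 hi with rfl | hi'
          · rw [bump_same, h2 i hj]
            exact ⟨Nat.le_succ _, le_rfl⟩
          · have : i ≠ j := fun h => hj (h ▸ hi')
            rw [bump_ne this]
            exact h1 i hi'
        · have : i ≠ j := by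
            rintro rfl
            exact hi (mem_insert_self _ _)
          rw [bump_ne this]
          exact h2 i fun h => hi (mem_insert_of_mem h)
    · have h1 := growth_one B j (l := l) (by
        intro z hz z' hz'
        obtain ⟨x, hx, _, h2⟩ := hB z hz
        obtain ⟨x', hx', _, h2'⟩ := hB z' hz'
        rw [h2 j hj, h2' j hj]
        exact hw x hx x' hx' j)
      rw [card_insert_of_notMem hj]
      calc #A * (l + 1) ^ (#S + 1) = (#A * (l + 1) ^ #S) * (l + 1) := by ring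
        _ ≤ (l ^ #S * #B) * (l + 1) := by gcongr
        _ = l ^ #S * (#B * (l + 1)) := by ring
        _ ≤ l ^ #S * (l * #(B ∪ B.image (bump j))) := by gcongr
        _ = _ := by ring

/-- The counting inequality. -/
theorem counting {Λ : Type} {L l n : ℕ} (U : (ι → ℕ) → Λ) (W : Λ → Set (ι → ℕ))
    (hcube : ∀ x, (∀ i, x i < L) → ∀ z, (∀ i, x i ≤ z i ∧ z i ≤ x i + 1) → z ∈ W (U x))
    (hmult : ∀ z, (∀ i, z i ≤ L) → ∀ T : Finset Λ, (∀ a ∈ T, z ∈ W a) →
      (∀ a ∈ T, ∃ x, (∀ i, x i < L) ∧ U x = a) → #T ≤ n + 1)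
    (hwidth : ∀ a, ∀ z ∈ W a, ∀ z' ∈ W a, (∀ i, z i ≤ L) → (∀ i, z' i ≤ L) →
      (∃ x, (∀ i, x i < L) ∧ U x = a) → ∀ j, z j < z' j + l) :
    L ^ Fintype.card ι * (l + 1) ^ Fintype.card ι ≤
      l ^ Fintype.card ι * ((n + 1) * (L + 1) ^ Fintype.card ι) := by
  classical
  set N := Fintype.card ι with hN
  let Q : Finset (ι → ℕ) := Fintype.piFinset fun _ => range L
  let Q' : Finset (ι → ℕ) := Fintype.piFinset fun _ => range (L + 1)
  have hQ : ∀ x, x ∈ Q ↔ ∀ i, x i < L := fun x => by simp [Q]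
  have hQ' : ∀ x, x ∈ Q' ↔ ∀ i, x i ≤ L := fun x => by simp [Q']
  have hQc : #Q = L ^ N := by simp [Q, hN]
  have hQc' : #Q' = (L + 1) ^ N := by simp [Q', hN]
  let T : Finset Λ := Q.image U
  have hTx : ∀ a ∈ T, ∃ x, (∀ i, x i < L) ∧ U x = a := by
    intro a ha
    obtain ⟨x, hx, hxa⟩ := mem_image.1 ha
    exact ⟨x, (hQ x).1 hx, hxa⟩
  have hB : ∀ a ∈ T, ∃ B : Finset (ι → ℕ), B ⊆ Q'.filter (· ∈ W a) ∧
      #(Q.filter (U · = a)) * (l + 1) ^ N ≤ l ^ N * #B := by
    intro a ha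
    obtain ⟨B, hB1, hB2⟩ := growth (Q.filter (U · = a)) (l := l) (by
      intro x hx y hy j
      obtain ⟨hx1, hx2⟩ := mem_filter.1 hx
      obtain ⟨hy1, hy2⟩ := mem_filter.1 hy
      rw [hQ] at hx1 hy1
      have h1 : x ∈ W a := hx2 ▸ hcube x hx1 x fun i => ⟨le_rfl, Nat.le_succ _⟩
      have h2 : y ∈ W a := hy2 ▸ hcube y hy1 y fun i => ⟨le_rfl, Nat.le_succ _⟩
      exact hwidth a x h1 y h2 (fun i => (hx1 i).le) (fun i => (hy1 i).le) (hTx a ha) j) univ
    refine ⟨B, fun z hz => ?_, by simpa [hN] using hB2⟩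
    obtain ⟨x, hx, h1, _⟩ := hB1 z hz
    obtain ⟨hx1, hx2⟩ := mem_filter.1 hx
    rw [hQ] at hx1
    refine mem_filter.2 ⟨(hQ' z).2 fun i => ?_, hx2 ▸ hcube x hx1 z fun i => h1 i (mem_univ i)⟩
    have := (h1 i (mem_univ i)).2
    have := hx1 i
    omega
  choose! B hB1 hB2 using hB
  have hsumQ : #Q = ∑ a ∈ T, #(Q.filter (U · = a)) :=
    card_eq_sum_card_image U Q
  have hsum' : ∑ a ∈ T, #(B a) ≤ (n + 1) * #Q' := by
    calc ∑ a ∈ T, #(B a) ≤ ∑ a ∈ T, #(Q'.filter (· ∈ W a)) :=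
          sum_le_sum fun a ha => card_le_card (hB1 a ha)
      _ = ∑ a ∈ T, ∑ z ∈ Q', if z ∈ W a then 1 else 0 := by
          refine sum_congr rfl fun a _ => ?_
          rw [card_filter]
      _ = ∑ z ∈ Q', ∑ a ∈ T, if z ∈ W a then 1 else 0 := sum_comm
      _ = ∑ z ∈ Q', #(T.filter (z ∈ W ·)) := by
          refine sum_congr rfl fun z _ => ?_
          rw [card_filter]
      _ ≤ ∑ _z ∈ Q', (n + 1) := by
          refine sum_le_sum fun z hz => ?_
          exact hmult z ((hQ' z).1 hz) _ (fun a ha => (mem_filter.1 ha).2)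
            fun a ha => hTx a (mem_filter.1 ha).1
      _ = _ := by rw [sum_const, smul_eq_mul, mul_comm]
  calc L ^ N * (l + 1) ^ N = #Q * (l + 1) ^ N := by rw [hQc]
    _ = ∑ a ∈ T, #(Q.filter (U · = a)) * (l + 1) ^ N := by rw [hsumQ, sum_mul]
    _ ≤ ∑ a ∈ T, l ^ N * #(B a) := sum_le_sum fun a ha => hB2 a ha
    _ = l ^ N * ∑ a ∈ T, #(B a) := by rw [mul_sum]
    _ ≤ l ^ N * ((n + 1) * #Q') := by gcongr
    _ = _ := by rw [hQc']

/-- The numerical contradiction. -/
theorem numeric {M K n : ℕ} (hK : 0 < K) (hM : 0 < M) (hMK : 3 * (n + 1) * K ≤ M)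
    (h : (M ^ 2) ^ (M ^ 2) * (K * M + 1) ^ (M ^ 2) ≤
      (K * M) ^ (M ^ 2) * ((n + 1) * (M ^ 2 + 1) ^ (M ^ 2))) : False := by
  set N := M ^ 2 with hN
  have hN0 : 0 < N := by positivity
  have hl0 : 0 < K * M := by positivity
  have h' : ((N : ℝ)) ^ N * ((K * M : ℕ) + 1 : ℝ) ^ N ≤
      ((K * M : ℕ) : ℝ) ^ N * (((n : ℝ) + 1) * ((N : ℝ) + 1) ^ N) := by exact_mod_cast h
  have hNr : (0 : ℝ) < N := by exact_mod_cast hN0
  have hlr : (0 : ℝ) < ((K * M : ℕ) : ℝ) := by exact_mod_cast hl0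
  have h1 : (1 + 1 / ((K * M : ℕ) : ℝ)) ^ N ≤ ((n : ℝ) + 1) * (1 + 1 / (N : ℝ)) ^ N := by
    have e1 : (1 + 1 / ((K * M : ℕ) : ℝ)) ^ N =
        ((K * M : ℕ) + 1 : ℝ) ^ N / ((K * M : ℕ) : ℝ) ^ N := by
      rw [← div_pow]
      congr 1
      field_simp
    have e2 : (1 + 1 / (N : ℝ)) ^ N = ((N : ℝ) + 1) ^ N / (N : ℝ) ^ N := by
      rw [← div_pow]
      congr 1
      field_simp
    rw [e1, e2, ← mul_div_assoc, div_le_div_iff₀ (by positivity) (by positivity)]
    calc _ = (N : ℝ) ^ N * ((K * M : ℕ) + 1 : ℝ) ^ N := by ring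
      _ ≤ _ := h'
      _ = _ := by ring
  have h2 : (1 + 1 / (N : ℝ)) ^ N ≤ Real.exp 1 := by
    have h3 : 1 + 1 / (N : ℝ) ≤ Real.exp (1 / N) := by
      have := Real.add_one_le_exp (1 / (N : ℝ))
      linarith
    calc (1 + 1 / (N : ℝ)) ^ N ≤ Real.exp (1 / N) ^ N := by gcongr
      _ = Real.exp 1 := by
        rw [← Real.exp_nat_mul]
        congr 1
        field_simp
  have h3 : Real.exp 1 < 3 := by
    have := Real.exp_one_lt_d9
    linarith
  have h4 : 1 + (N : ℝ) * (1 / ((K * M : ℕ) : ℝ)) ≤ (1 + 1 / ((K * M : ℕ) : ℝ)) ^ N :=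
    one_add_mul_le_pow (by
      have : 0 < 1 / ((K * M : ℕ) : ℝ) := by positivity
      linarith) N
  have h5 : (N : ℝ) * (1 / ((K * M : ℕ) : ℝ)) = (M : ℝ) / K := by
    rw [hN]
    push_cast
    have : (M : ℝ) ≠ 0 := by exact_mod_cast hM.ne'
    have : (K : ℝ) ≠ 0 := by exact_mod_cast hK.ne'
    field_simp
  have h6 : (3 : ℝ) * (n + 1) ≤ M / K := by
    rw [le_div_iff₀ (by exact_mod_cast hK)]
    exact_mod_cast hMK
  have h7 : ((n : ℝ) + 1) * (1 + 1 / (N : ℝ)) ^ N ≤ (n + 1) * 3 := by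
    have : (0 : ℝ) ≤ n + 1 := by positivity
    exact mul_le_mul_of_nonneg_left (h2.trans h3.le) this
  rw [h5] at h4
  linarith

end Pool.Agent.helper65.Cat
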