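import Pool.Agent.helper65.Cat.Param
import Pool.Agent.helper65.Cat.Grid

/-!
# The boundary has infinite linearly controlled dimension
-/

open Filter Topology Set Metric
open scoped ENNReal NNReal Real

set_option linter.unusedSectionVars false

namespace Pool.Agent.helper65.Cat

theorem exp_bound {t : ℝ} (ht : 0 < t) : 8 * Real.exp (-(t / 2)) ≤ 64 / t ^ 2 := by
  have h1 : t ^ 2 / 8 ≤ Real.exp (t / 2) := by
    have := Real.quadratic_le_exp_of_nonneg (x := t / 2) (by positivity)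
    nlinarith
  rw [Real.exp_neg, ← div_eq_mul_inv, div_le_div_iff₀ (Real.exp_pos _) (by positivity)]
  linarith

theorem exists_residue (N J : ℕ) (x : Fin N → ℕ) : ∃ k < ∏ i ∈ Finset.range J, F i,
    ∀ j < J, k ≡ (if h : N ^ 2 ≤ j ∧ j < N ^ 2 + N then x ⟨j - N ^ 2, by omega⟩ else 0) [MOD F j] := by
  have hs : ∀ i ∈ Finset.range J, F i ≠ 0 := fun i _ => (F_pos i).ne'
  have pp : Set.Pairwise (Finset.range J : Set ℕ) (Function.onFun Nat.Coprime F) :=
    fun i _ j _ hij => Nat.coprime_fermatNumber_fermatNumber hij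
  let a : ℕ → ℕ := fun j =>
    if h : N ^ 2 ≤ j ∧ j < N ^ 2 + N then x ⟨j - N ^ 2, by omega⟩ else 0
  exact ⟨(Nat.chineseRemainderOfFinset a F (Finset.range J) hs pp).1,
    Nat.chineseRemainderOfFinset_lt_prod a F hs pp, fun j hj =>
    (Nat.chineseRemainderOfFinset a F (Finset.range J) hs pp).2 j (Finset.mem_range.2 hj)⟩

theorem not_linDimLE (n : ℕ) : ¬ LinDimLE (Boundary (TX par.act.toPiece) par.x₀) n := by
  rintro ⟨c, hc, δ₀, hδ₀, hcov⟩
  obtain ⟨K, hK⟩ : ∃ K : ℕ, 81 * c + 1 ≤ K := exists_nat_ge _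
  have hK0 : 0 < K := by
    rcases Nat.eq_zero_or_pos K with h | h
    · rw [h] at hK
      simp only [Nat.cast_zero] at hK
      linarith
    · exact h
  obtain ⟨M, hM⟩ : ∃ M, M = 3 * (n + 1) * K := ⟨_, rfl⟩
  have hM0 : 0 < M := by rw [hM]; positivity
  obtain ⟨N, hN⟩ : ∃ N, N = M ^ 2 := ⟨_, rfl⟩
  have hN0 : 0 < N := by rw [hN]; positivity
  obtain ⟨ε, hε⟩ : ∃ ε, ε = ep N := ⟨_, rfl⟩
  have hε0 : 0 < ε := hε ▸ ep_pos N
  -- the number of coordinates
  obtain ⟨J, hJ1, hJ2⟩ : ∃ J, N ^ 2 + N ≤ J ∧ ∑' i, 4 * rad (i + J) ^ 2 ≤ ep N ^ 2 := by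
    have h1 : Tendsto (fun J => ∑' i, 4 * rad (i + J) ^ 2) atTop (𝓝 0) :=
      tendsto_sum_nat_add fun j => 4 * rad j ^ 2
    have h2 : ∀ᶠ J in atTop, ∑' i, 4 * rad (i + J) ^ 2 < ep N ^ 2 :=
      h1.eventually (gt_mem_nhds (by have := ep_pos N; positivity))
    obtain ⟨J, h3, h4⟩ := (h2.and (eventually_ge_atTop (N ^ 2 + N))).exists
    exact ⟨J, h4, h3.le⟩
  obtain ⟨P, hP⟩ : ∃ P, P = ∏ i ∈ Finset.range J, F i := ⟨_, rfl⟩
  have hP0 : 0 < P := by
    rw [hP]
    exact Finset.prod_pos fun i _ => F_pos i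
  have hdvd : ∀ j < J, F j ∣ P := by
    intro j hj
    rw [hP]
    exact Finset.dvd_prod_of_mem _ (Finset.mem_range.2 hj)
  -- the large factor
  obtain ⟨B, hB⟩ : ∃ B : ℕ, 1 + ‖par.c‖ + (1 + 2 * ‖par.c‖) / ε + 64 / ε + 18 * M * ε / δ₀ ≤ B :=
    exists_nat_ge _
  have hMr : (1 : ℝ) ≤ M := by exact_mod_cast hM0
  have hPr : (1 : ℝ) ≤ P := by exact_mod_cast hP0
  have hKr : (1 : ℝ) ≤ K := by exact_mod_cast hK0
  have c0 : 0 ≤ ‖par.c‖ := norm_nonneg _
  have q1 : 0 ≤ (1 + 2 * ‖par.c‖) / ε := by positivity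
  have q2 : 0 ≤ 64 / ε := by positivity
  have q3 : 0 ≤ 18 * M * ε / δ₀ := by positivity
  have b1 : (1 : ℝ) ≤ B := by linarith
  have b2 : ‖par.c‖ ≤ B := by linarith
  have b3 : 1 + 2 * ‖par.c‖ ≤ ε * B := by
    have h : (1 + 2 * ‖par.c‖) / ε ≤ B := by linarith
    rw [div_le_iff₀ hε0] at h
    linarith
  have b4 : 64 ≤ ε * B := by
    have h : 64 / ε ≤ B := by linarith
    rw [div_le_iff₀ hε0] at h
    linarith
  have b5 : 18 * M * ε ≤ δ₀ * B := by
    have h : 18 * M * ε / δ₀ ≤ B := by linarith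
    rw [div_le_iff₀ hδ₀] at h
    linarith
  obtain ⟨t, ht⟩ : ∃ t : ℝ, t = B * P := ⟨_, rfl⟩
  have hBt : (B : ℝ) ≤ t := by
    rw [ht]
    nlinarith
  have hPt : (P : ℝ) ≤ t := by
    rw [ht]
    nlinarith
  have ht0 : 0 < t := by linarith
  have hB0 : (0 : ℝ) < B := by linarith
  -- the residues
  have hres := fun x : Fin N → ℕ => exists_residue N J x
  choose k hk1 hk2 using hres
  rw [← hP] at hk1
  let m : (Fin N → ℕ) → ℕ := fun x => B * P + k x
  have hm : ∀ x, t ≤ m x := by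
    intro x
    simp only [m]
    rw [ht]
    push_cast
    have : (0 : ℝ) ≤ k x := Nat.cast_nonneg _
    linarith
  have hm' : ∀ x, (m x : ℝ) ≤ t + P := by
    intro x
    simp only [m]
    rw [ht]
    push_cast
    have : (k x : ℝ) ≤ P := by exact_mod_cast (hk1 x).le
    linarith
  have hmm : ∀ x y, |(m x : ℝ) - m y| ≤ P := by
    intro x y
    rw [abs_le]
    have h1 := hm x
    have h2 := hm' x
    have h3 := hm y
    have h4 := hm' y
    constructor <;> linarith
  have hmpos : ∀ x, 0 < m x := by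
    intro x
    have h1 := hm x
    have h2 : (0 : ℝ) < m x := by linarith
    exact_mod_cast h2
  have hmod : ∀ x, ∀ j < J, m x ≡
      (if h : N ^ 2 ≤ j ∧ j < N ^ 2 + N then x ⟨j - N ^ 2, by omega⟩ else 0) [MOD F j] := by
    intro x j hj
    have h1 : B * P ≡ 0 [MOD F j] := (Nat.modEq_zero_iff_dvd).2 ((hdvd j hj).mul_left B)
    have h2 := h1.add (hk2 x j hj)
    rwa [zero_add] at h2
  have hrt : ∀ (x : Fin N → ℕ) (i : Fin N), rt (F (N ^ 2 + i)) ^ m x = rt (F (N ^ 2 + i)) ^ x i := by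
    intro x i
    refine rt_pow_congr (F_pos _) ?_
    have h1 := hmod x (N ^ 2 + i) (by omega)
    rw [dif_pos ⟨Nat.le_add_right _ _, by omega⟩] at h1
    have h2 : (⟨N ^ 2 + i - N ^ 2, by omega⟩ : Fin N) = i := Fin.ext (by simp)
    rwa [h2] at h1
  have hω : ∀ x y : Fin N → ℕ, ∀ j < J, (∀ i < N, j ≠ N ^ 2 + i) →
      par.ω j ^ m x = par.ω j ^ m y := by
    intro x y j hj hne
    by_cases hj0 : j = 0
    · subst hj0
      rw [par.ω_zero, one_pow, one_pow]
    · rw [par_ω hj0]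
      have hnot : ¬ (N ^ 2 ≤ j ∧ j < N ^ 2 + N) := by
        rintro ⟨h1, h2⟩
        exact hne (j - N ^ 2) (by omega) (by omega)
      have h1 := hmod x j hj
      have h2 := hmod y j hj
      rw [dif_neg hnot] at h1 h2
      rw [rt_pow_congr (F_pos _) h1, rt_pow_congr (F_pos _) h2]
  let ι : (Fin N → ℕ) → Boundary (TX par.act.toPiece) par.x₀ := fun x => par.ζ (m x) (hmpos x)
  -- upper estimate
  have hupper : ∀ x y : Fin N → ℕ, (∀ i, x i ≤ y i + 1) → (∀ i, y i ≤ x i + 1) →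
      dist (ι x) (ι y) ≤ 17 * M * ε / t := by
    intro x y h1 h2
    have e1 := par.dist_ζ_le (hmpos x) (hmpos y) (hm x) (hm y)
    have e2 := par.norm_u_sub_le ht0 (hm x) (hm y)
    have e3 : ‖par.R (m x) - par.R (m y)‖ ≤ 7 * M * ε := by
      have e4 := norm_R_sub_le (m := m x) (m' := m y) hN0 hJ1 (fun i hi => by
        have a1 := hrt x ⟨i, hi⟩
        have a2 := hrt y ⟨i, hi⟩
        simp only at a1 a2
        rw [a1, a2]
        exact norm_rt_pow_sub_le (h1 _) (h2 _)) (hω x y) hJ2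
      rw [← hε] at e4
      have e5 : (49 * (N : ℝ) * ε ^ 2) = (7 * M * ε) ^ 2 := by
        rw [hN]
        push_cast
        ring
      rw [e5] at e4
      exact (pow_le_pow_iff_left₀ (norm_nonneg _) (by positivity) (by norm_num)).1 e4
    have e4 : ‖par.c‖ * |(m x : ℝ) - m y| / t ^ 2 ≤ ε / t := by
      rw [div_le_div_iff₀ (by positivity) ht0]
      have a1 : ‖par.c‖ * |(m x : ℝ) - m y| ≤ (ε * B) * P :=
        mul_le_mul (by linarith) (hmm x y) (abs_nonneg _) (by positivity)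
      have a2 : (ε * B) * P = ε * t := by rw [ht]; ring
      rw [a2] at a1
      calc _ ≤ ε * t * t := mul_le_mul_of_nonneg_right a1 ht0.le
        _ = _ := by ring
    have e5 : 8 * Real.exp (-(t / 2)) ≤ ε / t := by
      refine (exp_bound ht0).trans ?_
      rw [div_le_div_iff₀ (by positivity) ht0]
      have a1 : 64 ≤ ε * t := b4.trans (mul_le_mul_of_nonneg_left hBt hε0.le)
      calc 64 * t ≤ ε * t * t := mul_le_mul_of_nonneg_right a1 ht0.le
        _ = _ := by ring
    have e6 : ‖par.R (m x) - par.R (m y)‖ / t ≤ 7 * M * ε / t := by gcongr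
    have e7 : 17 * M * ε / t = 2 * (7 * M * ε / t) + 3 * M * (ε / t) := by ring
    have e8 : 3 * (ε / t) ≤ 3 * M * (ε / t) := by
      have : 0 ≤ ε / t := by positivity
      nlinarith
    rw [e7]
    linarith
  -- lower estimate
  have hlower : ∀ x y : Fin N → ℕ, ∀ i, x i ≤ N → y i + K * M ≤ x i →
      c * (18 * M * ε / t) < dist (ι x) (ι y) := by
    intro x y i hx hxy
    have e1 := par.le_dist_ζ (hmpos x) (hmpos y)
    have hj0 : N ^ 2 + (i : ℕ) ≠ 0 := by positivity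
    have hT : ‖par.Pv (m x)‖ ≤ 3 * t := by
      refine (par.norm_Pv_le _).trans ?_
      have := hm' x
      linarith
    have e2 := par.le_norm_u_sub ht0 (hm x) (hm y) hT hj0
    rw [par_ω hj0, hrt x i, hrt y i] at e2
    have e3 := le_norm_rt_pow_sub (p := F (N ^ 2 + i)) (x := x i) (y := y i) (F_pos _)
      (by omega) (by
        have h1 := lt_F (N ^ 2 + i)
        have h2 : N ≤ N ^ 2 := Nat.le_self_pow (by norm_num) N
        omega)
    have hs : par.s (N ^ 2 + i) = ε * F (N ^ 2 + i) := by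
      rw [hε]
      exact rad_block hN0 i.2
    have hF : (0 : ℝ) < F (N ^ 2 + i) := by exact_mod_cast F_pos _
    have hd : (K : ℝ) * M ≤ (x i : ℝ) - y i := by
      have : ((y i + K * M : ℕ) : ℝ) ≤ x i := by exact_mod_cast hxy
      push_cast at this
      linarith
    have e4 : 4 * ε * (K * M) / (3 * t) ≤
        par.s (N ^ 2 + i) * ‖rt (F (N ^ 2 + i)) ^ x i - rt (F (N ^ 2 + i)) ^ y i‖ / (3 * t) := by
      refine div_le_div_of_nonneg_right ?_ (by positivity)
      rw [hs]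
      calc 4 * ε * (K * M) ≤ 4 * ε * ((x i : ℝ) - y i) :=
            mul_le_mul_of_nonneg_left hd (by positivity)
        _ = ε * F (N ^ 2 + i) * (4 * ((x i : ℝ) - y i) / F (N ^ 2 + i)) := by field_simp
        _ ≤ _ := mul_le_mul_of_nonneg_left e3 (by positivity)
    have e5 : par.s (N ^ 2 + i) * (|(m x : ℝ) - m y| + 2 * ‖par.c‖) / t ^ 2 ≤ ε / t := by
      rw [div_le_div_iff₀ (by positivity) ht0]
      have a1 : par.s (N ^ 2 + i) ≤ 1 := rad_le_one _
      have a2 : |(m x : ℝ) - m y| + 2 * ‖par.c‖ ≤ (1 + 2 * ‖par.c‖) * P := by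
        have := hmm x y
        nlinarith
      have a3 : par.s (N ^ 2 + i) * (|(m x : ℝ) - m y| + 2 * ‖par.c‖) ≤ ε * t := by
        calc _ ≤ 1 * ((1 + 2 * ‖par.c‖) * P) := mul_le_mul a1 a2 (by positivity) zero_le_one
          _ ≤ 1 * ((ε * B) * P) := by gcongr
          _ = _ := by rw [ht]; ring
      calc _ ≤ ε * t * t := mul_le_mul_of_nonneg_right a3 ht0.le
        _ = _ := by ring
    have e6 : (ε / t) * (4 * K * M / 3 - 1) ≤ ‖par.u (m x) - par.u (m y)‖ := by
      have : (ε / t) * (4 * K * M / 3 - 1) = 4 * ε * (K * M) / (3 * t) - ε / t := by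
        field_simp
      rw [this]
      linarith
    have e7 : c * (18 * M * ε / t) < (ε / t) * (4 * K * M / 3 - 1) / 6 := by
      have h1 : c * (18 * M * ε / t) = (ε / t) * (108 * c * M) / 6 := by
        field_simp
        ring
      rw [h1]
      have h2 : 108 * c * M < 4 * K * M / 3 - 1 := by
        have h3 : (81 * c + 1) * M ≤ K * M := mul_le_mul_of_nonneg_right hK (by linarith)
        nlinarith
      have h3 : 0 < ε / t := by positivity
      have h4 := mul_lt_mul_of_pos_left h2 h3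
      linarith
    linarith
  -- the cover
  have hδ : 18 * M * ε / t ≤ δ₀ := by
    rw [div_le_iff₀ ht0]
    exact b5.trans (mul_le_mul_of_nonneg_left hBt hδ₀.le)
  have hδ0 : 0 < 18 * M * ε / t := by positivity
  obtain ⟨𝒰, -, -, h3, h4, h5⟩ := hcov _ hδ0 hδ
  have hU : ∀ x : Fin N → ℕ, ∃ U ∈ 𝒰, ∀ z : Fin N → ℕ, (∀ i, x i ≤ z i ∧ z i ≤ x i + 1) →
      ι z ∈ U := by
    intro x
    obtain ⟨U, hU1, hU2⟩ := h5 (ι '' {z | ∀ i, x i ≤ z i ∧ z i ≤ x i + 1})
      ⟨ι x, x, fun i => ⟨le_rfl, Nat.le_succ _⟩, rfl⟩ (by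
        refine lt_of_le_of_lt (b := ENNReal.ofReal (17 * M * ε / t)) ?_ ?_
        · refine ediam_le ?_
          rintro _ ⟨z, hz, rfl⟩ _ ⟨z', hz', rfl⟩
          rw [edist_dist]
          refine ENNReal.ofReal_le_ofReal (hupper z z' (fun i => ?_) fun i => ?_)
          · have a1 := hz i
            have a2 := hz' i
            omega
          · have a1 := hz i
            have a2 := hz' i
            omega
        · refine (ENNReal.ofReal_lt_ofReal_iff hδ0).2 ?_
          refine div_lt_div_of_pos_right ?_ ht0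
          have : 0 < M * ε := by positivity
          nlinarith)
    exact ⟨U, hU1, fun z hz => hU2 ⟨z, hz, rfl⟩⟩
  choose U hU1 hU2 using hU
  have hcount := counting (ι := Fin N) (L := N) (l := K * M) (n := n) U
    (fun V => {z | ι z ∈ V}) (fun x _ z hz => hU2 x z hz)
    (fun z _ T hT hT' => by
      have a1 : ((T : Set (Set (Boundary (TX par.act.toPiece) par.x₀)))).encard ≤ n + 1 := by
        refine le_trans (Set.encard_le_encard ?_) (h3 (ι z))
        intro V hV
        obtain ⟨x, _, hx⟩ := hT' V hV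
        exact ⟨hx ▸ hU1 x, hT V hV⟩
      rw [Set.encard_coe_eq_coe_finsetCard] at a1
      exact_mod_cast a1)
    (fun V z hz z' hz' hzN _ hV j => by
      obtain ⟨x, _, hx⟩ := hV
      have hV𝒰 : V ∈ 𝒰 := hx ▸ hU1 x
      by_contra hcon
      rw [not_lt] at hcon
      have a1 := hlower z z' j (hzN j) hcon
      have hz1 : ι z ∈ V := hz
      have hz2 : ι z' ∈ V := hz'
      have a2 : edist (ι z) (ι z') ≤ ENNReal.ofReal (c * (18 * M * ε / t)) :=
        (edist_le_ediam_of_mem hz1 hz2).trans (h4 V hV𝒰)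
      rw [edist_dist, ENNReal.ofReal_le_ofReal_iff (by positivity)] at a2
      linarith)
  rw [Fintype.card_fin] at hcount
  refine numeric hK0 hM0 (n := n) (le_of_eq hM.symm) ?_
  rw [hN] at hcount
  exact hcount

end Pool.Agent.helper65.Cat
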