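import Pool.Agent.helper65.Cat.Rays

/-!
# The choice of the parameters
-/

open Filter Topology Set Metric
open scoped ENNReal NNReal Real

set_option linter.unusedSectionVars false

namespace Pool.Agent.helper65.Cat

/-! ### Roots of unity -/

/-- A primitive root of unity. -/
noncomputable def rt (p : ℕ) : ℂ := Complex.exp (Complex.I * ((2 * π / p : ℝ) : ℂ))

theorem norm_rt (p : ℕ) : ‖rt p‖ = 1 := Complex.norm_exp_I_mul_ofReal _

theorem rt_pow (p n : ℕ) : rt p ^ n = Complex.exp (Complex.I * ((n * (2 * π / p) : ℝ) : ℂ)) := by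
  unfold rt
  rw [← Complex.exp_nat_mul]
  congr 1
  push_cast
  ring

theorem rt_pow_self {p : ℕ} (hp : 0 < p) : rt p ^ p = 1 := by
  rw [rt_pow]
  have h : (p : ℝ) * (2 * π / p) = 2 * π := by
    have : (p : ℝ) ≠ 0 := by exact_mod_cast hp.ne'
    field_simp
  rw [h]
  have := Complex.exp_two_pi_mul_I
  rw [← this]
  congr 1
  push_cast
  ring

theorem rt_pow_congr {p m x : ℕ} (hp : 0 < p) (h : m ≡ x [MOD p]) : rt p ^ m = rt p ^ x := by
  have h1 : ∀ n : ℕ, rt p ^ n = rt p ^ (n % p) := by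
    intro n
    conv_lhs => rw [← Nat.div_add_mod n p]
    rw [pow_add, pow_mul, rt_pow_self hp, one_pow, one_mul]
  rw [h1 m, h1 x]
  congr 1

theorem norm_rt_pow_sub (p x y : ℕ) :
    ‖rt p ^ x - rt p ^ y‖ = ‖2 * Real.sin (((x : ℝ) - y) * (2 * π / p) / 2)‖ := by
  rw [← Complex.norm_exp_I_mul_ofReal_sub_one, rt_pow, rt_pow]
  have h1 : Complex.exp (Complex.I * ((x * (2 * π / p) : ℝ) : ℂ)) =
      Complex.exp (Complex.I * ((y * (2 * π / p) : ℝ) : ℂ)) *
        Complex.exp (Complex.I * ((((x : ℝ) - y) * (2 * π / p) : ℝ) : ℂ)) := by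
    rw [← Complex.exp_add]
    congr 1
    push_cast
    ring
  rw [h1]
  have h2 : ∀ a b : ℂ, a * b - a = a * (b - 1) := fun a b => by ring
  rw [h2, norm_mul, Complex.norm_exp_I_mul_ofReal, one_mul]

theorem norm_rt_pow_sub_le {p x y : ℕ} (h1 : x ≤ y + 1) (h2 : y ≤ x + 1) :
    ‖rt p ^ x - rt p ^ y‖ ≤ 2 * π / p := by
  rw [norm_rt_pow_sub, Real.norm_eq_abs, abs_mul, abs_of_pos (by norm_num : (0 : ℝ) < 2)]
  have h3 := Real.abs_sin_le_abs (x := ((x : ℝ) - y) * (2 * π / p) / 2)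
  have h0 : 0 ≤ 2 * π / (p : ℝ) := by positivity
  have h4 : |((x : ℝ) - y) * (2 * π / p) / 2| ≤ (2 * π / p) / 2 := by
    rw [abs_div, abs_mul, abs_of_pos (by norm_num : (0 : ℝ) < 2), abs_of_nonneg h0]
    have h5 : |(x : ℝ) - y| ≤ 1 := by
      rw [abs_le]
      have h1' : (x : ℝ) ≤ y + 1 := by exact_mod_cast h1
      have h2' : (y : ℝ) ≤ x + 1 := by exact_mod_cast h2
      constructor <;> linarith
    have := mul_le_mul_of_nonneg_right h5 h0
    linarith
  linarith

theorem le_norm_rt_pow_sub {p x y : ℕ} (hp : 0 < p) (hxy : y ≤ x) (h : 2 * x ≤ p) :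
    4 * ((x : ℝ) - y) / p ≤ ‖rt p ^ x - rt p ^ y‖ := by
  have hp' : (0 : ℝ) < p := by exact_mod_cast hp
  have hxy' : (y : ℝ) ≤ x := by exact_mod_cast hxy
  have hx' : 2 * (x : ℝ) ≤ p := by exact_mod_cast h
  have hy' : (0 : ℝ) ≤ y := by positivity
  have hpi := Real.pi_pos
  rw [norm_rt_pow_sub, Real.norm_eq_abs]
  have e0 : 0 ≤ ((x : ℝ) - y) * (2 * π / p) / 2 := by
    have : 0 ≤ (x : ℝ) - y := by linarith
    positivity
  have e1 : ((x : ℝ) - y) * (2 * π / p) / 2 ≤ π / 2 := by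
    have : ((x : ℝ) - y) * (2 * π / p) / 2 = (2 * (x - y) / p) * (π / 2) := by
      field_simp
    rw [this]
    have h1 : 2 * ((x : ℝ) - y) / p ≤ 1 := by
      rw [div_le_one hp']
      linarith
    have := mul_le_mul_of_nonneg_right h1 (by positivity : 0 ≤ π / 2)
    linarith
  have h2 := Real.mul_le_sin e0 e1
  refine le_trans ?_ (le_abs_self _)
  have h3 : 4 * ((x : ℝ) - y) / p = 2 * (2 / π * (((x : ℝ) - y) * (2 * π / p) / 2)) := by
    field_simp
    ring
  rw [h3]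
  linarith

/-! ### The parameters -/

/-- The Fermat numbers. -/
abbrev F (j : ℕ) : ℕ := Nat.fermatNumber j

theorem F_pos (j : ℕ) : 0 < F j :=
  lt_of_lt_of_le (by norm_num) (Nat.three_le_fermatNumber j)

theorem lt_F (j : ℕ) : 2 * j ≤ F j := by
  unfold F Nat.fermatNumber
  have h1 : j < 2 ^ j := Nat.lt_two_pow_self
  have h2 : 2 ^ j < 2 ^ 2 ^ j := Nat.lt_two_pow_self
  have h3 : 2 * j ≤ 2 ^ j + 1 ∨ 2 * j ≤ 2 ^ 2 ^ j := by
    right
    have h4 : 2 ^ (j + 1) ≤ 2 ^ 2 ^ j := Nat.pow_le_pow_right (by norm_num) h1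
    rw [pow_succ] at h4
    omega
  omega

/-- The scale of the block `N`. -/
noncomputable def ep (N : ℕ) : ℝ := (1 / 2) ^ ((N + 1) ^ 2) / F ((N + 1) ^ 2)

theorem ep_pos (N : ℕ) : 0 < ep N := by
  have : (0 : ℝ) < F ((N + 1) ^ 2) := by exact_mod_cast F_pos _
  unfold ep
  positivity

/-- The radii. -/
noncomputable def rad (j : ℕ) : ℝ := if j = 0 then 0 else ep (Nat.sqrt j) * F j

theorem rad_nonneg (j : ℕ) : 0 ≤ rad j := by
  unfold rad
  split_ifs
  · exact le_rfl
  · exact mul_nonneg (ep_pos _).le (Nat.cast_nonneg _)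

theorem rad_le (j : ℕ) : rad j ≤ (1 / 2) ^ j := by
  unfold rad
  split_ifs with h
  · positivity
  · have h1 : j ≤ (Nat.sqrt j + 1) ^ 2 := by
      have := Nat.lt_succ_sqrt j
      rw [sq]
      exact this.le
    have hF : (0 : ℝ) < F ((Nat.sqrt j + 1) ^ 2) := by exact_mod_cast F_pos _
    have h2 : (F j : ℝ) ≤ F ((Nat.sqrt j + 1) ^ 2) := by
      exact_mod_cast Nat.fermatNumber_mono h1
    have h3 : ((1 : ℝ) / 2) ^ ((Nat.sqrt j + 1) ^ 2) ≤ (1 / 2) ^ j :=
      pow_le_pow_of_le_one (by norm_num) (by norm_num) h1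
    unfold ep
    rw [div_mul_eq_mul_div, div_le_iff₀ hF]
    exact mul_le_mul h3 h2 (Nat.cast_nonneg _) (by positivity)

theorem rad_le_one (j : ℕ) : rad j ≤ 1 := by
  refine (rad_le j).trans ?_
  exact pow_le_one₀ (by norm_num) (by norm_num)

theorem rad_summable : Summable fun j => rad j ^ 2 := by
  refine Summable.of_nonneg_of_le (fun j => sq_nonneg _) (fun j => ?_)
    (summable_geometric_of_lt_one (r := (1 : ℝ) / 2) (by norm_num) (by norm_num))
  have h1 := rad_le j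
  have h2 := rad_le_one j
  have h3 := rad_nonneg j
  nlinarith

/-- The parameters. -/
noncomputable def par : RotPar where
  ω j := if j = 0 then 1 else rt (F j)
  s := rad
  ω_norm j := by
    split_ifs
    · simp
    · exact norm_rt _
  ω_zero := if_pos rfl
  s_nonneg := rad_nonneg
  s_zero := if_pos rfl
  s_summable := rad_summable

theorem par_ω {j : ℕ} (hj : j ≠ 0) : par.ω j = rt (F j) := if_neg hj

theorem rad_block {N i : ℕ} (hN : 0 < N) (hi : i < N) : rad (N ^ 2 + i) = ep N * F (N ^ 2 + i) := by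
  have h1 : Nat.sqrt (N ^ 2 + i) = N := Nat.sqrt_add_eq' N (by omega)
  have h2 : N ^ 2 + i ≠ 0 := by positivity
  unfold rad
  rw [if_neg h2, h1]

/-- Main estimate for the rotated radii. -/
theorem norm_R_sub_le {N J m m' : ℕ} (hN : 0 < N) (hJ : N ^ 2 + N ≤ J)
    (h1 : ∀ i < N, ‖rt (F (N ^ 2 + i)) ^ m - rt (F (N ^ 2 + i)) ^ m'‖ ≤ 2 * π / F (N ^ 2 + i))
    (h2 : ∀ j < J, (∀ i < N, j ≠ N ^ 2 + i) → par.ω j ^ m = par.ω j ^ m')
    (h3 : ∑' i, 4 * rad (i + J) ^ 2 ≤ ep N ^ 2) :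
    ‖par.R m - par.R m'‖ ^ 2 ≤ 49 * N * ep N ^ 2 := by
  classical
  set S : Finset ℕ := (Finset.range N).image fun i => N ^ 2 + i with hS
  have hSmem : ∀ j, j ∈ S ↔ ∃ i < N, N ^ 2 + i = j := by
    intro j
    simp [hS]
  have hScard : S.card ≤ N := by
    refine Finset.card_image_le.trans ?_
    simp
  let B : ℕ → ℝ := fun j => if j ∈ S then 2 * π * ep N else if j < J then 0 else 2 * rad j
  have hep := ep_pos N
  have hBn : ∀ i, B (i + J) = 2 * rad (i + J) := by
    intro i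
    have e1 : i + J ∉ S := by
      rw [hSmem]
      rintro ⟨k, hk, hk'⟩
      omega
    simp only [B]
    rw [if_neg e1, if_neg (by omega)]
  have hBs : Summable fun j => B j ^ 2 := by
    rw [← summable_nat_add_iff J]
    simp_rw [hBn, mul_pow]
    exact ((summable_nat_add_iff J).2 rad_summable).mul_left _
  have hb : ∀ j, ‖(par.R m - par.R m') j‖ ≤ B j := by
    intro j
    rw [lp.coeFn_sub, Pi.sub_apply, RotPar.R_apply, RotPar.R_apply, ← sub_mul, norm_mul,
      Complex.norm_real, Real.norm_of_nonneg (par.s_nonneg j)]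
    change ‖par.ω j ^ m - par.ω j ^ m'‖ * rad j ≤ _
    simp only [B]
    by_cases hj : j ∈ S
    · rw [if_pos hj]
      obtain ⟨i, hi, rfl⟩ := (hSmem j).1 hj
      have hj0 : N ^ 2 + i ≠ 0 := by positivity
      have hF : (0 : ℝ) < F (N ^ 2 + i) := by exact_mod_cast F_pos _
      rw [par_ω hj0, rad_block hN hi]
      calc _ ≤ (2 * π / F (N ^ 2 + i)) * (ep N * F (N ^ 2 + i)) :=
            mul_le_mul_of_nonneg_right (h1 i hi) (by positivity)
        _ = _ := by field_simp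
    · rw [if_neg hj]
      by_cases hjJ : j < J
      · rw [if_pos hjJ, h2 j hjJ (fun i hi he => hj ((hSmem j).2 ⟨i, hi, he.symm⟩)), sub_self,
          norm_zero, zero_mul]
      · rw [if_neg hjJ]
        have e1 : ‖par.ω j ^ m - par.ω j ^ m'‖ ≤ 2 := by
          refine (norm_sub_le _ _).trans ?_
          rw [norm_pow, norm_pow, par.ω_norm]
          norm_num
        exact mul_le_mul_of_nonneg_right e1 (rad_nonneg j)
  refine (hh_norm_le hBs hb).trans ?_
  rw [← hBs.sum_add_tsum_nat_add J]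
  have e1 : ∑' i, B (i + J) ^ 2 ≤ ep N ^ 2 := by
    refine le_trans (le_of_eq ?_) h3
    refine tsum_congr fun i => ?_
    rw [hBn]
    ring
  have e2 : ∑ j ∈ Finset.range J, B j ^ 2 ≤ N * (2 * π * ep N) ^ 2 := by
    have e3 : ∑ j ∈ Finset.range J, B j ^ 2 ≤ ∑ j ∈ S, (2 * π * ep N) ^ 2 := by
      rw [← Finset.sum_filter_add_sum_filter_not (Finset.range J) (· ∈ S)]
      have e4 : ∑ j ∈ Finset.range J with ¬ (j ∈ S), B j ^ 2 = 0 := by
        refine Finset.sum_eq_zero fun j hj => ?_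
        obtain ⟨hj1, hj2⟩ := Finset.mem_filter.1 hj
        simp only [B]
        rw [if_neg hj2, if_pos (Finset.mem_range.1 hj1)]
        norm_num
      rw [e4, add_zero]
      calc ∑ j ∈ Finset.range J with j ∈ S, B j ^ 2 =
            ∑ j ∈ Finset.range J with j ∈ S, (2 * π * ep N) ^ 2 := by
            refine Finset.sum_congr rfl fun j hj => ?_
            obtain ⟨_, hj2⟩ := Finset.mem_filter.1 hj
            simp only [B]
            rw [if_pos hj2]
        _ ≤ _ := by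
            refine Finset.sum_le_sum_of_subset_of_nonneg ?_ fun _ _ _ => sq_nonneg _
            intro j hj
            exact (Finset.mem_filter.1 hj).2
    refine e3.trans ?_
    rw [Finset.sum_const, nsmul_eq_mul]
    exact mul_le_mul_of_nonneg_right (by exact_mod_cast hScard) (sq_nonneg _)
  have e3 : (2 * π * ep N) ^ 2 ≤ 48 * ep N ^ 2 := by
    have hpi : π ^ 2 ≤ 12 := by
      have h1 := Real.pi_lt_d2
      have h2 := Real.pi_pos
      nlinarith
    have : (2 * π * ep N) ^ 2 = 4 * π ^ 2 * ep N ^ 2 := by ring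
    rw [this]
    exact mul_le_mul_of_nonneg_right (by linarith) (sq_nonneg _)
  have hN1 : (1 : ℝ) ≤ N := by exact_mod_cast hN
  have e4 : (N : ℝ) * (2 * π * ep N) ^ 2 ≤ N * (48 * ep N ^ 2) :=
    mul_le_mul_of_nonneg_left e3 (by positivity)
  have e5 : ep N ^ 2 ≤ N * ep N ^ 2 := by
    have := mul_le_mul_of_nonneg_right hN1 (sq_nonneg (ep N))
    linarith
  calc _ ≤ N * (2 * π * ep N) ^ 2 + ep N ^ 2 := add_le_add e2 e1
    _ ≤ N * (48 * ep N ^ 2) + N * ep N ^ 2 := add_le_add e4 e5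
    _ = _ := by ring

end Pool.Agent.helper65.Cat
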