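import Pool.Agent.helper65.Cat.Rot
import Pool.Agent.helper65.Cat.Bdry

/-!
# Rays in the tree of pieces
-/

open Filter Topology Set Metric
open scoped ENNReal NNReal InnerProductSpace

set_option linter.unusedSectionVars false

namespace Pool.Agent.helper65.Cat

/-! ### Normalised vectors -/

theorem norm_normalize_sub {V : Type} [NormedAddCommGroup V] [NormedSpace ℝ V] {a b : V}
    (ha : 1 ≤ ‖a‖) (hb : 1 ≤ ‖b‖) : ‖‖a‖⁻¹ • a - ‖b‖⁻¹ • b‖ ≤ 2 * ‖a - b‖ := by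
  have ha0 : (0 : ℝ) < ‖a‖ := by linarith
  have hb0 : (0 : ℝ) < ‖b‖ := by linarith
  have h1 : ‖a‖⁻¹ • a - ‖b‖⁻¹ • b = ‖a‖⁻¹ • (a - b) + (‖a‖⁻¹ - ‖b‖⁻¹) • b := by module
  have h2 : (‖a‖⁻¹ - ‖b‖⁻¹) = (‖b‖ - ‖a‖) * (‖a‖⁻¹ * ‖b‖⁻¹) := by
    field_simp
  have h3 : |‖b‖ - ‖a‖| ≤ ‖a - b‖ := by
    rw [norm_sub_rev]
    exact abs_norm_sub_norm_le b a
  have h4 : ‖a‖⁻¹ ≤ 1 := inv_le_one_of_one_le₀ ha
  rw [h1]
  refine (norm_add_le _ _).trans ?_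
  rw [norm_smul, norm_smul, h2, norm_mul, norm_mul, norm_inv, norm_inv, norm_norm, norm_norm,
    Real.norm_eq_abs]
  have h5 : |‖b‖ - ‖a‖| * (‖a‖⁻¹ * ‖b‖⁻¹) * ‖b‖ = |‖b‖ - ‖a‖| * ‖a‖⁻¹ := by
    field_simp
  rw [h5]
  have h6 : ‖a‖⁻¹ * ‖a - b‖ ≤ 1 * ‖a - b‖ := mul_le_mul_of_nonneg_right h4 (norm_nonneg _)
  have h7 : |‖b‖ - ‖a‖| * ‖a‖⁻¹ ≤ ‖a - b‖ * 1 :=
    mul_le_mul h3 h4 (by positivity) (norm_nonneg _)
  linarith

namespace RotPar

variable (A : RotPar)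

/-- The centre of the discs. -/
noncomputable def c : HH :=
  ⟨fun j => -(A.s j : ℂ), by
    have h : Memℓp (fun j => -(A.s j : ℂ)) 2 := hh_memlp (by
      simp_rw [norm_neg, Complex.norm_real, Real.norm_eq_abs, sq_abs]
      exact A.s_summable)
    exact h⟩

theorem c_apply (j : ℕ) : A.c j = -(A.s j : ℂ) := rfl

theorem c_mem : A.c ∈ A.Y := by
  refine ⟨?_, fun j _ => ?_⟩
  · rw [c_apply, A.s_zero]
    simp
  · rw [c_apply, neg_add_cancel, norm_zero]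
    exact A.s_nonneg j

theorem norm_rot (k : ℤ) (f : HH) : ‖A.rot k f‖ = ‖f‖ := by
  have h2 : ‖A.rot k f‖ ^ 2 = ‖f‖ ^ 2 := by
    rw [hh_norm_sq, hh_norm_sq]
    refine tsum_congr fun j => ?_
    rw [rot_apply, norm_mul, A.zpow_norm, one_mul]
  exact (pow_left_inj₀ (norm_nonneg _) (norm_nonneg _) (by norm_num)).1 h2

/-- The rotated radius. -/
noncomputable def R (m : ℕ) : HH := A.rot m (-A.c)

theorem R_apply (m j : ℕ) : A.R m j = A.ω j ^ m * A.s j := by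
  unfold R
  rw [rot_apply, lp.coeFn_neg, Pi.neg_apply, c_apply, neg_neg, zpow_natCast]

theorem norm_R (m : ℕ) : ‖A.R m‖ = ‖A.c‖ := by
  unfold R
  rw [norm_rot, norm_neg]

/-- The vector from the centre to the marked point. -/
noncomputable def Pv (m : ℕ) : HH := A.q m - A.c

theorem Pv_eq (m : ℕ) : A.Pv m = (m : ℝ) • e0 + A.R m := by
  refine lp.ext (funext fun j => ?_)
  rw [Pv, lp.coeFn_sub, lp.coeFn_add, lp.coeFn_smul, Pi.sub_apply, Pi.add_apply, Pi.smul_apply,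
    R_apply, c_apply]
  by_cases hj : j = 0
  · subst hj
    rw [q_apply_zero, e0_zero, A.s_zero, A.ω_zero]
    simp
  · rw [A.q_apply _ hj, e0_ne hj, zpow_natCast]
    simp
    ring

theorem Pv_zero (m : ℕ) : A.Pv m 0 = (m : ℂ) := by
  rw [Pv, lp.coeFn_sub, Pi.sub_apply, q_apply_zero, c_apply, A.s_zero]
  simp

theorem norm_e0 : ‖e0‖ = 1 := by
  have h : ‖e0‖ ^ 2 = 1 := by
    rw [hh_norm_sq, tsum_eq_single 0]
    · rw [e0_zero]
      simp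
    · intro j hj
      rw [e0_ne hj]
      simp
  have h0 := norm_nonneg e0
  nlinarith

theorem le_norm_Pv (m : ℕ) : (m : ℝ) ≤ ‖A.Pv m‖ := by
  have := hh_apply_le (A.Pv m) 0
  rw [Pv_zero] at this
  simpa using this

theorem norm_Pv_le (m : ℕ) : ‖A.Pv m‖ ≤ m + ‖A.c‖ := by
  rw [Pv_eq]
  refine (norm_add_le _ _).trans ?_
  rw [norm_smul, norm_e0, norm_R]
  simp

/-- The direction of the ray. -/
noncomputable def u (m : ℕ) : HH := ‖A.Pv m‖⁻¹ • A.Pv m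

theorem norm_u {m : ℕ} (hm : 0 < m) : ‖A.u m‖ = 1 := by
  have h1 := A.le_norm_Pv m
  have h2 : (0 : ℝ) < m := by exact_mod_cast hm
  unfold u
  rw [norm_smul, norm_inv, norm_norm]
  exact inv_mul_cancel₀ (by linarith)

theorem u_eq {m : ℕ} (hm : 0 < m) : A.u m =
    ‖(m : ℝ)⁻¹ • A.Pv m‖⁻¹ • ((m : ℝ)⁻¹ • A.Pv m) := by
  have h2 : (0 : ℝ) < m := by exact_mod_cast hm
  unfold u
  rw [norm_smul, norm_inv, Real.norm_of_nonneg h2.le, mul_inv, inv_inv, smul_smul]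
  congr 1
  field_simp

theorem norm_u_sub_le {m m' : ℕ} {t : ℝ} (ht : 0 < t) (hm : t ≤ m) (hm' : t ≤ m') :
    ‖A.u m - A.u m'‖ ≤ 2 * (‖A.R m - A.R m'‖ / t + ‖A.c‖ * |(m : ℝ) - m'| / t ^ 2) := by
  have hm0 : (0 : ℝ) < m := lt_of_lt_of_le ht hm
  have hm0' : (0 : ℝ) < m' := lt_of_lt_of_le ht hm'
  have e1 : 1 ≤ ‖(m : ℝ)⁻¹ • A.Pv m‖ := by
    rw [norm_smul, norm_inv, Real.norm_of_nonneg hm0.le, ← div_eq_inv_mul, one_le_div hm0]
    exact A.le_norm_Pv m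
  have e2 : 1 ≤ ‖(m' : ℝ)⁻¹ • A.Pv m'‖ := by
    rw [norm_smul, norm_inv, Real.norm_of_nonneg hm0'.le, ← div_eq_inv_mul, one_le_div hm0']
    exact A.le_norm_Pv m'
  rw [A.u_eq (by exact_mod_cast hm0), A.u_eq (m := m') (by exact_mod_cast hm0')]
  refine (norm_normalize_sub e1 e2).trans (mul_le_mul_of_nonneg_left ?_ (by norm_num))
  have h1 : (m : ℝ)⁻¹ • A.Pv m - (m' : ℝ)⁻¹ • A.Pv m' =
      (m : ℝ)⁻¹ • (A.R m - A.R m') + ((m : ℝ)⁻¹ - (m' : ℝ)⁻¹) • A.R m' := by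
    rw [Pv_eq, Pv_eq, smul_add, smul_add, smul_smul, smul_smul, inv_mul_cancel₀ hm0.ne',
      inv_mul_cancel₀ hm0'.ne']
    module
  rw [h1]
  refine (norm_add_le _ _).trans (add_le_add ?_ ?_)
  · rw [norm_smul, norm_inv, Real.norm_of_nonneg hm0.le, ← div_eq_inv_mul]
    exact div_le_div_of_nonneg_left (norm_nonneg _) ht hm
  · rw [norm_smul, norm_R, Real.norm_eq_abs]
    have h2 : (m : ℝ)⁻¹ - (m' : ℝ)⁻¹ = -(((m : ℝ) - m') / (m * m')) := by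
      field_simp
      ring
    rw [h2, abs_neg, abs_div, abs_of_pos (mul_pos hm0 hm0'), mul_comm, mul_div_assoc]
    refine mul_le_mul_of_nonneg_left ?_ (norm_nonneg _)
    refine div_le_div_of_nonneg_left (abs_nonneg _) (by positivity) ?_
    rw [sq]
    exact mul_le_mul hm hm' ht.le hm0.le

theorem le_norm_u_sub {m m' j : ℕ} {t T : ℝ} (ht : 0 < t) (hm : t ≤ m) (hm' : t ≤ m')
    (hT : ‖A.Pv m‖ ≤ T) (hj : j ≠ 0) :
    A.s j * ‖A.ω j ^ m - A.ω j ^ m'‖ / T - A.s j * (|(m : ℝ) - m'| + 2 * ‖A.c‖) / t ^ 2 ≤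
      ‖A.u m - A.u m'‖ := by
  have hm0 : (0 : ℝ) < m := lt_of_lt_of_le ht hm
  have hm0' : (0 : ℝ) < m' := lt_of_lt_of_le ht hm'
  have hρ := hm.trans (A.le_norm_Pv m)
  have hρ' := hm'.trans (A.le_norm_Pv m')
  have hρ0 : 0 < ‖A.Pv m‖ := by linarith
  have hρ0' : 0 < ‖A.Pv m'‖ := by linarith
  refine le_trans ?_ (hh_apply_le (A.u m - A.u m') j)
  have hPj : ∀ m : ℕ, A.Pv m j = A.ω j ^ m * A.s j := by
    intro m
    rw [Pv_eq, lp.coeFn_add, lp.coeFn_smul, Pi.add_apply, Pi.smul_apply, e0_ne hj, R_apply]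
    simp
  have h1 : (A.u m - A.u m') j = (‖A.Pv m‖⁻¹ : ℝ) • ((A.ω j ^ m - A.ω j ^ m') * A.s j) +
      (‖A.Pv m‖⁻¹ - ‖A.Pv m'‖⁻¹ : ℝ) • (A.ω j ^ m' * A.s j) := by
    rw [lp.coeFn_sub, Pi.sub_apply, u, u, lp.coeFn_smul, lp.coeFn_smul, Pi.smul_apply,
      Pi.smul_apply, hPj, hPj, sub_mul, smul_sub, sub_smul]
    abel
  have h2 : ‖(‖A.Pv m‖⁻¹ : ℝ) • ((A.ω j ^ m - A.ω j ^ m') * (A.s j : ℂ))‖ =
      A.s j * ‖A.ω j ^ m - A.ω j ^ m'‖ / ‖A.Pv m‖ := by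
    rw [norm_smul, norm_inv, norm_norm, norm_mul, Complex.norm_real,
      Real.norm_of_nonneg (A.s_nonneg j)]
    ring
  have h3 : ‖(‖A.Pv m‖⁻¹ - ‖A.Pv m'‖⁻¹ : ℝ) • (A.ω j ^ m' * (A.s j : ℂ))‖ ≤
      A.s j * (|(m : ℝ) - m'| + 2 * ‖A.c‖) / t ^ 2 := by
    rw [norm_smul, norm_mul, norm_pow, A.ω_norm, one_pow, one_mul, Complex.norm_real,
      Real.norm_of_nonneg (A.s_nonneg j), Real.norm_eq_abs]
    have h4 : ‖A.Pv m‖⁻¹ - ‖A.Pv m'‖⁻¹ = -((‖A.Pv m‖ - ‖A.Pv m'‖) / (‖A.Pv m‖ * ‖A.Pv m'‖)) := by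
      field_simp
      ring
    rw [h4, abs_neg, abs_div, abs_of_pos (mul_pos hρ0 hρ0'), mul_comm, mul_div_assoc]
    refine mul_le_mul_of_nonneg_left ?_ (A.s_nonneg j)
    have h5 : |‖A.Pv m‖ - ‖A.Pv m'‖| ≤ |(m : ℝ) - m'| + 2 * ‖A.c‖ := by
      refine (abs_norm_sub_norm_le _ _).trans ?_
      have h6 : A.Pv m - A.Pv m' = ((m : ℝ) - m') • e0 + (A.R m - A.R m') := by
        rw [Pv_eq, Pv_eq]
        module
      rw [h6]
      refine (norm_add_le _ _).trans ?_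
      rw [norm_smul, norm_e0, mul_one, Real.norm_eq_abs]
      have h7 := norm_sub_le (A.R m) (A.R m')
      rw [norm_R, norm_R] at h7
      linarith
    refine div_le_div₀ (by positivity) h5 (by positivity) ?_
    rw [sq]
    exact mul_le_mul hρ hρ' ht.le hρ0.le
  have h4 : A.s j * ‖A.ω j ^ m - A.ω j ^ m'‖ / T ≤
      A.s j * ‖A.ω j ^ m - A.ω j ^ m'‖ / ‖A.Pv m‖ :=
    div_le_div_of_nonneg_left (mul_nonneg (A.s_nonneg j) (norm_nonneg _)) hρ0 hT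
  rw [h1]
  have h5 := norm_sub_le_norm_add ((‖A.Pv m‖⁻¹ : ℝ) • ((A.ω j ^ m - A.ω j ^ m') * (A.s j : ℂ)))
    ((‖A.Pv m‖⁻¹ - ‖A.Pv m'‖⁻¹ : ℝ) • (A.ω j ^ m' * (A.s j : ℂ)))
  rw [h2] at h5
  linarith

/-! ### The rays -/

theorem segment_mem_Y {m : ℕ} {r : ℝ} (hr0 : 0 ≤ r) (hr : r ≤ ‖A.Pv m‖) :
    A.c + r • A.u m ∈ A.Y := by
  by_cases h0 : ‖A.Pv m‖ = 0
  · have : r = 0 := le_antisymm (by rw [← h0]; exact hr) hr0
    rw [this, zero_smul, add_zero]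
    exact A.c_mem
  · have hpos : 0 < ‖A.Pv m‖ := lt_of_le_of_ne (norm_nonneg _) (Ne.symm h0)
    have h1 : A.c + r • A.u m = (1 - r / ‖A.Pv m‖) • A.c + (r / ‖A.Pv m‖) • A.q m := by
      unfold u
      rw [smul_smul, Pv, ← div_eq_mul_inv]
      module
    rw [h1]
    refine A.convex_Y A.c_mem (A.piece.q_mem m) ?_ (by positivity) (by ring)
    have : r / ‖A.Pv m‖ ≤ 1 := (div_le_one hpos).2 hr
    linarith

theorem e0_mem_Y {r : ℝ} : r • e0 ∈ A.Y := by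
  refine ⟨?_, fun j hj => ?_⟩
  · rw [lp.coeFn_smul, Pi.smul_apply, e0_zero]
    simp
  · rw [lp.coeFn_smul, Pi.smul_apply, e0_ne hj, smul_zero, zero_add, Complex.norm_real,
      Real.norm_of_nonneg (A.s_nonneg j)]

/-- The base point. -/
noncomputable def x₀ : TX A.act.toPiece := P A.act [] trivial A.c A.c_mem

/-- The points of the ray. -/
noncomputable def rayPt (m : ℕ) (r : ℝ≥0) : TX A.act.toPiece :=
  if h : (r : ℝ) ≤ ‖A.Pv m‖ then P A.act [] trivial (A.c + (r : ℝ) • A.u m)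
    (A.segment_mem_Y r.2 h)
  else P A.act [(m : ℤ)] trivial (((r : ℝ) - ‖A.Pv m‖) • e0) A.e0_mem_Y

theorem dist_P_nil {y y' : HH} (hy : y ∈ A.Y) (hy' : y' ∈ A.Y) :
    dist (P A.act [] trivial y hy) (P A.act [] trivial y' hy') = ‖y - y'‖ := by
  rw [tx_dist]
  exact norm_pt_sub (D := A.act.toPiece) [] y y'

theorem dist_P_one (m : ℤ) {y y' : HH} (hy : y ∈ A.Y) (hy' : y' ∈ A.Y) :
    dist (P A.act [m] trivial y hy) (P A.act [m] trivial y' hy') = ‖y - y'‖ := by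
  rw [tx_dist]
  exact norm_pt_sub (D := A.act.toPiece) [m] y y'

theorem dist_P_nil_one (m : ℤ) {y y' : HH} (hy : y ∈ A.Y) (hy' : y' ∈ A.Y) :
    dist (P A.act [] trivial y hy) (P A.act [m] trivial y' hy') = ‖y - A.q m‖ + ‖y'‖ := by
  rw [dist_comm, tx_dist]
  change ‖pt A.act.toPiece [m] y' - pt A.act.toPiece [] y‖ = _
  rw [norm_sub_pt]
  have h1 : pt A.act.toPiece [m] y' [] = A.q m := by
    have : pt A.act.toPiece [m] y' [] = pt A.act.toPiece [m] 0 [] := pt_ne (by simp) y'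
    rw [this, pt_cons_zero, pt_self]
    rfl
  have h2 : off A.act.toPiece [] (pt A.act.toPiece [m] y') = ‖y'‖ := by
    unfold off
    have h3 : kill [] (pt A.act.toPiece [m] y') - pt A.act.toPiece [] 0 = sg [m] y' := by
      refine L1.ext' fun u => ?_
      rw [lp.coeFn_sub, Pi.sub_apply]
      by_cases hu : u = []
      · subst hu
        rw [kill_self, pt_self, sg_ne (by simp), sub_zero]
      · rw [kill_ne hu]
        have h4 : pt A.act.toPiece [] 0 u = 0 := pt_apply_of_length (by simp) hu _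
        rw [h4, sub_zero]
        unfold pt
        rw [lp.coeFn_add, Pi.add_apply]
        have h5 : pt A.act.toPiece [] (A.act.toPiece.q m) u = 0 :=
          pt_apply_of_length (by simp) hu _
        rw [h5, zero_add]
    rw [h3, norm_sg]
  rw [h1, h2, norm_sub_rev]

theorem rayPt_dist_le {m : ℕ} (hm : 0 < m) {r r' : ℝ≥0} (h : r ≤ r') :
    dist (A.rayPt m r) (A.rayPt m r') = (r' : ℝ) - r := by
  have hrr : (r : ℝ) ≤ r' := by exact_mod_cast h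
  have hu := A.norm_u hm
  unfold rayPt
  by_cases h1 : (r' : ℝ) ≤ ‖A.Pv m‖
  · rw [dif_pos (hrr.trans h1), dif_pos h1, dist_P_nil]
    have h2 : A.c + (r : ℝ) • A.u m - (A.c + (r' : ℝ) • A.u m) = -(((r' : ℝ) - r) • A.u m) := by
      module
    rw [h2, norm_neg, norm_smul, hu, mul_one, Real.norm_of_nonneg (by linarith)]
  · rw [dif_neg h1]
    rw [not_le] at h1
    by_cases h2 : (r : ℝ) ≤ ‖A.Pv m‖
    · rw [dif_pos h2, dist_P_nil_one, norm_smul, norm_e0, mul_one,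
        Real.norm_of_nonneg (by linarith)]
      have hpos : 0 < ‖A.Pv m‖ := by
        have h3 := A.le_norm_Pv m
        have h4 : (0 : ℝ) < m := by exact_mod_cast hm
        linarith
      have h3 : A.c + (r : ℝ) • A.u m - A.q m = -((‖A.Pv m‖ - r) • A.u m) := by
        have h4 : A.q m = A.c + ‖A.Pv m‖ • A.u m := by
          unfold u
          rw [smul_smul, mul_inv_cancel₀ hpos.ne', one_smul, Pv]
          abel
        rw [h4]
        module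
      rw [h3, norm_neg, norm_smul, hu, mul_one, Real.norm_of_nonneg (by linarith)]
      ring
    · rw [dif_neg h2, dist_P_one]
      have h3 : ((r : ℝ) - ‖A.Pv m‖) • e0 - ((r' : ℝ) - ‖A.Pv m‖) • e0 =
          -(((r' : ℝ) - r) • e0) := by module
      rw [h3, norm_neg, norm_smul, norm_e0, mul_one, Real.norm_of_nonneg (by linarith)]

/-- The ray through the marked point `m`. -/
noncomputable def ζ (m : ℕ) (hm : 0 < m) : Boundary (TX A.act.toPiece) A.x₀ where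
  ray := A.rayPt m
  isometry := by
    refine Isometry.of_dist_eq fun r r' => ?_
    rw [NNReal.dist_eq]
    rcases le_total r r' with h | h
    · have h' : (r : ℝ) ≤ r' := by exact_mod_cast h
      rw [A.rayPt_dist_le hm h, abs_sub_comm, abs_of_nonneg (by linarith)]
    · have h' : (r' : ℝ) ≤ r := by exact_mod_cast h
      rw [dist_comm, A.rayPt_dist_le hm h, abs_of_nonneg (by linarith)]
  base := by
    unfold rayPt
    rw [dif_pos (by simp)]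
    refine P_congr A.act rfl _ _ ?_ _ _
    simp

theorem rayPt_dist {m m' : ℕ} {r : ℝ≥0} (h : (r : ℝ) ≤ ‖A.Pv m‖) (h' : (r : ℝ) ≤ ‖A.Pv m'‖) :
    dist (A.rayPt m r) (A.rayPt m' r) = r * ‖A.u m - A.u m'‖ := by
  unfold rayPt
  rw [dif_pos h, dif_pos h', dist_P_nil]
  have h2 : A.c + (r : ℝ) • A.u m - (A.c + (r : ℝ) • A.u m') = (r : ℝ) • (A.u m - A.u m') := by
    module
  rw [h2, norm_smul, Real.norm_of_nonneg (NNReal.coe_nonneg r)]

theorem dist_ζ_le {m m' : ℕ} (hm : 0 < m) (hm' : 0 < m') {t : ℝ} (ht : t ≤ m) (ht' : t ≤ m') :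
    dist (A.ζ m hm) (A.ζ m' hm') ≤ ‖A.u m - A.u m'‖ + 8 * Real.exp (-(t / 2)) := by
  refine Boundary.dist_le_of _ _ (norm_nonneg _) fun r hr => ?_
  exact (A.rayPt_dist (hr.trans (ht.trans (A.le_norm_Pv m)))
    (hr.trans (ht'.trans (A.le_norm_Pv m')))).le

theorem le_dist_ζ {m m' : ℕ} (hm : 0 < m) (hm' : 0 < m') :
    ‖A.u m - A.u m'‖ / 6 ≤ dist (A.ζ m hm) (A.ζ m' hm') := by
  refine Boundary.le_dist_of _ _ (norm_nonneg _) fun r hr => ?_
  have h1 : (1 : ℝ) ≤ m := by exact_mod_cast hm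
  have h1' : (1 : ℝ) ≤ m' := by exact_mod_cast hm'
  exact (A.rayPt_dist (hr.trans (h1.trans (A.le_norm_Pv m)))
    (hr.trans (h1'.trans (A.le_norm_Pv m')))).ge

end RotPar

end Pool.Agent.helper65.Cat
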