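import Pool.Agent.helper65.Cat.TreeGeom

/-!
# The piece `ℝ × K` with infinitely many rotations
-/

open Filter Topology Set Metric
open scoped ENNReal NNReal InnerProductSpace

set_option linter.unusedSectionVars false

namespace Pool.Agent.helper65.Cat

/-- The Hilbert space; the coordinate `0` is the direction of translation. -/
abbrev HH : Type := lp (fun _ : ℕ => ℂ) 2

theorem hh_summable (f : HH) : Summable fun j => ‖f j‖ ^ 2 := by
  have h := (lp.memℓp f).summable (by norm_num)
  simpa using h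

theorem hh_norm_sq (f : HH) : ‖f‖ ^ 2 = ∑' j, ‖f j‖ ^ 2 := by
  have h := lp.norm_rpow_eq_tsum (p := 2) (by norm_num) f
  simpa using h

theorem hh_memlp {f : ℕ → ℂ} (h : Summable fun j => ‖f j‖ ^ 2) : Memℓp f 2 :=
  memℓp_gen (by simpa using h)

theorem hh_norm_le {f : HH} {B : ℕ → ℝ} (hB : Summable fun j => B j ^ 2)
    (h : ∀ j, ‖f j‖ ≤ B j) : ‖f‖ ^ 2 ≤ ∑' j, B j ^ 2 := by
  rw [hh_norm_sq]
  exact (hh_summable f).tsum_le_tsum (fun j => pow_le_pow_left₀ (norm_nonneg _) (h j) 2) hB

theorem hh_apply_le (f : HH) (j : ℕ) : ‖f j‖ ≤ ‖f‖ := lp.norm_apply_le_norm (by norm_num) f j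

theorem hh_continuous_apply (j : ℕ) : Continuous fun f : HH => f j := by
  refine continuous_iff_continuousAt.2 fun F => ?_
  rw [ContinuousAt, tendsto_iff_norm_sub_tendsto_zero]
  have h1 : Tendsto (fun G : HH => ‖G - F‖) (𝓝 F) (𝓝 0) := by
    have : Continuous fun G : HH => ‖G - F‖ := by fun_prop
    simpa using this.tendsto F
  refine squeeze_zero (fun G => norm_nonneg _) (fun G => ?_) h1
  have := hh_apply_le (G - F) j
  rwa [lp.coeFn_sub, Pi.sub_apply] at this

/-- Boxes are compact. -/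
theorem box_compact {B : ℕ → ℝ} (hB : Summable fun j => B j ^ 2) :
    IsCompact {f : HH | ∀ j, ‖f j‖ ≤ B j} := by
  let K : Set (ℕ → ℂ) := Set.pi univ fun j => closedBall 0 (B j)
  have hK : IsCompact K := isCompact_univ_pi fun j => isCompact_closedBall _ _
  have hKb : ∀ g ∈ K, ∀ j, ‖g j‖ ≤ B j := fun g hg j => by
    have := hg j (mem_univ j)
    rwa [mem_closedBall_zero_iff] at this
  have hmem : ∀ g ∈ K, Memℓp g 2 := fun g hg => hh_memlp (hB.of_nonneg_of_le
    (fun j => sq_nonneg _) fun j => pow_le_pow_left₀ (norm_nonneg _) (hKb g hg j) 2)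
  let F : K → HH := fun g => ⟨g.1, hmem g.1 g.2⟩
  have hF : Continuous F := by
    refine continuous_iff_continuousAt.2 fun g => ?_
    rw [ContinuousAt, tendsto_iff_norm_sub_tendsto_zero]
    have h1 : Tendsto (fun h : K => ∑' j, ‖h.1 j - g.1 j‖ ^ 2) (𝓝 g) (𝓝 (∑' _ : ℕ, 0)) := by
      refine tendsto_tsum_of_dominated_convergence (bound := fun j => 4 * B j ^ 2)
        (hB.mul_left 4) (fun j => ?_) (Eventually.of_forall fun h j => ?_)
      · have : Continuous fun h : K => ‖h.1 j - g.1 j‖ ^ 2 :=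
          ((((_root_.continuous_apply j).comp continuous_subtype_val).sub
            continuous_const).norm).pow 2
        simpa using this.tendsto g
      · rw [Real.norm_of_nonneg (sq_nonneg _)]
        have h2 := hKb h.1 h.2 j
        have h3 := hKb g.1 g.2 j
        have h4 : ‖h.1 j - g.1 j‖ ≤ 2 * B j := (norm_sub_le _ _).trans (by linarith)
        calc ‖h.1 j - g.1 j‖ ^ 2 ≤ (2 * B j) ^ 2 := pow_le_pow_left₀ (norm_nonneg _) h4 2
          _ = _ := by ring
    rw [tsum_zero] at h1
    have h2 : ∀ h : K, ‖F h - F g‖ = Real.sqrt (∑' j, ‖h.1 j - g.1 j‖ ^ 2) := by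
      intro h
      have h3 := hh_norm_sq (F h - F g)
      have h4 : ∑' j, ‖(F h - F g) j‖ ^ 2 = ∑' j, ‖h.1 j - g.1 j‖ ^ 2 := rfl
      rw [← h4, ← h3, Real.sqrt_sq (norm_nonneg _)]
    simp_rw [h2]
    have h5 := (Real.continuous_sqrt.tendsto 0).comp h1
    rw [Real.sqrt_zero] at h5
    exact h5
  have hrange : {f : HH | ∀ j, ‖f j‖ ≤ B j} = Set.range F := by
    ext f
    constructor
    · intro hf
      refine ⟨⟨f, fun j _ => ?_⟩, Subtype.ext rfl⟩
      rw [mem_closedBall_zero_iff]
      exact hf j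
    · rintro ⟨g, rfl⟩ j
      exact hKb g.1 g.2 j
  rw [hrange]
  have : CompactSpace K := isCompact_iff_compactSpace.1 hK
  exact isCompact_range hF

/-- The parameters: angles `ω` and radii `s`. -/
structure RotPar where
  ω : ℕ → ℂ
  s : ℕ → ℝ
  ω_norm : ∀ j, ‖ω j‖ = 1
  ω_zero : ω 0 = 1
  s_nonneg : ∀ j, 0 ≤ s j
  s_zero : s 0 = 0
  s_summable : Summable fun j => s j ^ 2

namespace RotPar

variable (A : RotPar)

theorem ω_ne (j : ℕ) : A.ω j ≠ 0 := by
  intro h
  have := A.ω_norm j
  rw [h, norm_zero] at this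
  exact zero_ne_one this

theorem zpow_norm (k : ℤ) (j : ℕ) : ‖A.ω j ^ k‖ = 1 := by rw [norm_zpow, A.ω_norm, one_zpow]

/-- The rotation. -/
noncomputable def rot (k : ℤ) (f : HH) : HH :=
  ⟨fun j => A.ω j ^ k * f j, by
    have h : Memℓp (fun j => A.ω j ^ k * f j) 2 := hh_memlp (by
      simp_rw [norm_mul, A.zpow_norm, one_mul]
      exact hh_summable f)
    exact h⟩

theorem rot_apply (k : ℤ) (f : HH) (j : ℕ) : A.rot k f j = A.ω j ^ k * f j := rfl

/-- The marked points. -/
noncomputable def q (k : ℤ) : HH :=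
  ⟨fun j => if j = 0 then (k : ℂ) else (A.ω j ^ k - 1) * A.s j, by
    have h : Memℓp (fun j => if j = 0 then (k : ℂ) else (A.ω j ^ k - 1) * A.s j) 2 := by
      refine hh_memlp ?_
      have h1 : Summable fun j => 4 * A.s j ^ 2 := A.s_summable.mul_left 4
      refine (h1.of_nonneg_of_le (g := fun j => if j = 0 then (0 : ℝ) else
        ‖(A.ω j ^ k - 1) * A.s j‖ ^ 2) ?_ ?_).congr_cofinite ?_
      · intro j
        split_ifs
        · exact le_rfl
        · positivity
      · intro j
        split_ifs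
        · have := sq_nonneg (A.s j); positivity
        · rw [norm_mul, mul_pow]
          have h2 : ‖A.ω j ^ k - 1‖ ≤ 2 := by
            refine (norm_sub_le _ _).trans ?_
            rw [A.zpow_norm, norm_one]
            norm_num
          have h3 : ‖(A.s j : ℂ)‖ = A.s j := by
            rw [Complex.norm_real, Real.norm_of_nonneg (A.s_nonneg j)]
          rw [h3]
          have h4 : ‖A.ω j ^ k - 1‖ ^ 2 ≤ 4 := by
            have := pow_le_pow_left₀ (norm_nonneg _) h2 2
            linarith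
          exact mul_le_mul_of_nonneg_right h4 (sq_nonneg _)
      · have h5 : {j : ℕ | j ≠ 0} ∈ cofinite := (Set.finite_singleton 0).compl_mem_cofinite
        filter_upwards [h5] with j hj
        have hj' : j ≠ 0 := hj
        simp [hj']
    exact h⟩

theorem q_apply_zero (k : ℤ) : A.q k 0 = (k : ℂ) :=
  show (if (0 : ℕ) = 0 then (k : ℂ) else (A.ω 0 ^ k - 1) * A.s 0) = (k : ℂ) from if_pos rfl

theorem q_apply (k : ℤ) {j : ℕ} (hj : j ≠ 0) : A.q k j = (A.ω j ^ k - 1) * A.s j := if_neg hj

/-- The unit vector in the direction of translation. -/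
noncomputable def e0 : HH := lp.single (E := fun _ : ℕ => ℂ) 2 0 1

theorem e0_zero : e0 0 = 1 := by
  unfold e0
  rw [lp.single_apply_self]

theorem e0_ne {j : ℕ} (hj : j ≠ 0) : e0 j = 0 := by
  unfold e0
  rw [lp.single_apply_ne _ _ _ hj]

/-- The isometries of the piece. -/
noncomputable def T (k : ℤ) (f : HH) : HH := A.rot k f + A.q k

theorem T_apply (k : ℤ) (f : HH) (j : ℕ) : A.T k f j = A.ω j ^ k * f j + A.q k j := rfl

theorem T_T (k l : ℤ) (f : HH) : A.T k (A.T l f) = A.T (k + l) f := by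
  refine lp.ext (funext fun j => ?_)
  rw [T_apply, T_apply, T_apply]
  by_cases hj : j = 0
  · subst hj
    rw [A.ω_zero, q_apply_zero, q_apply_zero, q_apply_zero]
    push_cast
    simp
    ring
  · rw [q_apply _ _ hj, q_apply _ _ hj, q_apply _ _ hj, zpow_add₀ (A.ω_ne j)]
    ring

theorem q_zero : A.q 0 = 0 := by
  refine lp.ext (funext fun j => ?_)
  by_cases hj : j = 0
  · subst hj
    rw [q_apply_zero]
    simp
  · rw [q_apply _ _ hj]
    simp

theorem T_zero (f : HH) : A.T 0 f = f := by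
  refine lp.ext (funext fun j => ?_)
  rw [T_apply, q_zero, zpow_zero, one_mul]
  simp

theorem T_q (k m : ℤ) : A.T k (A.q m) = A.q (k + m) := by
  have h1 : A.q m = A.T m 0 := by
    refine lp.ext (funext fun j => ?_)
    rw [T_apply]
    simp
  have h2 : A.q (k + m) = A.T (k + m) 0 := by
    refine lp.ext (funext fun j => ?_)
    rw [T_apply]
    simp
  rw [h1, T_T, h2]

theorem T_dist (k : ℤ) (f g : HH) : dist (A.T k f) (A.T k g) = dist f g := by
  rw [dist_eq_norm, dist_eq_norm]
  have h1 : ∀ f : HH, ‖A.rot k f‖ = ‖f‖ := by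
    intro f
    have h2 : ‖A.rot k f‖ ^ 2 = ‖f‖ ^ 2 := by
      rw [hh_norm_sq, hh_norm_sq]
      refine tsum_congr fun j => ?_
      rw [rot_apply, norm_mul, A.zpow_norm, one_mul]
    exact (pow_left_inj₀ (norm_nonneg _) (norm_nonneg _) (by norm_num)).1 h2
  have h3 : A.T k f - A.T k g = A.rot k (f - g) := by
    refine lp.ext (funext fun j => ?_)
    rw [lp.coeFn_sub, Pi.sub_apply, T_apply, T_apply, rot_apply, lp.coeFn_sub, Pi.sub_apply]
    ring
  rw [h3, h1]

/-- The convex set `ℝ × K`. -/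
def Y : Set HH := {f | (f 0).im = 0 ∧ ∀ j, j ≠ 0 → ‖f j + A.s j‖ ≤ A.s j}

theorem T_mem {f : HH} (hf : f ∈ A.Y) (k : ℤ) : A.T k f ∈ A.Y := by
  refine ⟨?_, fun j hj => ?_⟩
  · rw [T_apply, A.ω_zero, q_apply_zero, one_zpow, one_mul, Complex.add_im, hf.1]
    simp
  · rw [T_apply, q_apply _ _ hj]
    have : A.ω j ^ k * f j + (A.ω j ^ k - 1) * A.s j + A.s j = A.ω j ^ k * (f j + A.s j) := by ring
    rw [this, norm_mul, A.zpow_norm, one_mul]
    exact hf.2 j hj

theorem zero_mem_Y : (0 : HH) ∈ A.Y := by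
  refine ⟨by simp, fun j _ => ?_⟩
  rw [lp.coeFn_zero, Pi.zero_apply, zero_add, Complex.norm_real,
    Real.norm_of_nonneg (A.s_nonneg j)]

theorem isClosed_Y : IsClosed A.Y := by
  have h1 : A.Y = {f : HH | (f 0).im = 0} ∩ ⋂ j, {f : HH | j ≠ 0 → ‖f j + A.s j‖ ≤ A.s j} := by
    ext f
    simp only [Y, mem_inter_iff, mem_iInter]
    rfl
  rw [h1]
  refine (isClosed_eq (Complex.continuous_im.comp (hh_continuous_apply 0)) continuous_const).inter
    (isClosed_iInter fun j => ?_)
  by_cases hj : j = 0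
  · have : {f : HH | j ≠ 0 → ‖f j + A.s j‖ ≤ A.s j} = univ := by
      ext f
      simp [hj]
    rw [this]
    exact isClosed_univ
  · have : {f : HH | j ≠ 0 → ‖f j + A.s j‖ ≤ A.s j} = {f : HH | ‖f j + A.s j‖ ≤ A.s j} := by
      ext f
      simp [hj]
    rw [this]
    exact isClosed_le ((hh_continuous_apply j).add continuous_const).norm continuous_const

theorem convex_Y : Convex ℝ A.Y := by
  intro f hf g hg a b ha hb hab
  refine ⟨?_, fun j hj => ?_⟩
  · rw [lp.coeFn_add, Pi.add_apply, lp.coeFn_smul, lp.coeFn_smul, Pi.smul_apply, Pi.smul_apply,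
      Complex.add_im, Complex.smul_im, Complex.smul_im, hf.1, hg.1]
    simp
  · rw [lp.coeFn_add, Pi.add_apply, lp.coeFn_smul, lp.coeFn_smul, Pi.smul_apply, Pi.smul_apply]
    have h1 : a • f j + b • g j + (A.s j : ℂ) = a • (f j + A.s j) + b • (g j + A.s j) := by
      have h2 : (A.s j : ℂ) = a • (A.s j : ℂ) + b • (A.s j : ℂ) := by
        rw [← add_smul, hab, one_smul]
      conv_lhs => rw [h2]
      rw [smul_add, smul_add]
      abel
    rw [h1]
    refine (norm_add_le _ _).trans ?_
    rw [norm_smul, norm_smul, Real.norm_of_nonneg ha, Real.norm_of_nonneg hb]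
    have h3 := mul_le_mul_of_nonneg_left (hf.2 j hj) ha
    have h4 := mul_le_mul_of_nonneg_left (hg.2 j hj) hb
    calc _ ≤ a * A.s j + b * A.s j := add_le_add h3 h4
      _ = A.s j := by rw [← add_mul, hab, one_mul]

/-- Bounds for the elements of `Y`. -/
theorem norm_apply_le {f : HH} (hf : f ∈ A.Y) {j : ℕ} (hj : j ≠ 0) : ‖f j‖ ≤ 2 * A.s j := by
  have h1 := hf.2 j hj
  have h2 : f j = (f j + A.s j) - A.s j := by ring
  rw [h2]
  refine (norm_sub_le _ _).trans ?_
  rw [Complex.norm_real, Real.norm_of_nonneg (A.s_nonneg j)]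
  linarith

theorem summable_bound (R : ℝ) : Summable fun j => (if j = 0 then R else 2 * A.s j) ^ 2 := by
  have h1 : Summable fun j => 4 * A.s j ^ 2 := A.s_summable.mul_left 4
  refine h1.congr_cofinite ?_
  have h5 : {j : ℕ | j ≠ 0} ∈ cofinite := (Set.finite_singleton 0).compl_mem_cofinite
  filter_upwards [h5] with j hj
  have hj' : j ≠ 0 := hj
  rw [if_neg hj']
  ring

/-- The piece. -/
noncomputable def piece : Piece HH where
  Y := A.Y
  isClosed := A.isClosed_Y
  convex := A.convex_Y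
  q := A.q
  q_zero := A.q_zero
  q_mem := fun m => by
    have h1 := A.T_mem A.zero_mem_Y m
    have h2 : A.T m 0 = A.q m := by
      have := A.T_q m 0
      rwa [A.q_zero, add_zero] at this
    rwa [h2] at h1
  le_norm := fun m n => by
    have h1 := hh_apply_le (A.q m - A.q n) 0
    rw [lp.coeFn_sub, Pi.sub_apply, q_apply_zero, q_apply_zero] at h1
    have h2 : ((m : ℂ) - (n : ℂ)) = (((m : ℝ) - n : ℝ) : ℂ) := by push_cast; rfl
    rwa [h2, Complex.norm_real, Real.norm_eq_abs] at h1

/-- The isometry of the piece. -/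
noncomputable def hT : HH ≃ᵢ HH where
  toFun := A.T 1
  invFun := A.T (-1)
  left_inv := fun f => by rw [T_T, neg_add_cancel, T_zero]
  right_inv := fun f => by rw [T_T, add_neg_cancel, T_zero]
  isometry_toFun := Isometry.of_dist_eq (A.T_dist 1)

theorem hT_zpow (k : ℤ) (f : HH) : (A.hT ^ k) f = A.T k f := by
  induction k with
  | zero => rw [T_zero]; rfl
  | succ k ih =>
    rw [add_comm, zpow_one_add, IsometryEquiv.mul_apply, ih]
    change A.T 1 _ = _
    rw [T_T]
  | pred k ih =>
    rw [sub_eq_add_neg, add_comm, zpow_add, zpow_neg_one, IsometryEquiv.mul_apply, ih]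
    change A.T (-1) _ = _
    rw [T_T]

/-- The piece with its isometries. -/
noncomputable def act : PieceAct HH where
  toPiece := A.piece
  hh := A.hT
  hh_mem := fun y hy => A.T_mem hy 1
  hh_symm_mem := fun y hy => A.T_mem hy (-1)
  hh_q := fun m => by
    change A.T 1 (A.q m) = A.q (m + 1)
    rw [T_q, add_comm]
  compact := fun R => by
    refine (box_compact (A.summable_bound R)).of_isClosed_subset
      (A.isClosed_Y.inter isClosed_closedBall) ?_
    rintro f ⟨hf, hfR⟩ j
    rw [mem_closedBall_zero_iff] at hfR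
    by_cases hj : j = 0
    · rw [if_pos hj]
      exact (hh_apply_le f j).trans hfR
    · rw [if_neg hj]
      exact A.norm_apply_le hf hj
  rad := Real.sqrt (∑' j, (if j = 0 then (1 : ℝ) else 2 * A.s j) ^ 2)
  cocompact := fun y hy => by
    refine ⟨-⌊(y 0).re⌋, ?_⟩
    rw [hT_zpow]
    refine Real.le_sqrt_of_sq_le (hh_norm_le (A.summable_bound 1) fun j => ?_)
    by_cases hj : j = 0
    · rw [if_pos hj, hj, T_apply, A.ω_zero, one_zpow, one_mul, q_apply_zero]
      have h1 : y 0 + ((-⌊(y 0).re⌋ : ℤ) : ℂ) = ((Int.fract (y 0).re : ℝ) : ℂ) := by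
        apply Complex.ext
        · simp [Int.fract, sub_eq_add_neg]
        · simp [hy.1]
      rw [h1, Complex.norm_real, Real.norm_of_nonneg (Int.fract_nonneg _)]
      exact (Int.fract_lt_one _).le
    · rw [if_neg hj]
      exact A.norm_apply_le (A.T_mem hy _) hj
  pole := e0
  pole_mem := by
    refine ⟨by rw [e0_zero]; simp, fun j hj => ?_⟩
    rw [e0_ne hj, zero_add, Complex.norm_real, Real.norm_of_nonneg (A.s_nonneg j)]
  pole_ne := by
    intro h
    have h1 := congrArg (fun f : HH => f 0) h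
    simp only [e0_zero, lp.coeFn_zero, Pi.zero_apply] at h1
    exact one_ne_zero h1

end RotPar

end Pool.Agent.helper65.Cat
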