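import Mathlib

/-!
# The tree of pieces inside an `ℓ¹` sum
-/

open Filter Topology Set Metric
open scoped ENNReal NNReal

set_option linter.unusedSectionVars false

namespace Pool.Agent.helper65.Cat

/-- The piece of the tree: a closed convex set in a Hilbert space with marked points `q m`. -/
structure Piece (H : Type) [NormedAddCommGroup H] [InnerProductSpace ℝ H] where
  Y : Set H
  isClosed : IsClosed Y
  convex : Convex ℝ Y
  q : ℤ → H
  q_zero : q 0 = 0
  q_mem : ∀ m, q m ∈ Y
  le_norm : ∀ m n : ℤ, |(m : ℝ) - n| ≤ ‖q m - q n‖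

variable {H : Type} [NormedAddCommGroup H] [InnerProductSpace ℝ H]

/-- The `ℓ¹` sum of copies of `H` indexed by finite words. -/
abbrev L1 (H : Type) [NormedAddCommGroup H] : Type := lp (fun _ : List ℤ => H) 1

/-! ### The `ℓ¹` norm -/

theorem summable_norm (F : L1 H) : Summable fun u => ‖F u‖ := by
  have h := (lp.memℓp F).summable (by norm_num)
  simpa using h

theorem norm_eq (F : L1 H) : ‖F‖ = ∑' u, ‖F u‖ := by
  rw [lp.norm_eq_tsum_rpow (by norm_num)]
  simp

theorem norm_eq_add_of_disj {F G K : L1 H} (h : ∀ u, ‖K u‖ = ‖F u‖ + ‖G u‖) :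
    ‖K‖ = ‖F‖ + ‖G‖ := by
  rw [norm_eq, norm_eq, norm_eq, ← (summable_norm F).tsum_add (summable_norm G)]
  exact tsum_congr h

theorem norm_sub_of_disj {F G : L1 H} (h : ∀ u, F u = 0 ∨ G u = 0) : ‖F - G‖ = ‖F‖ + ‖G‖ := by
  refine norm_eq_add_of_disj fun u => ?_
  rw [lp.coeFn_sub, Pi.sub_apply]
  rcases h u with h | h <;> rw [h] <;> simp

theorem norm_add_of_disj {F G : L1 H} (h : ∀ u, F u = 0 ∨ G u = 0) : ‖F + G‖ = ‖F‖ + ‖G‖ := by
  refine norm_eq_add_of_disj fun u => ?_
  rw [lp.coeFn_add, Pi.add_apply]
  rcases h u with h | h <;> rw [h] <;> simp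

/-- The element with a single coordinate. -/
noncomputable def sg (v : List ℤ) (y : H) : L1 H := lp.single 1 v y

theorem sg_self (v : List ℤ) (y : H) : sg v y v = y := by
  unfold sg
  rw [lp.single_apply_self]

theorem sg_ne {v u : List ℤ} (h : u ≠ v) (y : H) : sg v y u = 0 := by
  unfold sg
  rw [lp.single_apply_ne _ _ _ h]

theorem norm_sg (v : List ℤ) (y : H) : ‖sg v y‖ = ‖y‖ := by
  unfold sg
  exact lp.norm_single (E := fun _ : List ℤ => H) (p := 1) (by norm_num) v y

theorem sg_sub (v : List ℤ) (y y' : H) : sg v (y - y') = sg v y - sg v y' := by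
  refine lp.ext (funext fun u => ?_)
  rw [lp.coeFn_sub, Pi.sub_apply]
  by_cases h : u = v
  · rw [h, sg_self, sg_self, sg_self]
  · rw [sg_ne h, sg_ne h, sg_ne h, sub_zero]

theorem sg_zero (v : List ℤ) : sg v (0 : H) = 0 := by
  have := sg_sub v (0 : H) 0
  rwa [sub_self, sub_self] at this

/-- Removing the coordinate `v`. -/
noncomputable def kill (v : List ℤ) (F : L1 H) : L1 H := F - sg v (F v)

theorem kill_self (v : List ℤ) (F : L1 H) : kill v F v = 0 := by
  unfold kill
  rw [lp.coeFn_sub, Pi.sub_apply, sg_self, sub_self]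

theorem kill_ne {v u : List ℤ} (h : u ≠ v) (F : L1 H) : kill v F u = F u := by
  unfold kill
  rw [lp.coeFn_sub, Pi.sub_apply, sg_ne h, sub_zero]

theorem norm_eq_kill (v : List ℤ) (F : L1 H) : ‖F‖ = ‖F v‖ + ‖kill v F‖ := by
  have h1 : F = sg v (F v) + kill v F := by
    unfold kill
    abel
  have h2 : ∀ u, sg v (F v) u = 0 ∨ kill v F u = 0 := by
    intro u
    by_cases h : u = v
    · right; rw [h, kill_self]
    · left; rw [sg_ne h]
  conv_lhs => rw [h1]
  rw [norm_add_of_disj h2, norm_sg]

theorem kill_sub (v : List ℤ) (F G : L1 H) : kill v (F - G) = kill v F - kill v G := by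
  unfold kill
  rw [lp.coeFn_sub, Pi.sub_apply, sg_sub]
  abel

/-! ### Points of the tree -/

variable (D : Piece H)

theorem Piece.q_inj {D : Piece H} {m n : ℤ} (h : D.q m = D.q n) : m = n := by
  have h1 := D.le_norm m n
  rw [h, sub_self, norm_zero] at h1
  have h2 : (m : ℝ) - n = 0 := abs_nonpos_iff.1 h1
  exact_mod_cast sub_eq_zero.1 h2

theorem Piece.zero_mem (D : Piece H) : (0 : H) ∈ D.Y := D.q_zero ▸ D.q_mem 0

theorem Piece.q_ne_zero {D : Piece H} {m : ℤ} (h : m ≠ 0) : D.q m ≠ 0 := by
  intro h1
  rw [← D.q_zero] at h1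
  exact h (Piece.q_inj h1)

theorem Piece.abs_le_norm (D : Piece H) (m : ℤ) : |(m : ℝ)| ≤ ‖D.q m‖ := by
  have := D.le_norm m 0
  rw [D.q_zero, sub_zero] at this
  simpa using this

/-- The point with coordinate `y` in the copy `v`. -/
noncomputable def pt : List ℤ → H → L1 H
  | [], y => sg [] y
  | m :: v, y => pt v (D.q m) + sg (m :: v) y

/-- The tree of pieces. -/
def Tree : Set (L1 H) :=
  {F | (∀ u, F u ∈ D.Y) ∧ (∀ (m : ℤ) (u : List ℤ), F (m :: u) = 0 ∨ F u = D.q m) ∧
    ∀ u : List ℤ, u ≠ [] → F (0 :: u) = 0}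

/-- Admissible words: only the last letter may be zero. -/
def Adm : List ℤ → Prop
  | [] => True
  | [_] => True
  | m :: k :: u => m ≠ 0 ∧ Adm (k :: u)

theorem Adm.tail {m : ℤ} {v : List ℤ} (h : Adm (m :: v)) : Adm v := by
  cases v with
  | nil => trivial
  | cons k u => exact h.2

theorem Adm.ne_zero {m : ℤ} {v : List ℤ} (h : Adm (m :: v)) (hv : v ≠ []) : m ≠ 0 := by
  cases v with
  | nil => exact absurd rfl hv
  | cons k u => exact h.1

theorem Adm.cons {m : ℤ} {v : List ℤ} (h : Adm v) (hm : v ≠ [] → m ≠ 0) : Adm (m :: v) := by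
  cases v with
  | nil => trivial
  | cons k u => exact ⟨hm (by simp), h⟩

variable {D}

/-- A coordinate of `pt v y` at a longer word, or at a different word of the same length. -/
theorem pt_apply_of_length {v u : List ℤ} (h : v.length ≤ u.length) (hne : u ≠ v) (y : H) :
    pt D v y u = 0 := by
  induction v generalizing y with
  | nil =>
    unfold pt
    exact sg_ne hne y
  | cons m v ih =>
    unfold pt
    rw [lp.coeFn_add, Pi.add_apply, sg_ne hne, add_zero]
    simp only [List.length_cons] at h
    refine ih (by omega) ?_ _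
    rintro rfl
    omega

theorem pt_self (v : List ℤ) (y : H) : pt D v y v = y := by
  cases v with
  | nil => exact sg_self _ _
  | cons m v =>
    unfold pt
    rw [lp.coeFn_add, Pi.add_apply, sg_self, pt_apply_of_length (by simp) (by simp), zero_add]

theorem pt_eq_add (v : List ℤ) (y : H) : pt D v y = pt D v 0 + sg v y := by
  cases v with
  | nil =>
    unfold pt
    rw [sg_zero, zero_add]
  | cons m v =>
    unfold pt
    rw [sg_zero, add_zero]

theorem pt_cons_zero (m : ℤ) (v : List ℤ) : pt D (m :: v) 0 = pt D v (D.q m) := by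
  conv_lhs => unfold pt
  rw [sg_zero, add_zero]

theorem pt_ne {v u : List ℤ} (h : u ≠ v) (y : H) : pt D v y u = pt D v 0 u := by
  rw [pt_eq_add, lp.coeFn_add, Pi.add_apply, sg_ne h, add_zero]

theorem norm_pt_sub (v : List ℤ) (y y' : H) : ‖pt D v y - pt D v y'‖ = ‖y - y'‖ := by
  rw [pt_eq_add, pt_eq_add v y', add_sub_add_left_eq_sub, ← sg_sub, norm_sg]

theorem kill_pt (v : List ℤ) (y : H) : kill v (pt D v y) = pt D v 0 := by
  unfold kill
  rw [pt_self, pt_eq_add]
  abel

theorem mem_tree_apply {F : L1 H} (hF : F ∈ Tree D) (w : List ℤ) {k : ℤ} {v : List ℤ}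
    (h : F (w ++ k :: v) ≠ 0) : F v = D.q k := by
  induction w with
  | nil =>
    exact (hF.2.1 k v).resolve_left h
  | cons l w ih =>
    rw [List.cons_append] at h
    have h1 := (hF.2.1 l (w ++ k :: v)).resolve_left h
    have h2 : l ≠ 0 := by
      rintro rfl
      exact h (hF.2.2 _ (by simp))
    exact ih (by rw [h1]; exact Piece.q_ne_zero h2)

theorem adm_of_ne_zero {F : L1 H} (hF : F ∈ Tree D) {v : List ℤ} (h : F v ≠ 0) : Adm v := by
  induction v with
  | nil => trivial
  | cons m v ih =>
    have h1 := (hF.2.1 m v).resolve_left h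
    by_cases hv : v = []
    · subst hv
      trivial
    · have hm : m ≠ 0 := by
        rintro rfl
        exact h (hF.2.2 _ hv)
      exact Adm.cons (ih (by rw [h1]; exact Piece.q_ne_zero hm)) fun _ => hm

/-- The coordinates of a point of the tree which is beyond the base point of the copy `v`. -/
theorem apply_of_not_suffix {F : L1 H} (hF : F ∈ Tree D) {v : List ℤ} (h : F v ≠ 0)
    {u : List ℤ} (hu : ¬ v <:+ u) : F u = pt D v 0 u := by
  induction v generalizing u with
  | nil => exact absurd (List.nil_suffix) hu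
  | cons m v ih =>
    have h1 := (hF.2.1 m v).resolve_left h
    rw [pt_cons_zero]
    by_cases huv : u = v
    · rw [huv, pt_self, h1]
    · by_cases hs : v <:+ u
      · obtain ⟨w, hw⟩ := hs
        rcases List.eq_nil_or_concat w with hw0 | ⟨w', k, hw'⟩
        · subst hw0
          exact absurd hw.symm huv
        · have hu' : u = w' ++ k :: v := by
            rw [← hw, hw']
            simp
          have hlen : v.length ≤ u.length := by rw [hu']; simp; omega
          rw [pt_apply_of_length hlen huv]
          by_contra hne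
          rw [hu'] at hne
          have h2 := mem_tree_apply hF w' hne
          have h3 : k = m := Piece.q_inj (h2.symm.trans h1)
          subst h3
          exact hu ⟨w', hu'.symm⟩
      · have hv : v ≠ [] := by
          rintro rfl
          exact hs List.nil_suffix
        have hm : m ≠ 0 := by
          rintro rfl
          exact h (hF.2.2 _ hv)
        rw [ih (by rw [h1]; exact Piece.q_ne_zero hm) hs, pt_ne huv (D.q m)]

/-- The key property of the tree. -/
theorem key {F G : L1 H} (hF : F ∈ Tree D) (hG : G ∈ Tree D) {v : List ℤ} (h : F v ≠ G v)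
    {u : List ℤ} (hu : u ≠ v) : F u = pt D v 0 u ∨ G u = pt D v 0 u := by
  by_cases hs : v <:+ u
  · obtain ⟨w, hw⟩ := hs
    rcases List.eq_nil_or_concat w with hw0 | ⟨w', k, hw'⟩
    · subst hw0
      exact absurd hw.symm hu
    · have hu' : u = w' ++ k :: v := by
        rw [← hw, hw']
        simp
      have hlen : v.length ≤ u.length := by rw [hu']; simp; omega
      rw [pt_apply_of_length hlen hu]
      by_contra hne
      rw [not_or] at hne
      rw [hu'] at hne
      exact h ((mem_tree_apply hF w' hne.1).trans (mem_tree_apply hG w' hne.2).symm)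
  · by_cases h0 : F v = 0
    · right
      exact apply_of_not_suffix hG (fun hc => h (h0.trans hc.symm)) hs
    · left
      exact apply_of_not_suffix hF h0 hs

theorem pt_mem {v : List ℤ} (hv : Adm v) {y : H} (hy : y ∈ D.Y) : pt D v y ∈ Tree D := by
  induction v generalizing y with
  | nil =>
    refine ⟨fun u => ?_, fun m u => Or.inl ?_, fun u _ => ?_⟩
    · by_cases hu : u = []
      · rw [hu, pt_self]; exact hy
      · rw [pt_apply_of_length (by simp) hu]; exact D.zero_mem
    · exact pt_apply_of_length (by simp) (by simp) _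
    · exact pt_apply_of_length (by simp) (by simp) _
  | cons m₀ v ih =>
    have hG := ih hv.tail (D.q_mem m₀)
    have hoff : ∀ u, u ≠ m₀ :: v → pt D (m₀ :: v) y u = pt D v (D.q m₀) u := by
      intro u hu
      rw [pt_ne hu, pt_cons_zero]
    refine ⟨fun u => ?_, fun m u => ?_, fun u hu => ?_⟩
    · by_cases h : u = m₀ :: v
      · rw [h, pt_self]; exact hy
      · rw [hoff u h]; exact hG.1 u
    · by_cases h : m :: u = m₀ :: v
      · right
        obtain ⟨rfl, rfl⟩ := List.cons.inj h
        rw [hoff _ (by simp), pt_self]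
      · rw [hoff _ h]
        rcases hG.2.1 m u with h1 | h1
        · exact Or.inl h1
        · by_cases hu : u = m₀ :: v
          · left
            rw [hu]
            refine pt_apply_of_length (by simp; omega) (fun hc => ?_) _
            have := congrArg List.length hc
            simp only [List.length_cons] at this
            omega
          · right
            rw [hoff u hu, h1]
    · have h : (0 : ℤ) :: u ≠ m₀ :: v := by
        intro h
        obtain ⟨h1, h2⟩ := List.cons.inj h
        exact hv.ne_zero (h2 ▸ hu) h1.symm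
      rw [hoff _ h]
      exact hG.2.2 u hu

end Pool.Agent.helper65.Cat
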