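import Pool.Agent.helper65.Cat.TreeProper

/-!
# The isometries of the tree of pieces
-/

open Filter Topology Set Metric
open scoped ENNReal NNReal InnerProductSpace

set_option linter.unusedSectionVars false

namespace Pool.Agent.helper65.Cat

/-! ### Words -/

/-- Adding `k` to the last letter. -/
def sh (k : ℤ) : List ℤ → List ℤ
  | [] => []
  | [m] => [m + k]
  | m :: l :: u => m :: sh k (l :: u)

theorem sh_cons (k m : ℤ) {u : List ℤ} (hu : u ≠ []) : sh k (m :: u) = m :: sh k u := by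
  cases u with
  | nil => exact absurd rfl hu
  | cons l u => rfl

theorem sh_eq_nil {k : ℤ} {u : List ℤ} : sh k u = [] ↔ u = [] := by
  cases u with
  | nil => simp [sh]
  | cons m u =>
    cases u with
    | nil => simp [sh]
    | cons l u => simp [sh]

theorem sh_sh (j k : ℤ) (u : List ℤ) : sh j (sh k u) = sh (j + k) u := by
  induction u with
  | nil => rfl
  | cons m u ih =>
    by_cases hu : u = []
    · subst hu
      simp only [sh]
      congr 1
      ring
    · rw [sh_cons k m hu, sh_cons (j + k) m hu, sh_cons _ _ (fun h => hu (sh_eq_nil.1 h)), ih]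

theorem sh_zero (u : List ℤ) : sh 0 u = u := by
  induction u with
  | nil => rfl
  | cons m u ih =>
    by_cases hu : u = []
    · subst hu
      simp [sh]
    · rw [sh_cons 0 m hu, ih]

theorem sh_append (k m : ℤ) (u : List ℤ) : sh k (u ++ [m]) = u ++ [m + k] := by
  induction u with
  | nil => rfl
  | cons l u ih =>
    rw [List.cons_append, sh_cons _ _ (by simp), ih, List.cons_append]

theorem sh_adm {k : ℤ} {u : List ℤ} (h : Adm u) : Adm (sh k u) := by
  induction u with
  | nil => trivial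
  | cons m u ih =>
    by_cases hu : u = []
    · subst hu
      trivial
    · rw [sh_cons k m hu]
      exact Adm.cons (ih h.tail) fun _ => h.ne_zero hu

/-- The shift as a permutation. -/
def shE (k : ℤ) : Equiv.Perm (List ℤ) where
  toFun := sh k
  invFun := sh (-k)
  left_inv := fun u => by rw [sh_sh, neg_add_cancel, sh_zero]
  right_inv := fun u => by rw [sh_sh, add_neg_cancel, sh_zero]

/-- The swap of the two halves of the tree. -/
def sw : List ℤ → List ℤ
  | [] => [0]
  | m :: u => if m = 0 ∧ u = [] then [] else if m = 0 ∧ u = [0] then [0, 0] else m :: sw u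

theorem sw_nil : sw [] = [0] := rfl

theorem sw_zero : sw [0] = [] := by simp [sw]

theorem sw_zero_zero : sw [0, 0] = [0, 0] := by simp [sw]

theorem sw_cons {m : ℤ} {u : List ℤ} (h1 : ¬(m = 0 ∧ u = [])) (h2 : ¬(m = 0 ∧ u = [0])) :
    sw (m :: u) = m :: sw u := by
  rw [sw, if_neg h1, if_neg h2]

theorem sw_eq_nil {u : List ℤ} : sw u = [] ↔ u = [0] := by
  cases u with
  | nil => simp [sw]
  | cons m u =>
    by_cases h1 : m = 0 ∧ u = []
    · obtain ⟨rfl, rfl⟩ := h1
      simp [sw_zero]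
    · by_cases h2 : m = 0 ∧ u = [0]
      · obtain ⟨rfl, rfl⟩ := h2
        simp [sw_zero_zero]
      · rw [sw_cons h1 h2]
        constructor
        · intro h; simp at h
        · intro h
          obtain ⟨h3, h4⟩ := List.cons.inj h
          exact absurd ⟨h3, h4⟩ h1

theorem sw_eq_zero {u : List ℤ} : sw u = [0] ↔ u = [] := by
  cases u with
  | nil => simp [sw]
  | cons m u =>
    by_cases h1 : m = 0 ∧ u = []
    · obtain ⟨rfl, rfl⟩ := h1
      simp [sw_zero]
    · by_cases h2 : m = 0 ∧ u = [0]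
      · obtain ⟨rfl, rfl⟩ := h2
        simp [sw_zero_zero]
      · rw [sw_cons h1 h2]
        constructor
        · intro h
          obtain ⟨h3, h4⟩ := List.cons.inj h
          exact absurd ⟨h3, sw_eq_nil.1 h4⟩ h2
        · intro h; simp at h

theorem sw_sw (u : List ℤ) : sw (sw u) = u := by
  induction u with
  | nil => rw [sw_nil, sw_zero]
  | cons m u ih =>
    by_cases h1 : m = 0 ∧ u = []
    · obtain ⟨rfl, rfl⟩ := h1
      rw [sw_zero, sw_nil]
    · by_cases h2 : m = 0 ∧ u = [0]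
      · obtain ⟨rfl, rfl⟩ := h2
        rw [sw_zero_zero, sw_zero_zero]
      · rw [sw_cons h1 h2, sw_cons, ih]
        · rintro ⟨h3, h4⟩
          exact h2 ⟨h3, sw_eq_nil.1 h4⟩
        · rintro ⟨h3, h4⟩
          exact h1 ⟨h3, sw_eq_zero.1 h4⟩

theorem sw_adm {u : List ℤ} (h : Adm u) : Adm (sw u) := by
  induction u with
  | nil => trivial
  | cons m u ih =>
    by_cases h1 : m = 0 ∧ u = []
    · obtain ⟨rfl, rfl⟩ := h1
      rw [sw_zero]
      trivial
    · have h2 : ¬(m = 0 ∧ u = [0]) := by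
        rintro ⟨rfl, rfl⟩
        exact h.1 rfl
      rw [sw_cons h1 h2]
      refine Adm.cons (ih h.tail) fun _ => ?_
      by_cases hu : u = []
      · exact fun h3 => h1 ⟨h3, hu⟩
      · exact h.ne_zero hu

/-- On words whose last letter is not zero the swap appends the letter zero. -/
theorem sw_append {u : List ℤ} (hu : u ≠ [0] ∧ ∀ w : List ℤ, u ≠ w ++ [0]) :
    sw u = u ++ [0] := by
  induction u with
  | nil => rfl
  | cons m u ih =>
    have h1 : ¬(m = 0 ∧ u = []) := by
      rintro ⟨rfl, rfl⟩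
      exact hu.1 rfl
    have h2 : ¬(m = 0 ∧ u = [0]) := by
      rintro ⟨rfl, rfl⟩
      exact hu.2 [0] rfl
    rw [sw_cons h1 h2, ih, List.cons_append]
    constructor
    · rintro rfl
      exact hu.2 [m] rfl
    · rintro w rfl
      exact hu.2 (m :: w) rfl

/-- The swap as a permutation. -/
def swE : Equiv.Perm (List ℤ) where
  toFun := sw
  invFun := sw
  left_inv := sw_sw
  right_inv := sw_sw

/-! ### Reindexing -/

variable {H : Type} [NormedAddCommGroup H] [InnerProductSpace ℝ H]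

/-- Reindexing. -/
noncomputable def re (e : Equiv.Perm (List ℤ)) (F : L1 H) : L1 H :=
  ⟨fun u => F (e.symm u), by
    have h : Memℓp (fun u => F (e.symm u)) 1 := by
      refine memℓp_gen ?_
      have h1 : Summable fun u => ‖F (e.symm u)‖ :=
        (e.symm.summable_iff (f := fun u => ‖F u‖)).2 (summable_norm F)
      simpa using h1
    exact h⟩

theorem re_apply (e : Equiv.Perm (List ℤ)) (F : L1 H) (u : List ℤ) : re e F u = F (e.symm u) := rfl

theorem norm_re_sub (e : Equiv.Perm (List ℤ)) (F G : L1 H) : ‖re e F - re e G‖ = ‖F - G‖ := by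
  rw [norm_eq, norm_eq]
  have h1 : ∀ u, ‖(re e F - re e G) u‖ = (fun u => ‖(F - G) u‖) (e.symm u) := fun u => rfl
  simp_rw [h1]
  exact e.symm.tsum_eq (fun u => ‖(F - G) u‖)

theorem re_add (e : Equiv.Perm (List ℤ)) (F G : L1 H) : re e (F + G) = re e F + re e G := rfl

theorem re_sg (e : Equiv.Perm (List ℤ)) (v : List ℤ) (y : H) : re e (sg v y) = sg (e v) y := by
  refine L1.ext' fun u => ?_
  rw [re_apply]
  by_cases h : u = e v
  · rw [h, e.symm_apply_apply, sg_self, sg_self]
  · rw [sg_ne h, sg_ne]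
    rintro rfl
    exact h (e.apply_symm_apply u).symm

/-! ### The two isometries -/

/-- A piece with a group `ℤ` of isometries. -/
structure PieceAct (H : Type) [NormedAddCommGroup H] [InnerProductSpace ℝ H] extends Piece H where
  hh : H ≃ᵢ H
  hh_mem : ∀ y ∈ Y, hh y ∈ Y
  hh_symm_mem : ∀ y ∈ Y, hh.symm y ∈ Y
  hh_q : ∀ m, hh (q m) = q (m + 1)
  compact : ∀ R, IsCompact (Y ∩ closedBall 0 R)
  rad : ℝ
  cocompact : ∀ y ∈ Y, ∃ k : ℤ, ‖(hh ^ k) y‖ ≤ rad
  pole : H
  pole_mem : pole ∈ Y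
  pole_ne : pole ≠ 0

variable (D : PieceAct H)

/-- The map induced by an isometry `φ` of the piece with `φ (q m) = q (m + k)`. -/
noncomputable def tr (k : ℤ) (φ : H → H) (F : L1 H) : L1 H :=
  re (shE k) F - sg [] (F []) + sg [] (φ (F []))

theorem tr_nil (k : ℤ) (φ : H → H) (F : L1 H) : tr k φ F [] = φ (F []) := by
  unfold tr
  rw [lp.coeFn_add, Pi.add_apply, lp.coeFn_sub, Pi.sub_apply, re_apply, sg_self, sg_self]
  have : (shE k).symm [] = [] := rfl
  rw [this, sub_self, zero_add]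

theorem tr_ne (k : ℤ) (φ : H → H) (F : L1 H) {u : List ℤ} (hu : u ≠ []) :
    tr k φ F u = F (sh (-k) u) := by
  unfold tr
  rw [lp.coeFn_add, Pi.add_apply, lp.coeFn_sub, Pi.sub_apply, re_apply, sg_ne hu, sg_ne hu,
    sub_zero, add_zero]
  rfl

theorem norm_tr_sub (k : ℤ) {φ : H → H} (hφ : ∀ x y, ‖φ x - φ y‖ = ‖x - y‖) (F G : L1 H) :
    ‖tr k φ F - tr k φ G‖ = ‖F - G‖ := by
  rw [← norm_re_sub (shE k) F G]
  rw [norm_eq, norm_eq]
  refine tsum_congr fun u => ?_
  rw [lp.coeFn_sub, lp.coeFn_sub, Pi.sub_apply, Pi.sub_apply]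
  by_cases hu : u = []
  · subst hu
    rw [tr_nil, tr_nil, hφ]
    rfl
  · rw [tr_ne _ _ _ hu, tr_ne _ _ _ hu]
    rfl

theorem tr_mem {k : ℤ} {φ : H → H} (hφ : ∀ y ∈ D.Y, φ y ∈ D.Y)
    (hφq : ∀ m, φ (D.q m) = D.q (m + k)) {F : L1 H} (hF : F ∈ Tree D.toPiece) :
    tr k φ F ∈ Tree D.toPiece := by
  refine ⟨fun u => ?_, fun m u => ?_, fun u hu => ?_⟩
  · by_cases hu : u = []
    · subst hu
      rw [tr_nil]
      exact hφ _ (hF.1 _)
    · rw [tr_ne _ _ _ hu]
      exact hF.1 _
  · rw [tr_ne _ _ _ (by simp)]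
    by_cases hu : u = []
    · subst hu
      rw [tr_nil]
      rcases hF.2.1 (m + -k) [] with h | h
      · exact Or.inl h
      · right
        rw [h, hφq]
        congr 1
        ring
    · rw [tr_ne _ _ _ hu, sh_cons _ _ hu]
      exact hF.2.1 m _
  · rw [tr_ne _ _ _ (by simp), sh_cons _ _ hu]
    exact hF.2.2 _ fun h => hu (sh_eq_nil.1 h)

theorem tr_tr {k : ℤ} {φ ψ : H → H} (h : ∀ x, ψ (φ x) = x) (F : L1 H) :
    tr (-k) ψ (tr k φ F) = F := by
  refine L1.ext' fun u => ?_
  by_cases hu : u = []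
  · subst hu
    rw [tr_nil, tr_nil, h]
  · rw [tr_ne _ _ _ hu, tr_ne _ _ _ (fun h => hu (sh_eq_nil.1 h)), sh_sh, neg_neg,
      neg_add_cancel, sh_zero]

theorem re_sw_mem {F : L1 H} (hF : F ∈ Tree D.toPiece) : re swE F ∈ Tree D.toPiece := by
  have happ : ∀ u, re swE F u = F (sw u) := fun u => rfl
  refine ⟨fun u => hF.1 _, fun m u => ?_, fun u hu => ?_⟩
  · rw [happ, happ]
    by_cases h1 : m = 0 ∧ u = []
    · obtain ⟨rfl, rfl⟩ := h1
      rw [sw_zero, sw_nil, D.q_zero]
      rcases hF.2.1 0 [] with h | h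
      · exact Or.inr h
      · rw [D.q_zero] at h
        exact Or.inl h
    · by_cases h2 : m = 0 ∧ u = [0]
      · obtain ⟨rfl, rfl⟩ := h2
        rw [sw_zero_zero]
        exact Or.inl (hF.2.2 [0] (by simp))
      · rw [sw_cons h1 h2]
        exact hF.2.1 m _
  · rw [happ]
    by_cases h2 : u = [0]
    · subst h2
      rw [sw_zero_zero]
      exact hF.2.2 [0] (by simp)
    · rw [sw_cons (fun h => hu h.2) (fun h => h2 h.2)]
      exact hF.2.2 _ fun h => h2 (sw_eq_nil.1 h)

/-- The isometry `h` of the tree. -/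
noncomputable def hX : TX D.toPiece ≃ᵢ TX D.toPiece where
  toFun := fun x => ⟨tr 1 D.hh x.1, tr_mem D D.hh_mem D.hh_q x.2⟩
  invFun := fun x => ⟨tr (-1) D.hh.symm x.1, tr_mem D D.hh_symm_mem (fun m => by
    rw [← D.hh.symm_apply_apply (D.q (m + -1)), D.hh_q]
    congr 2
    ring) x.2⟩
  left_inv := fun x => Subtype.ext (tr_tr (fun y => D.hh.symm_apply_apply y) x.1)
  right_inv := fun x => Subtype.ext (by
    have := tr_tr (k := -1) (φ := D.hh.symm) (ψ := D.hh) (fun y => D.hh.apply_symm_apply y) x.1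
    rwa [neg_neg] at this)
  isometry_toFun := by
    refine Isometry.of_dist_eq fun x y => ?_
    rw [tx_dist, tx_dist]
    refine norm_tr_sub 1 (fun a b => ?_) x.1 y.1
    rw [← dist_eq_norm, ← dist_eq_norm]
    exact D.hh.dist_eq a b

/-- The involution `s` of the tree. -/
noncomputable def sX : TX D.toPiece ≃ᵢ TX D.toPiece where
  toFun := fun x => ⟨re swE x.1, re_sw_mem D x.2⟩
  invFun := fun x => ⟨re swE x.1, re_sw_mem D x.2⟩
  left_inv := fun x => Subtype.ext (L1.ext' fun u => congrArg x.1 (sw_sw u))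
  right_inv := fun x => Subtype.ext (L1.ext' fun u => congrArg x.1 (sw_sw u))
  isometry_toFun := by
    refine Isometry.of_dist_eq fun x y => ?_
    rw [tx_dist, tx_dist]
    exact norm_re_sub swE x.1 y.1

end Pool.Agent.helper65.Cat
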