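import Pool.Agent.helper65.Cat.Tree
import Pool.Agent.helper65.Cat.Defs

/-!
# The tree of pieces is CAT(0)
-/

open Filter Topology Set Metric
open scoped ENNReal NNReal InnerProductSpace

set_option linter.unusedSectionVars false

namespace Pool.Agent.helper65.Cat

variable {H : Type} [NormedAddCommGroup H] [InnerProductSpace ℝ H] {D : Piece H}

theorem L1.ext' {F G : L1 H} (h : ∀ u, F u = G u) : F = G := lp.ext (funext h)

/-! ### Representation of the points -/

theorem norm_pt_cons (m : ℤ) (v : List ℤ) (y : H) :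
    ‖pt D (m :: v) y‖ = ‖pt D v (D.q m)‖ + ‖y‖ := by
  conv_lhs => unfold pt
  rw [norm_add_of_disj, norm_sg]
  intro u
  by_cases h : u = m :: v
  · left
    rw [h]
    exact pt_apply_of_length (by simp) (by simp) _
  · right
    exact sg_ne h _

theorem norm_pt_eq (v : List ℤ) (y : H) : ‖pt D v y‖ = ‖pt D v 0‖ + ‖y‖ := by
  cases v with
  | nil =>
    unfold pt
    rw [norm_sg, norm_sg, norm_zero, zero_add]
  | cons m v => rw [norm_pt_cons, norm_pt_cons, norm_zero, add_zero]

theorem norm_pt_zero_cons (m : ℤ) (v : List ℤ) :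
    ‖pt D (m :: v) 0‖ = ‖pt D v 0‖ + ‖D.q m‖ := by
  rw [norm_pt_cons, norm_pt_eq v (D.q m), norm_zero, add_zero]

theorem sum_abs_le_norm (v : List ℤ) : (v.map fun m : ℤ => |(m : ℝ)|).sum ≤ ‖pt D v 0‖ := by
  induction v with
  | nil => simp
  | cons m v ih =>
    rw [norm_pt_zero_cons, List.map_cons, List.sum_cons]
    have := D.abs_le_norm m
    linarith

theorem length_le_norm {v : List ℤ} (hv : Adm v) : (v.length : ℝ) ≤ ‖pt D v 0‖ + 1 := by
  induction v with
  | nil => simp; positivity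
  | cons m v ih =>
    by_cases h0 : v = []
    · subst h0
      simp
    · have hm := hv.ne_zero h0
      have h1 := ih hv.tail
      have h2 := D.abs_le_norm m
      have h3 : (1 : ℝ) ≤ |(m : ℝ)| := by
        have : 1 ≤ |m| := Int.one_le_abs hm
        exact_mod_cast this
      rw [norm_pt_zero_cons, List.length_cons]
      push_cast
      linarith

theorem norm_pt_le {F : L1 H} (hF : F ∈ Tree D) {v : List ℤ} (h : F v ≠ 0) :
    ‖pt D v 0‖ ≤ ‖F‖ := by
  have h1 : ‖(F - pt D v 0) + pt D v 0‖ = ‖F - pt D v 0‖ + ‖pt D v 0‖ := by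
    refine norm_add_of_disj fun u => ?_
    by_cases hs : v <:+ u
    · right
      by_cases hu : u = v
      · rw [hu, pt_self]
      · exact pt_apply_of_length hs.length_le hu _
    · left
      rw [lp.coeFn_sub, Pi.sub_apply, apply_of_not_suffix hF h hs, sub_self]
  rw [sub_add_cancel] at h1
  rw [h1]
  linarith [norm_nonneg (F - pt D v 0)]

theorem exists_rep {F : L1 H} (hF : F ∈ Tree D) :
    ∃ v : List ℤ, Adm v ∧ ∃ y ∈ D.Y, F = pt D v y := by
  by_cases h0 : ∀ u, F u = 0
  · refine ⟨[], trivial, 0, D.zero_mem, L1.ext' fun u => ?_⟩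
    rw [h0 u]
    by_cases hu : u = []
    · rw [hu, pt_self]
    · rw [pt_apply_of_length (by simp) hu]
  · push Not at h0
    -- a nonzero coordinate of maximal length
    have hbd : ∀ u, F u ≠ 0 → u.length ≤ ⌈‖F‖ + 1⌉₊ := by
      intro u hu
      have h1 := length_le_norm (D := D) (adm_of_ne_zero hF hu)
      have h2 := norm_pt_le hF hu
      have h3 : (u.length : ℝ) ≤ ‖F‖ + 1 := by linarith
      exact_mod_cast h3.trans (Nat.le_ceil _)
    classical
    let P : ℕ → Prop := fun n => ∃ u, F u ≠ 0 ∧ u.length = n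
    have hP : ∃ n, P n := ⟨_, h0.choose, h0.choose_spec, rfl⟩
    have hPb : ∀ n, P n → n ≤ ⌈‖F‖ + 1⌉₊ := by
      rintro n ⟨u, hu, rfl⟩
      exact hbd u hu
    obtain ⟨n₀, hn₀⟩ := hP
    have hmax := Nat.findGreatest_spec (P := P) (hPb n₀ hn₀) hn₀
    obtain ⟨v, hv, hvl⟩ := hmax
    have hvm : ∀ u, F u ≠ 0 → u.length ≤ v.length := by
      intro u hu
      rw [hvl]
      exact Nat.le_findGreatest (hbd u hu) ⟨u, hu, rfl⟩
    refine ⟨v, adm_of_ne_zero hF hv, F v, hF.1 v, L1.ext' fun u => ?_⟩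
    by_cases hu : u = v
    · rw [hu, pt_self]
    · by_cases hs : v <:+ u
      · rw [pt_apply_of_length hs.length_le hu]
        by_contra hne
        have h1 := hvm u hne
        exact hu (hs.eq_of_length_le h1).symm
      · rw [apply_of_not_suffix hF hv hs]
        exact (pt_ne hu _).symm

theorem finite_supp_pt (v : List ℤ) (y : H) : {u | pt D v y u ≠ 0}.Finite := by
  induction v generalizing y with
  | nil =>
    refine (Set.finite_singleton ([] : List ℤ)).subset fun u hu => ?_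
    by_contra hne
    exact hu (pt_apply_of_length (by simp) hne _)
  | cons m v ih =>
    refine ((ih (D.q m)).union (Set.finite_singleton (m :: v))).subset fun u hu => ?_
    by_cases h : u = m :: v
    · exact Or.inr h
    · left
      intro h0
      refine hu ?_
      unfold pt
      rw [lp.coeFn_add, Pi.add_apply, sg_ne h, add_zero, h0]

theorem finite_diff {F G : L1 H} (hF : F ∈ Tree D) (hG : G ∈ Tree D) : {u | F u ≠ G u}.Finite := by
  obtain ⟨v, _, y, _, rfl⟩ := exists_rep hF
  obtain ⟨v', _, y', _, rfl⟩ := exists_rep hG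
  refine ((finite_supp_pt (D := D) v y).union (finite_supp_pt (D := D) v' y')).subset
    fun u hu => ?_
  by_contra hne
  rw [Set.mem_union, not_or] at hne
  have h1 : pt D v y u = 0 := not_not.1 hne.1
  have h2 : pt D v' y' u = 0 := not_not.1 hne.2
  exact hu (h1.trans h2.symm)

/-! ### Distances and copies -/

/-- The distance from `z` to the copy `v`. -/
noncomputable def off (D : Piece H) (v : List ℤ) (z : L1 H) : ℝ := ‖kill v z - pt D v 0‖

theorem off_nonneg (v : List ℤ) (z : L1 H) : 0 ≤ off D v z := norm_nonneg _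

theorem norm_sub_pt (v : List ℤ) (z : L1 H) (μ : H) :
    ‖z - pt D v μ‖ = ‖z v - μ‖ + off D v z := by
  rw [norm_eq_kill v, kill_sub, kill_pt, lp.coeFn_sub, Pi.sub_apply, pt_self]
  rfl

theorem norm_sub_of_ne {z x : L1 H} (hz : z ∈ Tree D) (hx : x ∈ Tree D) {v : List ℤ}
    (h : z v ≠ x v) : ‖z - x‖ = ‖z v - x v‖ + off D v z + off D v x := by
  rw [norm_eq_kill v, kill_sub, lp.coeFn_sub, Pi.sub_apply]
  have h1 : kill v z - kill v x = (kill v z - pt D v 0) - (kill v x - pt D v 0) := by abel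
  rw [h1, norm_sub_of_disj, add_assoc]
  · rfl
  · intro u
    rw [lp.coeFn_sub, lp.coeFn_sub, Pi.sub_apply, Pi.sub_apply]
    by_cases hu : u = v
    · left
      rw [hu, kill_self, pt_self, sub_self]
    · rw [kill_ne hu, kill_ne hu]
      rcases key hz hx h hu with h2 | h2
      · left; rw [h2, sub_self]
      · right; rw [h2, sub_self]

theorem abs_off_le (z x : L1 H) (v : List ℤ) :
    ‖z v - x v‖ + |off D v z - off D v x| ≤ ‖z - x‖ := by
  rw [norm_eq_kill v (z - x), kill_sub, lp.coeFn_sub, Pi.sub_apply]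
  have h1 : kill v z - kill v x = (kill v z - pt D v 0) - (kill v x - pt D v 0) := by abel
  rw [h1]
  gcongr
  exact abs_norm_sub_norm_le _ _

/-! ### The comparison inequality in the piece -/

theorem stewart {q μ e : H} (he : ‖e‖ = 1) {C l k : ℝ} (hC : 0 ≤ C) (hl : 0 ≤ l) (hk : 0 ≤ k) :
    (l + k) * (C + ‖q - μ‖) ^ 2 ≤ k * (C + ‖q - (μ - l • e)‖) ^ 2 +
      l * (C + ‖q - (μ + k • e)‖) ^ 2 - (l + k) * (l * k) := by
  have e1 : q - (μ - l • e) = (q - μ) + l • e := by abel
  have e2 : q - (μ + k • e) = (q - μ) - k • e := by abel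
  rw [e1, e2]
  set w := q - μ with hw
  have n1 : ‖w + l • e‖ ^ 2 = ‖w‖ ^ 2 + 2 * (l * ⟪w, e⟫_ℝ) + l ^ 2 := by
    rw [norm_add_sq_real, real_inner_smul_right, norm_smul, he, mul_one, Real.norm_eq_abs, sq_abs]
  have n2 : ‖w - k • e‖ ^ 2 = ‖w‖ ^ 2 - 2 * (k * ⟪w, e⟫_ℝ) + k ^ 2 := by
    rw [norm_sub_sq_real, real_inner_smul_right, norm_smul, he, mul_one, Real.norm_eq_abs, sq_abs]
  have n3 : (l + k) * ‖w‖ ≤ k * ‖w + l • e‖ + l * ‖w - k • e‖ := by
    have h1 : (l + k) • w = k • (w + l • e) + l • (w - k • e) := by module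
    calc (l + k) * ‖w‖ = ‖(l + k) • w‖ := by
          rw [norm_smul, Real.norm_of_nonneg (by positivity)]
      _ ≤ ‖k • (w + l • e)‖ + ‖l • (w - k • e)‖ := by rw [h1]; exact norm_add_le _ _
      _ = _ := by rw [norm_smul, norm_smul, Real.norm_of_nonneg hk, Real.norm_of_nonneg hl]
  have h2 : k * (C + ‖w + l • e‖) ^ 2 + l * (C + ‖w - k • e‖) ^ 2 =
      (l + k) * C ^ 2 + 2 * C * (k * ‖w + l • e‖ + l * ‖w - k • e‖) +
        (k * ‖w + l • e‖ ^ 2 + l * ‖w - k • e‖ ^ 2) := by ring
  rw [h2, n1, n2]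
  nlinarith [mul_le_mul_of_nonneg_left n3 hC]

/-- The comparison inequality for a point of a copy between two points of the tree. -/
theorem comparison_pt {x y p : L1 H} (hx : x ∈ Tree D) (hy : y ∈ Tree D) (hp : p ∈ Tree D)
    {v : List ℤ} (hxy : x v ≠ y v) {s : ℝ} (hs0 : 0 ≤ s) (hs1 : s ≤ 1) {μ : H}
    (hμ : μ = x v + s • (y v - x v)) :
    ‖x - y‖ * ‖p - pt D v μ‖ ^ 2 ≤ ‖pt D v μ - y‖ * ‖p - x‖ ^ 2 + ‖x - pt D v μ‖ * ‖p - y‖ ^ 2 -
      ‖x - y‖ * (‖x - pt D v μ‖ * ‖pt D v μ - y‖) := by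
  set a := x v with ha
  set b := y v with hb
  set L := ‖b - a‖ with hL
  have hLpos : 0 < L := norm_pos_iff.2 (sub_ne_zero.2 (Ne.symm hxy))
  set e := L⁻¹ • (b - a) with he
  have he1 : ‖e‖ = 1 := by
    rw [he, norm_smul, norm_inv, Real.norm_of_nonneg hLpos.le]
    exact inv_mul_cancel₀ hLpos.ne'
  have hLe : L • e = b - a := by rw [he, smul_smul, mul_inv_cancel₀ hLpos.ne', one_smul]
  set C := off D v p with hCdef
  set α := off D v x with hα
  set β := off D v y with hβ
  have hC0 : 0 ≤ C := off_nonneg _ _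
  have hα0 : 0 ≤ α := off_nonneg _ _
  have hβ0 : 0 ≤ β := off_nonneg _ _
  have haμ : a - μ = -((s * L) • e) := by
    rw [hμ, mul_smul, hLe]
    abel
  have hbμ : b - μ = ((1 - s) * L) • e := by
    rw [hμ, mul_smul, hLe, sub_smul, one_smul]
    abel
  have hnaμ : ‖a - μ‖ = s * L := by
    rw [haμ, norm_neg, norm_smul, he1, mul_one, Real.norm_of_nonneg (by positivity)]
  have hnbμ : ‖b - μ‖ = (1 - s) * L := by
    rw [hbμ, norm_smul, he1, mul_one,
      Real.norm_of_nonneg (mul_nonneg (by linarith) hLpos.le)]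
  have hxm : ‖x - pt D v μ‖ = s * L + α := by rw [norm_sub_pt, ← ha, hnaμ]
  have hym : ‖pt D v μ - y‖ = (1 - s) * L + β := by rw [norm_sub_rev, norm_sub_pt, ← hb, hnbμ]
  have hxyn : ‖x - y‖ = (s * L + α) + ((1 - s) * L + β) := by
    rw [norm_sub_of_ne hx hy hxy, ← ha, ← hb, ← hα, ← hβ, norm_sub_rev, ← hL]
    ring
  have hpm : ‖p - pt D v μ‖ = C + ‖p v - μ‖ := by rw [norm_sub_pt, add_comm]
  set l := s * L + α with hl
  set k := (1 - s) * L + β with hk
  have hl0 : 0 ≤ l := by positivity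
  have hk0 : 0 ≤ k := add_nonneg (mul_nonneg (by linarith) hLpos.le) hβ0
  rw [hxyn, hxm, hym, hpm]
  by_cases h1 : p v = a
  · -- `p` projects to `a`
    have h2 : ‖p - y‖ = L + C + β := by
      have : p v ≠ y v := by rw [h1]; exact hxy
      rw [norm_sub_of_ne hp hy this, h1, ← hb, norm_sub_rev]
    have h3 : |C - α| ≤ ‖p - x‖ := by
      have := abs_off_le (D := D) p x v
      linarith [norm_nonneg (p v - x v)]
    rw [h1, hnaμ, h2]
    have h4 : (C - α) ^ 2 ≤ ‖p - x‖ ^ 2 := sq_le_sq' (by linarith [neg_abs_le (C - α)])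
      ((le_abs_self _).trans h3)
    have h5 : k * (C - α) ^ 2 ≤ k * ‖p - x‖ ^ 2 := mul_le_mul_of_nonneg_left h4 hk0
    have h6 : (l + k) * (C + s * L) ^ 2 = k * (C - α) ^ 2 + l * (L + C + β) ^ 2 -
        (l + k) * (l * k) := by
      rw [hl, hk]
      ring
    linarith
  · by_cases h2 : p v = b
    · have h3 : ‖p - x‖ = L + C + α := by
        have : p v ≠ x v := by rw [h2]; exact Ne.symm hxy
        rw [norm_sub_of_ne hp hx this, h2, ← ha]
      have h4 : |C - β| ≤ ‖p - y‖ := by
        have := abs_off_le (D := D) p y v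
        linarith [norm_nonneg (p v - y v)]
      rw [h2, hnbμ, h3]
      have h5 : (C - β) ^ 2 ≤ ‖p - y‖ ^ 2 := sq_le_sq' (by linarith [neg_abs_le (C - β)])
        ((le_abs_self _).trans h4)
      have h6 : l * (C - β) ^ 2 ≤ l * ‖p - y‖ ^ 2 := mul_le_mul_of_nonneg_left h5 hl0
      have h7 : (l + k) * (C + (1 - s) * L) ^ 2 = k * (L + C + α) ^ 2 + l * (C - β) ^ 2 -
          (l + k) * (l * k) := by
        rw [hl, hk]
        ring
      linarith
    · have h3 : ‖p - x‖ = ‖p v - a‖ + C + α := norm_sub_of_ne hp hx h1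
      have h4 : ‖p - y‖ = ‖p v - b‖ + C + β := norm_sub_of_ne hp hy h2
      have h5 := stewart (q := p v) (μ := μ) he1 hC0 hl0 hk0
      have h6 : ‖p v - (μ - l • e)‖ ≤ ‖p v - a‖ + α := by
        have : p v - (μ - l • e) = (p v - a) + α • e := by
          have h7 : a = μ - (s * L) • e := by
            have := haμ
            rw [sub_eq_iff_eq_add] at this
            rw [this]
            abel
          rw [h7, hl, add_smul]
          abel
        rw [this]
        refine (norm_add_le _ _).trans (le_of_eq ?_)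
        rw [norm_smul, he1, mul_one, Real.norm_of_nonneg hα0]
      have h7 : ‖p v - (μ + k • e)‖ ≤ ‖p v - b‖ + β := by
        have : p v - (μ + k • e) = (p v - b) - β • e := by
          have h8 : b = μ + ((1 - s) * L) • e := by
            have := hbμ
            rw [sub_eq_iff_eq_add] at this
            rw [this]
            abel
          rw [h8, hk, add_smul]
          abel
        rw [this]
        refine (norm_sub_le _ _).trans (le_of_eq ?_)
        rw [norm_smul, he1, mul_one, Real.norm_of_nonneg hβ0]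
      have h8 : (C + ‖p v - (μ - l • e)‖) ^ 2 ≤ ‖p - x‖ ^ 2 :=
        pow_le_pow_left₀ (by positivity) (by rw [h3]; linarith) 2
      have h9 : (C + ‖p v - (μ + k • e)‖) ^ 2 ≤ ‖p - y‖ ^ 2 :=
        pow_le_pow_left₀ (by positivity) (by rw [h4]; linarith) 2
      have h10 := mul_le_mul_of_nonneg_left h8 hk0
      have h11 := mul_le_mul_of_nonneg_left h9 hl0
      linarith

end Pool.Agent.helper65.Cat
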