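import Pool.Agent.helper65.Cat.TreeCat

/-!
# The tree of pieces is a proper CAT(0) space
-/

open Filter Topology Set Metric
open scoped ENNReal NNReal InnerProductSpace

set_option linter.unusedSectionVars false

namespace Pool.Agent.helper65.Cat

variable {H : Type} [NormedAddCommGroup H] [InnerProductSpace ℝ H] {D : Piece H}

theorem segment_mem {v : List ℤ} {x y : L1 H} (hx : x ∈ Tree D) (hy : y ∈ Tree D)
    (h : x v ≠ y v) {s : ℝ} (hs0 : 0 ≤ s) (hs1 : s ≤ 1) :
    pt D v (x v + s • (y v - x v)) ∈ Tree D := by
  have hv : Adm v := by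
    by_cases h0 : x v = 0
    · exact adm_of_ne_zero hy fun hc => h (h0.trans hc.symm)
    · exact adm_of_ne_zero hx h0
  refine pt_mem hv ?_
  have h1 : x v + s • (y v - x v) = (1 - s) • x v + s • y v := by module
  rw [h1]
  exact D.convex (hx.1 v) (hy.1 v) (by linarith) hs0 (by ring)

theorem seg (n : ℕ) : ∀ x ∈ Tree D, ∀ y ∈ Tree D, {u | x u ≠ y u}.ncard ≤ n → x ≠ y →
    ∀ t : ℝ, 0 ≤ t → t ≤ ‖x - y‖ → ∃ (v : List ℤ) (s : ℝ), x v ≠ y v ∧ 0 ≤ s ∧ s ≤ 1 ∧
      ‖x - pt D v (x v + s • (y v - x v))‖ = t ∧
      ‖pt D v (x v + s • (y v - x v)) - y‖ = ‖x - y‖ - t := by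
  induction n with
  | zero =>
    intro x hx y hy hn hxy
    have hfin := finite_diff hx hy
    have h1 : {u | x u ≠ y u} = ∅ := (Set.ncard_eq_zero hfin).1 (Nat.le_zero.1 hn)
    refine absurd (L1.ext' fun u => ?_) hxy
    by_contra hne
    have : u ∈ {u | x u ≠ y u} := hne
    rw [h1] at this
    exact this
  | succ n ih =>
    intro x hx y hy hn hxy t ht0 ht1
    have hfin := finite_diff hx hy
    obtain ⟨v, hv⟩ : ∃ v, x v ≠ y v := by
      by_contra hcon
      push Not at hcon
      exact hxy (L1.ext' hcon)
    set a := pt D v (x v) with ha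
    set b := pt D v (y v) with hb
    have haT : a ∈ Tree D := by
      have := segment_mem hx hy hv (le_refl (0 : ℝ)) zero_le_one
      simpa using this
    have hbT : b ∈ Tree D := by
      have := segment_mem hx hy hv zero_le_one (le_refl (1 : ℝ))
      simpa using this
    have hxa : ‖x - a‖ = off D v x := by rw [ha, norm_sub_pt, sub_self, norm_zero, zero_add]
    have hyb : ‖y - b‖ = off D v y := by rw [hb, norm_sub_pt, sub_self, norm_zero, zero_add]
    have hya : ‖y - a‖ = ‖y v - x v‖ + off D v y := by rw [ha, norm_sub_pt]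
    have hxb : ‖x - b‖ = ‖x v - y v‖ + off D v x := by rw [hb, norm_sub_pt]
    have hT : ‖x - y‖ = ‖x v - y v‖ + off D v x + off D v y := norm_sub_of_ne hx hy hv
    have hL : 0 < ‖x v - y v‖ := norm_pos_iff.2 (sub_ne_zero.2 hv)
    rcases lt_or_ge t (off D v x) with h1 | h1
    · -- the point lies between `x` and `a`
      have hsub : {u | x u ≠ a u} ⊆ {u | x u ≠ y u} \ {v} := by
        intro u hu
        have huv : u ≠ v := by
          rintro rfl
          exact hu (by rw [ha, pt_self])
        refine ⟨fun hxyu => ?_, huv⟩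
        have h2 : a u = pt D v 0 u := by rw [ha, pt_ne huv]
        rcases key hx hy hv huv with h3 | h3
        · exact hu (h3.trans h2.symm)
        · exact hu ((hxyu.trans h3).trans h2.symm)
      have hcard : {u | x u ≠ a u}.ncard ≤ n := by
        have h2 := Set.ncard_le_ncard hsub (hfin.sdiff)
        have h3 := Set.ncard_sdiff_singleton_of_mem (s := {u | x u ≠ y u}) (a := v) hv
        omega
      have hxa' : x ≠ a := by
        intro hc
        rw [← hc, sub_self, norm_zero] at hxa
        linarith
      obtain ⟨w, s, hw, hs0, hs1, e1, e2⟩ := ih x hx a haT hcard hxa' t ht0 (by rw [hxa]; exact h1.le)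
      have hwv : w ≠ v := (hsub hw).2
      have haw : a w = y w := by
        have h2 : a w = pt D v 0 w := by rw [ha, pt_ne hwv]
        rcases key hx hy hv hwv with h3 | h3
        · exact absurd (h3.trans h2.symm) hw
        · exact h2.trans h3.symm
      rw [haw] at hw e1 e2
      refine ⟨w, s, hw, hs0, hs1, e1, le_antisymm ?_ ?_⟩
      · have h3 := norm_sub_le_norm_sub_add_norm_sub (pt D w (x w + s • (y w - x w))) a y
        rw [e2, hxa, norm_sub_rev a y, hya] at h3
        rw [hT, norm_sub_rev (x v)]
        linarith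
      · have h3 := norm_sub_le_norm_sub_add_norm_sub x (pt D w (x w + s • (y w - x w))) y
        rw [e1] at h3
        linarith
    · rcases le_or_gt t (off D v x + ‖x v - y v‖) with h2 | h2
      · -- the point lies in the copy `v`
        set s := (t - off D v x) / ‖x v - y v‖ with hs
        have hs0 : 0 ≤ s := div_nonneg (by linarith) hL.le
        have hs1 : s ≤ 1 := (div_le_one hL).2 (by linarith)
        have hsL : s * ‖x v - y v‖ = t - off D v x := by
          rw [hs]
          exact div_mul_cancel₀ _ hL.ne'
        refine ⟨v, s, hv, hs0, hs1, ?_, ?_⟩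
        · rw [norm_sub_pt]
          have h3 : x v - (x v + s • (y v - x v)) = s • (x v - y v) := by module
          rw [h3, norm_smul, Real.norm_of_nonneg hs0, hsL]
          ring
        · rw [norm_sub_rev, norm_sub_pt]
          have h3 : y v - (x v + s • (y v - x v)) = (1 - s) • (y v - x v) := by module
          rw [h3, norm_smul, Real.norm_of_nonneg (by linarith), norm_sub_rev (y v), sub_mul, hsL,
            hT]
          ring
      · -- the point lies between `b` and `y`
        have hsub : {u | b u ≠ y u} ⊆ {u | x u ≠ y u} \ {v} := by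
          intro u hu
          have huv : u ≠ v := by
            rintro rfl
            exact hu (by rw [hb, pt_self])
          refine ⟨fun hxyu => ?_, huv⟩
          have h3 : b u = pt D v 0 u := by rw [hb, pt_ne huv]
          rcases key hx hy hv huv with h4 | h4
          · exact hu (h3.trans (h4.symm.trans hxyu))
          · exact hu (h3.trans h4.symm)
        have hcard : {u | b u ≠ y u}.ncard ≤ n := by
          have h3 := Set.ncard_le_ncard hsub (hfin.sdiff)
          have h4 := Set.ncard_sdiff_singleton_of_mem (s := {u | x u ≠ y u}) (a := v) hv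
          omega
        have hby : ‖b - y‖ = off D v y := by rw [norm_sub_rev, hyb]
        have hyb' : b ≠ y := by
          intro hc
          rw [hc, sub_self, norm_zero] at hby
          linarith
        obtain ⟨w, s, hw, hs0, hs1, e1, e2⟩ := ih b hbT y hy hcard hyb'
          (t - (off D v x + ‖x v - y v‖)) (by linarith) (by rw [hby]; linarith)
        have hwv : w ≠ v := (hsub hw).2
        have hbw : b w = x w := by
          have h3 : b w = pt D v 0 w := by rw [hb, pt_ne hwv]
          rcases key hx hy hv hwv with h4 | h4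
          · exact h3.trans h4.symm
          · exact absurd (h3.trans h4.symm) hw
        rw [hbw] at hw e1 e2
        refine ⟨w, s, hw, hs0, hs1, le_antisymm ?_ ?_, ?_⟩
        · have h3 := norm_sub_le_norm_sub_add_norm_sub x b (pt D w (x w + s • (y w - x w)))
          rw [e1, hxb] at h3
          linarith
        · have h3 := norm_sub_le_norm_sub_add_norm_sub x (pt D w (x w + s • (y w - x w))) y
          rw [e2, hby] at h3
          rw [hT] at h3
          linarith
        · rw [e2, hby, hT]
          ring

/-- The metric space. -/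
abbrev TX (D : Piece H) : Type := {F : L1 H // F ∈ Tree D}

theorem tx_dist (x y : TX D) : dist x y = ‖x.1 - y.1‖ := by
  rw [Subtype.dist_eq, dist_eq_norm]

/-- Intermediate points, with the comparison inequality. -/
theorem exists_point (x y : TX D) {t : ℝ} (ht0 : 0 ≤ t) (ht1 : t ≤ dist x y) :
    ∃ m : TX D, dist x m = t ∧ dist m y = dist x y - t ∧ ∀ p : TX D,
      dist x y * dist p m ^ 2 ≤
        dist m y * dist p x ^ 2 + dist x m * dist p y ^ 2 - dist x y * (dist x m * dist m y) := by
  by_cases hxy : x = y
  · subst hxy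
    rw [dist_self] at ht1
    have : t = 0 := le_antisymm ht1 ht0
    subst this
    refine ⟨x, dist_self _, by simp, fun p => by simp⟩
  · have hxy' : x.1 ≠ y.1 := fun h => hxy (Subtype.ext h)
    rw [tx_dist] at ht1
    obtain ⟨v, s, hv, hs0, hs1, e1, e2⟩ := seg _ x.1 x.2 y.1 y.2 le_rfl hxy' t ht0 ht1
    refine ⟨⟨_, segment_mem x.2 y.2 hv hs0 hs1⟩, ?_, ?_, fun p => ?_⟩
    · rw [tx_dist]; exact e1
    · rw [tx_dist, tx_dist]; exact e2
    · simp only [tx_dist]
      exact comparison_pt x.2 y.2 p.2 hv hs0 hs1 rfl

theorem tx_unique {x y z : TX D} (h : dist x z + dist z y = dist x y) (m : TX D)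
    (hm : dist x m = dist x z) (hm' : dist m y = dist z y)
    (hc : ∀ p : TX D, dist x y * dist p m ^ 2 ≤
        dist m y * dist p x ^ 2 + dist x m * dist p y ^ 2 - dist x y * (dist x m * dist m y)) :
    z = m := by
  have h1 := hc z
  rw [hm, hm', dist_comm z x] at h1
  by_cases h0 : dist x y = 0
  · have hxz : dist x z = 0 := by
      have := dist_nonneg (x := x) (y := z)
      have := dist_nonneg (x := z) (y := y)
      linarith
    rw [hxz] at hm
    exact (dist_eq_zero.1 hxz).symm.trans (dist_eq_zero.1 hm)
  · have hpos : 0 < dist x y := lt_of_le_of_ne dist_nonneg (Ne.symm h0)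
    have h2 : dist z y * dist x z ^ 2 + dist x z * dist z y ^ 2 =
        dist x y * (dist x z * dist z y) := by
      rw [← h]
      ring
    rw [h2, sub_self] at h1
    have h3 : dist z m ^ 2 ≤ 0 := by
      by_contra hcon
      rw [not_le] at hcon
      have := mul_pos hpos hcon
      linarith
    have h4 : dist z m = 0 := by
      have := dist_nonneg (x := z) (y := m)
      nlinarith
    exact dist_eq_zero.1 h4

theorem tx_stewart : StewartCAT0 (TX D) := by
  have hcomp : ∀ p x y z : TX D, dist x z + dist z y = dist x y →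
      dist x y * dist p z ^ 2 ≤
        dist z y * dist p x ^ 2 + dist x z * dist p y ^ 2 - dist x y * (dist x z * dist z y) := by
    intro p x y z h
    have hxz := dist_nonneg (x := x) (y := z)
    have hzy := dist_nonneg (x := z) (y := y)
    obtain ⟨m, hm1, hm2, hm3⟩ := exists_point x y (t := dist x z) hxz (by linarith)
    have hm2' : dist m y = dist z y := by rw [hm2]; linarith
    have := tx_unique h m hm1 hm2' hm3
    subst this
    exact hm3 p
  refine ⟨fun x y => ?_, hcomp⟩
  have hex : ∀ t : ℝ, ∃ m : TX D, (0 ≤ t → t ≤ dist x y → dist x m = t ∧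
      dist m y = dist x y - t ∧ ∀ p : TX D,
      dist x y * dist p m ^ 2 ≤
        dist m y * dist p x ^ 2 + dist x m * dist p y ^ 2 - dist x y * (dist x m * dist m y)) := by
    intro t
    by_cases h : 0 ≤ t ∧ t ≤ dist x y
    · obtain ⟨m, hm⟩ := exists_point x y h.1 h.2
      exact ⟨m, fun _ _ => hm⟩
    · exact ⟨x, fun h1 h2 => absurd ⟨h1, h2⟩ h⟩
  choose γ hγ using hex
  have hlt : ∀ s t : ℝ, 0 ≤ s → s ≤ t → t ≤ dist x y → dist (γ s) (γ t) = t - s := by
    intro s t hs hst ht
    have h1 := hγ s hs (hst.trans ht)
    have h2 := hγ t (hs.trans hst) ht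
    obtain ⟨z, hz1, hz2, _⟩ := exists_point x (γ t) (t := s) hs (by rw [h2.1]; exact hst)
    have h3 : dist z y = dist x y - s := by
      refine le_antisymm ?_ ?_
      · have := dist_triangle z (γ t) y
        rw [hz2, h2.1, h2.2.1] at this
        linarith
      · have := dist_triangle x z y
        rw [hz1] at this
        linarith
    have h4 : z = γ s := by
      refine tx_unique (x := x) (y := y) (z := z) (by rw [hz1, h3]; ring) (γ s) ?_ ?_ h1.2.2
      · rw [h1.1, hz1]
      · rw [h1.2.1, h3]
    rw [← h4, hz2, h2.1]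
  refine ⟨γ, ?_, ?_, fun s hs t ht => ?_⟩
  · have := (hγ 0 le_rfl dist_nonneg).1
    exact (dist_eq_zero.1 this).symm
  · have := (hγ _ dist_nonneg le_rfl).2.1
    rw [sub_self] at this
    exact dist_eq_zero.1 this
  · rcases le_total s t with h | h
    · rw [hlt s t hs.1 h ht.2, abs_sub_comm, abs_of_nonneg (by linarith)]
    · rw [dist_comm, hlt t s ht.1 h hs.2, abs_of_nonneg (by linarith)]

end Pool.Agent.helper65.Cat
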