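import Pool.Agent.helper65.Cat.TreeGroup

/-!
# The action on the tree of pieces is geometric
-/

open Filter Topology Set Metric
open scoped ENNReal NNReal InnerProductSpace

set_option linter.unusedSectionVars false

namespace Pool.Agent.helper65.Cat

variable {H : Type} [NormedAddCommGroup H] [InnerProductSpace ℝ H] (D : PieceAct H)

theorem suffix_of_ne_zero {D : Piece H} {w u : List ℤ} {a : H} (h : pt D w a u ≠ 0) :
    u <:+ w := by
  induction w generalizing a with
  | nil =>
    by_contra hne
    refine h (pt_apply_of_length (by simp) (fun hc => hne ?_) _)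
    rw [hc]
  | cons m w ih =>
    by_cases hu : u = m :: w
    · rw [hu]
    · have h1 : pt D (m :: w) a u = pt D w (D.q m) u := by
        conv_lhs => unfold pt
        rw [lp.coeFn_add, Pi.add_apply, sg_ne hu, add_zero]
      rw [h1] at h
      exact (ih h).trans (List.suffix_cons m w)

theorem pt_append {D : Piece H} (t : List ℤ) (l : ℤ) (v : List ℤ) (a : H) :
    pt D (t ++ l :: v) a v = D.q l := by
  induction t generalizing a with
  | nil =>
    rw [List.nil_append]
    have h1 : pt D (l :: v) a v = pt D (l :: v) 0 v := pt_ne (by simp) a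
    rw [h1, pt_cons_zero, pt_self]
  | cons c t ih =>
    have hne : v ≠ c :: (t ++ l :: v) := by
      intro h
      have := congrArg List.length h
      simp at this
      omega
    rw [List.cons_append, pt_ne hne, pt_cons_zero, ih]

theorem Adm.of_append {t : List ℤ} {l : ℤ} {v : List ℤ} (h : Adm (t ++ l :: v)) :
    Adm (l :: v) := by
  induction t with
  | nil => exact h
  | cons c t ih => exact ih h.tail

/-- Two copies only meet at a gluing point. -/
theorem copy_meet {D : Piece H} {w v : List ℤ} {k m : ℤ} (hw : Adm w) (hv : Adm (m :: v))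
    (h : pt D w (D.q k) = pt D v (D.q m)) (hne : w ≠ v) : w = m :: v ∧ k = 0 := by
  have hv1 : pt D w (D.q k) v = D.q m := by rw [h, pt_self]
  by_cases hm : m = 0
  · subst hm
    have hv0 : v = [] := by
      by_contra hc
      exact hv.ne_zero hc rfl
    subst hv0
    have hz : ∀ u, pt D w (D.q k) u = 0 := by
      intro u
      rw [h, D.q_zero]
      by_cases hu : u = []
      · rw [hu, pt_self]
      · exact pt_apply_of_length (by simp) hu _
    cases w with
    | nil => exact absurd rfl hne
    | cons l w' =>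
      have hk : D.q k = 0 := by
        have := hz (l :: w')
        rwa [pt_self] at this
      have hk0 : k = 0 := Piece.q_inj (hk.trans D.q_zero.symm)
      have hl : D.q l = 0 := by
        have h1 := pt_append (D := D) [] l w' (D.q k)
        rw [List.nil_append, hz] at h1
        exact h1.symm
      have hl0 : l = 0 := Piece.q_inj (hl.trans D.q_zero.symm)
      subst hl0
      have hw' : w' = [] := by
        by_contra hc
        exact hw.ne_zero hc rfl
      rw [hw']
      exact ⟨rfl, hk0⟩
  · have hne0 : pt D w (D.q k) v ≠ 0 := by rw [hv1]; exact Piece.q_ne_zero hm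
    obtain ⟨t, ht⟩ := suffix_of_ne_zero hne0
    rcases List.eq_nil_or_concat t with ht0 | ⟨t', l, ht'⟩
    · subst ht0
      exact absurd ht.symm hne
    · have hw' : w = t' ++ l :: v := by
        rw [← ht, ht']
        simp
      have hl : l = m := by
        rw [hw', pt_append] at hv1
        exact Piece.q_inj hv1
      subst hl
      have hcoord : pt D w (D.q k) (l :: v) = 0 := by
        rw [h]
        exact pt_apply_of_length (by simp) (by simp) _
      rcases List.eq_nil_or_concat t' with ht0 | ⟨t'', c, ht''⟩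
      · subst ht0
        rw [List.nil_append] at hw'
        refine ⟨hw', ?_⟩
        rw [hw', pt_self] at hcoord
        exact Piece.q_inj (hcoord.trans D.q_zero.symm)
      · have hw'' : w = t'' ++ c :: (l :: v) := by
          rw [hw', ht'']
          simp
        rw [hw'', pt_append] at hcoord
        have hc : c = 0 := Piece.q_inj (hcoord.trans D.q_zero.symm)
        subst hc
        rw [hw''] at hw
        exact absurd rfl (hw.of_append.1)

/-- A rigid isometry fixing the root copy is the identity. -/
theorem Rigid.eq_one {g : TX D.toPiece ≃ᵢ TX D.toPiece} (hg : Rigid D g)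
    (h0 : ∀ (y : H) (hy : y ∈ D.Y), g (P D [] trivial y hy) = P D [] trivial y hy) : g = 1 := by
  have hfix : ∀ (v : List ℤ) (hv : Adm v) (y : H) (hy : y ∈ D.Y),
      g (P D v hv y hy) = P D v hv y hy := by
    intro v
    induction v with
    | nil => exact fun _ => h0
    | cons m v ih =>
      intro hv y hy
      obtain ⟨w, hw, k, hgw⟩ := hg (m :: v) hv
      have h1 : P D (m :: v) hv 0 D.zero_mem = P D v hv.tail (D.q m) (D.q_mem m) :=
        Subtype.ext (pt_cons_zero m v)
      have h2 := hgw 0 D.zero_mem
      rw [h1, ih hv.tail] at h2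
      have h3 : (D.hh ^ k) (0 : H) = D.q k := by
        rw [← D.q_zero, zpow_q, zero_add]
      have h4 : pt D.toPiece w (D.q k) = pt D.toPiece v (D.q m) := by
        have := congrArg Subtype.val h2
        change pt D.toPiece v (D.q m) = pt D.toPiece w ((D.hh ^ k) 0) at this
        rw [h3] at this
        exact this.symm
      by_cases hwv : w = v
      · subst hwv
        have hkm : k = m := by
          have := congrArg (fun F : L1 H => F w) h4
          simp only [pt_self] at this
          exact Piece.q_inj this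
        subst hkm
        have h5 := hgw D.pole D.pole_mem
        rw [← ih hv.tail _ (zpow_mem_Y D k D.pole_mem)] at h5
        have h6 := congrArg Subtype.val (g.injective h5)
        have h7 := congrArg (fun F : L1 H => F (k :: w)) h6
        change pt D.toPiece (k :: w) D.pole (k :: w) = pt D.toPiece w _ (k :: w) at h7
        rw [pt_self, pt_apply_of_length (by simp) (by simp)] at h7
        exact absurd h7 D.pole_ne
      · obtain ⟨h5, h6⟩ := copy_meet hw hv h4 hwv
        subst h5
        subst h6
        rw [hgw y hy]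
        exact Subtype.ext (by simp [P])
  refine IsometryEquiv.ext fun x => ?_
  obtain ⟨v, hv, y, hy, hx⟩ := exists_rep x.2
  have : x = P D v hv y hy := Subtype.ext hx
  rw [this, hfix]
  rfl

theorem norm_P (v : List ℤ) (hv : Adm v) (y : H) (hy : y ∈ D.Y) :
    dist (P D v hv y hy) (P D [] trivial 0 D.zero_mem) = ‖pt D.toPiece v 0‖ + ‖y‖ := by
  rw [tx_dist]
  have h1 : (P D [] trivial 0 D.zero_mem).1 = 0 := sg_zero []
  rw [h1, sub_zero]
  exact norm_pt_eq v y

theorem finite_displacement (R : ℝ) :
    {g : Grp D | dist (g.1 (P D [] trivial 0 D.zero_mem)) (P D [] trivial 0 D.zero_mem) ≤ R}.Finite := by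
  have hrig : ∀ g : Grp D, ∃ (c : List ℤ × ℤ), ∃ (hv' : Adm c.1), ∀ (y : H) (hy : y ∈ D.Y),
      g.1 (P D [] trivial y hy) = P D c.1 hv' ((D.hh ^ c.2) y) (zpow_mem_Y D c.2 hy) := by
    intro g
    obtain ⟨v', hv', k, h⟩ := (rigid_of_mem D g.2).1 [] trivial
    exact ⟨(v', k), hv', h⟩
  choose c hc hcg using hrig
  have hinj : Function.Injective c := by
    intro g g' hgg
    have h1 : (g'⁻¹ * g : Grp D).1 = 1 := by
      refine Rigid.eq_one D (rigid_of_mem D (g'⁻¹ * g).2).1 fun y hy => ?_
      have h2 : (g'⁻¹ * g : Grp D).1 = (g'.1)⁻¹ * g.1 := rfl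
      rw [h2, IsometryEquiv.mul_apply, hcg g y hy]
      have h3 := hcg g' y hy
      have h4 : P D (c g).1 (hc g) ((D.hh ^ (c g).2) y) (zpow_mem_Y D _ hy) =
          P D (c g').1 (hc g') ((D.hh ^ (c g').2) y) (zpow_mem_Y D _ hy) :=
        P_congr D (by rw [hgg]) _ _ (by rw [hgg]) _ _
      rw [h4, ← h3]
      exact (g'.1).symm_apply_apply _
    have h2 : g'⁻¹ * g = 1 := Subtype.ext h1
    have h3 := congrArg (fun x => g' * x) h2
    simpa using h3
  have hfin : (({v : List ℤ | Adm v ∧ ‖pt D.toPiece v 0‖ ≤ R}) ×ˢ (Icc (-⌈R⌉) ⌈R⌉)).Finite :=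
    (finite_copies (D := D.toPiece) R).prod (Set.finite_Icc _ _)
  refine Set.Finite.of_finite_image (f := c) (hfin.subset ?_) hinj.injOn
  rintro _ ⟨g, hg, rfl⟩
  have h1 : dist (g.1 (P D [] trivial 0 D.zero_mem)) (P D [] trivial 0 D.zero_mem) ≤ R := hg
  rw [hcg g 0 D.zero_mem, norm_P] at h1
  have h3 : (D.hh ^ (c g).2) (0 : H) = D.q (c g).2 := by
    rw [← D.q_zero, zpow_q, zero_add]
  rw [h3] at h1
  have h4 := norm_nonneg (D.q (c g).2)
  have h5 := norm_nonneg (pt D.toPiece (c g).1 0)
  refine ⟨⟨hc g, by linarith⟩, ?_⟩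
  have h6 := D.abs_le_norm (c g).2
  have h7 : ((|(c g).2| : ℤ) : ℝ) ≤ R := by
    rw [Int.cast_abs]
    linarith
  exact abs_le.1 (Int.cast_le.1 (h7.trans (Int.le_ceil R)))

theorem adm_append {u : List ℤ} {m : ℤ} (h : Adm (u ++ [m])) : Adm u ∧ ∀ l ∈ u, l ≠ 0 := by
  induction u with
  | nil => exact ⟨trivial, by simp⟩
  | cons c u ih =>
    rw [List.cons_append] at h
    have hc : c ≠ 0 := h.ne_zero (by simp)
    obtain ⟨h1, h2⟩ := ih h.tail
    refine ⟨Adm.cons h1 fun _ => hc, fun l hl => ?_⟩
    rcases List.mem_cons.1 hl with rfl | hl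
    · exact hc
    · exact h2 l hl

theorem transitive_copies (n : ℕ) : ∀ (v : List ℤ) (hv : Adm v), v.length = n →
    ∃ g ∈ Grp D, ∀ (y : H) (hy : y ∈ D.Y), g (P D [] trivial y hy) = P D v hv y hy := by
  induction n with
  | zero =>
    intro v hv hn
    have := List.eq_nil_of_length_eq_zero hn
    subst this
    exact ⟨1, (Grp D).one_mem, fun y hy => rfl⟩
  | succ n ih =>
    intro v hv hn
    rcases List.eq_nil_or_concat v with h0 | ⟨u, m, hu⟩
    · subst h0
      simp at hn
    · have hu' : v = u ++ [m] := by rw [hu, List.concat_eq_append]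
      subst hu'
      obtain ⟨h1, h2⟩ := adm_append hv
      have hlen : u.length = n := by simpa using hn
      obtain ⟨g, hg, hgu⟩ := ih u h1 hlen
      have hsw : sw u = u ++ [0] := by
        refine sw_append ⟨?_, ?_⟩
        · rintro rfl
          exact h2 0 (by simp) rfl
        · rintro w rfl
          exact h2 0 (by simp) rfl
      have hsh : sh m (sw u) = u ++ [m] := by rw [hsw, sh_append, zero_add]
      refine ⟨(hX D) ^ m * (sX D * g), (Grp D).mul_mem ((Grp D).zpow_mem (hX_mem D) m)
        ((Grp D).mul_mem (sX_mem D) hg), fun y hy => ?_⟩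
      rw [IsometryEquiv.mul_apply, IsometryEquiv.mul_apply, hgu, sX_P,
        hX_pow D m (sw_adm h1) (by rw [hsw]; simp)]
      exact P_congr D hsh _ _ rfl _ _

/-- The action of the group on the tree. -/
noncomputable instance grpAction : MulAction (Grp D) (TX D.toPiece) where
  smul := fun g x => g.1 x
  one_smul := fun _ => rfl
  mul_smul := fun _ _ _ => rfl

theorem grp_smul (g : Grp D) (x : TX D.toPiece) : g • x = g.1 x := rfl

theorem grp_isGeometric : IsGeometric (Grp D) (TX D.toPiece) := by
  have hprop : ProperSpace (TX D.toPiece) := tx_proper D.compact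
  set o : TX D.toPiece := P D [] trivial 0 D.zero_mem with ho
  refine ⟨fun g => g.1.isometry, fun K hK => ?_, closedBall o D.rad,
    isCompact_closedBall _ _, fun x => ?_⟩
  · obtain ⟨R, hR⟩ := hK.isBounded.subset_closedBall o
    refine (finite_displacement D (2 * R)).subset ?_
    rintro g ⟨_, ⟨x, hx, rfl⟩, hgx⟩
    have h1 : dist x o ≤ R := hR hx
    have h2 : dist (g.1 x) o ≤ R := hR hgx
    have h3 : dist (g.1 o) (g.1 x) = dist o x := g.1.dist_eq o x
    have h4 := dist_triangle (g.1 o) (g.1 x) o
    change dist (g.1 o) o ≤ 2 * R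
    rw [h3, dist_comm o x] at h4
    linarith
  · obtain ⟨v, hv, y, hy, hx⟩ := exists_rep x.2
    have hxP : x = P D v hv y hy := Subtype.ext hx
    obtain ⟨g, hg, hgv⟩ := transitive_copies D _ v hv rfl
    obtain ⟨k, hk⟩ := D.cocompact y hy
    refine ⟨⟨g * (hX D) ^ (-k), (Grp D).mul_mem hg ((Grp D).zpow_mem (hX_mem D) _)⟩,
      P D [] trivial ((D.hh ^ k) y) (zpow_mem_Y D k hy), ?_, ?_⟩
    · rw [mem_closedBall, norm_P]
      have : ‖pt D.toPiece [] (0 : H)‖ = 0 := by
        rw [show pt D.toPiece [] (0 : H) = 0 from sg_zero [], norm_zero]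
      rw [this, zero_add]
      exact hk
    · rw [grp_smul, IsometryEquiv.mul_apply, hX_pow_nil, hgv, hxP]
      refine P_congr D rfl _ _ ?_ _ _
      rw [← IsometryEquiv.mul_apply, ← zpow_add, neg_add_cancel, zpow_zero]
      rfl

end Pool.Agent.helper65.Cat
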