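import Pool.Agent.helper65.Cat.TreeAct

/-!
# The group acting geometrically on the tree of pieces
-/

open Filter Topology Set Metric
open scoped ENNReal NNReal InnerProductSpace

set_option linter.unusedSectionVars false

namespace Pool.Agent.helper65.Cat

variable {H : Type} [NormedAddCommGroup H] [InnerProductSpace ℝ H] (D : PieceAct H)

theorem tr_add_sg (k : ℤ) (φ : H → H) (F : L1 H) {v : List ℤ} (hv : v ≠ []) (y : H) :
    tr k φ (F + sg v y) = tr k φ F + sg (sh k v) y := by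
  refine L1.ext' fun u => ?_
  rw [lp.coeFn_add, Pi.add_apply]
  by_cases hu : u = []
  · subst hu
    rw [tr_nil, tr_nil, lp.coeFn_add, Pi.add_apply, sg_ne (Ne.symm hv), add_zero,
      sg_ne (fun h => hv (sh_eq_nil.1 h.symm)), add_zero]
  · rw [tr_ne _ _ _ hu, tr_ne _ _ _ hu, lp.coeFn_add, Pi.add_apply]
    congr 1
    by_cases h : u = sh k v
    · rw [h, sg_self, sh_sh, neg_add_cancel, sh_zero, sg_self]
    · rw [sg_ne h, sg_ne]
      rintro rfl
      rw [sh_sh, add_neg_cancel, sh_zero] at h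
      exact h rfl

theorem tr_pt_nil (k : ℤ) (φ : H → H) (y : H) :
    tr k φ (pt D.toPiece [] y) = pt D.toPiece [] (φ y) := by
  refine L1.ext' fun u => ?_
  by_cases hu : u = []
  · subst hu
    rw [tr_nil, pt_self, pt_self]
  · rw [tr_ne _ _ _ hu, pt_apply_of_length (by simp) (fun h => hu (sh_eq_nil.1 h)),
      pt_apply_of_length (by simp) hu]

theorem tr_pt {k : ℤ} {φ : H → H} (hφq : ∀ m, φ (D.q m) = D.q (m + k)) {v : List ℤ}
    (hv : v ≠ []) (y : H) : tr k φ (pt D.toPiece v y) = pt D.toPiece (sh k v) y := by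
  induction v generalizing y with
  | nil => exact absurd rfl hv
  | cons m v ih =>
    have h1 : pt D.toPiece (m :: v) y = pt D.toPiece v (D.q m) + sg (m :: v) y := rfl
    rw [h1, tr_add_sg _ _ _ hv]
    by_cases hv' : v = []
    · subst hv'
      rw [tr_pt_nil, hφq]
      rfl
    · rw [ih hv', sh_cons _ _ hv']
      rfl

theorem re_pt {v : List ℤ} (hv : Adm v) (y : H) :
    re swE (pt D.toPiece v y) = pt D.toPiece (sw v) y := by
  induction v generalizing y with
  | nil =>
    have h1 : pt D.toPiece [] y = sg [] y := rfl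
    have h2 : pt D.toPiece (sw []) y = sg [] (D.q 0) + sg [0] y := rfl
    rw [h1, h2, re_sg, D.q_zero, sg_zero, zero_add]
    rfl
  | cons m v ih =>
    have h1 : pt D.toPiece (m :: v) y = pt D.toPiece v (D.q m) + sg (m :: v) y := rfl
    rw [h1, re_add, re_sg, ih hv.tail]
    by_cases h2 : m = 0 ∧ v = []
    · obtain ⟨rfl, rfl⟩ := h2
      have h3 : (swE [0] : List ℤ) = [] := sw_zero
      rw [h3, sw_nil, D.q_zero, pt_cons_zero, D.q_zero, sw_zero]
      have h4 : pt D.toPiece [] (0 : H) = 0 := sg_zero []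
      rw [h4, zero_add]
      rfl
    · have h3 : ¬(m = 0 ∧ v = [0]) := by
        rintro ⟨rfl, rfl⟩
        exact hv.1 rfl
      have h4 : (swE (m :: v) : List ℤ) = m :: sw v := sw_cons h2 h3
      rw [h4, sw_cons h2 h3]
      rfl

theorem zpow_mem_Y (k : ℤ) {y : H} (hy : y ∈ D.Y) : (D.hh ^ k) y ∈ D.Y := by
  induction k with
  | zero => simpa using hy
  | succ k ih =>
    rw [add_comm, zpow_one_add, IsometryEquiv.mul_apply]
    exact D.hh_mem _ ih
  | pred k ih =>
    rw [sub_eq_add_neg, add_comm, zpow_add, zpow_neg_one, IsometryEquiv.mul_apply]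
    exact D.hh_symm_mem _ ih

theorem hh_symm_q (m : ℤ) : D.hh.symm (D.q m) = D.q (m - 1) := by
  rw [← D.hh.symm_apply_apply (D.q (m - 1)), D.hh_q, sub_add_cancel]

theorem zpow_q (k m : ℤ) : (D.hh ^ k) (D.q m) = D.q (m + k) := by
  induction k with
  | zero => simp
  | succ k ih =>
    rw [add_comm (k : ℤ) 1, zpow_one_add, IsometryEquiv.mul_apply, ih, D.hh_q]
    congr 1
    ring
  | pred k ih =>
    rw [sub_eq_add_neg, add_comm (-(k : ℤ)), zpow_add, zpow_neg_one, IsometryEquiv.mul_apply, ih]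
    change D.hh.symm _ = _
    rw [hh_symm_q]
    congr 1
    ring

/-- The point of the tree with coordinate `y` in the copy `v`. -/
noncomputable def P (v : List ℤ) (hv : Adm v) (y : H) (hy : y ∈ D.Y) : TX D.toPiece :=
  ⟨pt D.toPiece v y, pt_mem hv hy⟩

theorem P_congr {v v' : List ℤ} (h : v = v') (hv : Adm v) (hv' : Adm v') {y y' : H}
    (h' : y = y') (hy : y ∈ D.Y) (hy' : y' ∈ D.Y) : P D v hv y hy = P D v' hv' y' hy' := by
  subst h
  subst h'
  rfl

theorem hX_pow_nil (k : ℤ) {y : H} (hy : y ∈ D.Y) :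
    ((hX D) ^ k) (P D [] trivial y hy) = P D [] trivial ((D.hh ^ k) y) (zpow_mem_Y D k hy) := by
  induction k with
  | zero => exact Subtype.ext (by simp [P])
  | succ k ih =>
    rw [add_comm, zpow_one_add, IsometryEquiv.mul_apply, ih]
    refine Subtype.ext ?_
    change tr 1 D.hh (pt D.toPiece [] _) = pt D.toPiece [] _
    rw [tr_pt_nil, zpow_one_add, IsometryEquiv.mul_apply]
  | pred k ih =>
    rw [sub_eq_add_neg, add_comm, zpow_add, zpow_neg_one, IsometryEquiv.mul_apply, ih]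
    refine Subtype.ext ?_
    change tr (-1) D.hh.symm (pt D.toPiece [] _) = pt D.toPiece [] _
    rw [tr_pt_nil, zpow_add, zpow_neg_one, IsometryEquiv.mul_apply]
    rfl

theorem hX_pow (k : ℤ) {v : List ℤ} (hv : Adm v) (hne : v ≠ []) {y : H} (hy : y ∈ D.Y) :
    ((hX D) ^ k) (P D v hv y hy) = P D (sh k v) (sh_adm hv) y hy := by
  induction k with
  | zero => exact Subtype.ext (by simp [P, sh_zero])
  | succ k ih =>
    rw [add_comm, zpow_one_add, IsometryEquiv.mul_apply, ih]
    refine Subtype.ext ?_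
    change tr 1 D.hh (pt D.toPiece _ _) = pt D.toPiece _ _
    rw [tr_pt D D.hh_q (fun h => hne (sh_eq_nil.1 h)), sh_sh]
  | pred k ih =>
    rw [sub_eq_add_neg, add_comm, zpow_add, zpow_neg_one, IsometryEquiv.mul_apply, ih]
    refine Subtype.ext ?_
    change tr (-1) D.hh.symm (pt D.toPiece _ _) = pt D.toPiece _ _
    rw [tr_pt D (hh_symm_q D) (fun h => hne (sh_eq_nil.1 h)), sh_sh]

theorem sX_P {v : List ℤ} (hv : Adm v) {y : H} (hy : y ∈ D.Y) :
    sX D (P D v hv y hy) = P D (sw v) (sw_adm hv) y hy :=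
  Subtype.ext (re_pt D hv y)

/-- The group generated by `h` and `s`. -/
noncomputable def Grp : Subgroup (TX D.toPiece ≃ᵢ TX D.toPiece) := Subgroup.closure {hX D, sX D}

theorem hX_mem : hX D ∈ Grp D := Subgroup.subset_closure (by simp)

theorem sX_mem : sX D ∈ Grp D := Subgroup.subset_closure (by simp)

/-! ### Rigidity -/

/-- `g` maps every copy to a copy, by a power of `h`. -/
def Rigid (g : TX D.toPiece ≃ᵢ TX D.toPiece) : Prop :=
  ∀ (v : List ℤ) (hv : Adm v), ∃ (v' : List ℤ) (hv' : Adm v') (k : ℤ), ∀ (y : H) (hy : y ∈ D.Y),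
    g (P D v hv y hy) = P D v' hv' ((D.hh ^ k) y) (zpow_mem_Y D k hy)

theorem Rigid.one : Rigid D 1 :=
  fun v hv => ⟨v, hv, 0, fun y hy => Subtype.ext (by simp [P])⟩

variable {D}

theorem Rigid.mul {g g' : TX D.toPiece ≃ᵢ TX D.toPiece} (hg : Rigid D g) (hg' : Rigid D g') :
    Rigid D (g * g') := by
  intro v hv
  obtain ⟨v', hv', k', h'⟩ := hg' v hv
  obtain ⟨w, hw, k, h⟩ := hg v' hv'
  refine ⟨w, hw, k + k', fun y hy => ?_⟩
  rw [IsometryEquiv.mul_apply, h', h]
  refine P_congr D rfl _ _ ?_ _ _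
  rw [zpow_add, IsometryEquiv.mul_apply]

variable (D)

theorem rigid_hX_pow (k : ℤ) : Rigid D ((hX D) ^ k) := by
  intro v hv
  by_cases hne : v = []
  · subst hne
    exact ⟨[], trivial, k, fun y hy => hX_pow_nil D k hy⟩
  · refine ⟨sh k v, sh_adm hv, 0, fun y hy => ?_⟩
    rw [hX_pow D k hv hne hy]
    exact P_congr D rfl _ _ (by simp) _ _

theorem rigid_sX : Rigid D (sX D) := by
  intro v hv
  refine ⟨sw v, sw_adm hv, 0, fun y hy => ?_⟩
  rw [sX_P]
  exact P_congr D rfl _ _ (by simp) _ _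

theorem sX_inv : (sX D)⁻¹ = sX D := by
  refine IsometryEquiv.ext fun x => ?_
  rfl

theorem rigid_of_mem {g : TX D.toPiece ≃ᵢ TX D.toPiece} (hg : g ∈ Grp D) :
    Rigid D g ∧ Rigid D g⁻¹ := by
  induction hg using Subgroup.closure_induction with
  | mem x hx =>
    rcases hx with rfl | hx
    · refine ⟨?_, ?_⟩
      · have := rigid_hX_pow D 1
        rwa [zpow_one] at this
      · have := rigid_hX_pow D (-1)
        rwa [zpow_neg_one] at this
    · have : x = sX D := hx
      subst this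
      rw [sX_inv]
      exact ⟨rigid_sX D, rigid_sX D⟩
  | one => rw [inv_one]; exact ⟨Rigid.one D, Rigid.one D⟩
  | mul x y _ _ hx hy => rw [mul_inv_rev]; exact ⟨hx.1.mul hy.1, hy.2.mul hx.2⟩
  | inv x _ hx => rw [inv_inv]; exact ⟨hx.2, hx.1⟩

end Pool.Agent.helper65.Cat
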