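import Pool.Agent.helper65.Cat.TreeGeo

/-!
# The tree of pieces is proper
-/

open Filter Topology Set Metric
open scoped ENNReal NNReal InnerProductSpace

set_option linter.unusedSectionVars false

namespace Pool.Agent.helper65.Cat

variable {H : Type} [NormedAddCommGroup H] [InnerProductSpace ℝ H] {D : Piece H}

theorem finite_words (S : Set ℤ) (hS : S.Finite) (n : ℕ) :
    {l : List ℤ | l.length ≤ n ∧ ∀ m ∈ l, m ∈ S}.Finite := by
  induction n with
  | zero =>
    refine (Set.finite_singleton ([] : List ℤ)).subset fun l hl => ?_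
    exact List.eq_nil_of_length_eq_zero (Nat.le_zero.1 hl.1)
  | succ n ih =>
    refine ((Set.finite_singleton ([] : List ℤ)).union (hS.image2 List.cons ih)).subset
      fun l hl => ?_
    cases l with
    | nil => exact Or.inl rfl
    | cons m l =>
      right
      refine ⟨m, hl.2 m (by simp), l, ⟨?_, fun k hk => hl.2 k (by simp [hk])⟩, rfl⟩
      have := hl.1
      simp only [List.length_cons] at this
      omega

theorem finite_copies (R : ℝ) : {v : List ℤ | Adm v ∧ ‖pt D v 0‖ ≤ R}.Finite := by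
  refine (finite_words (Icc (-⌈R⌉) ⌈R⌉) (Set.finite_Icc _ _) ⌈R + 1⌉₊).subset fun v hv => ?_
  obtain ⟨hv, hR⟩ := hv
  refine ⟨?_, fun m hm => ?_⟩
  · have h1 := length_le_norm (D := D) hv
    have h2 : (v.length : ℝ) ≤ R + 1 := by linarith
    exact_mod_cast h2.trans (Nat.le_ceil _)
  · have h1 := sum_abs_le_norm (D := D) v
    have h2 : |(m : ℝ)| ≤ (v.map fun m : ℤ => |(m : ℝ)|).sum := by
      refine List.single_le_sum ?_ _ (List.mem_map.2 ⟨m, hm, rfl⟩)
      intro x hx
      obtain ⟨k, _, rfl⟩ := List.mem_map.1 hx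
      exact abs_nonneg _
    have h3 : |(m : ℝ)| ≤ R := by linarith
    have h4 : ((|m| : ℤ) : ℝ) ≤ R := by
      rw [Int.cast_abs]
      exact h3
    have h5 : |m| ≤ ⌈R⌉ := Int.cast_le.1 (h4.trans (Int.le_ceil R))
    exact abs_le.1 h5

theorem continuous_apply (u : List ℤ) : Continuous fun F : L1 H => F u := by
  refine continuous_iff_continuousAt.2 fun F => ?_
  rw [ContinuousAt, tendsto_iff_norm_sub_tendsto_zero]
  have h1 : Tendsto (fun G : L1 H => ‖G - F‖) (𝓝 F) (𝓝 0) := by
    have : Continuous fun G : L1 H => ‖G - F‖ := by fun_prop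
    simpa using this.tendsto F
  refine squeeze_zero (fun G => norm_nonneg _) (fun G => ?_) h1
  have := lp.norm_apply_le_norm (p := 1) (by norm_num) (G - F) u
  rwa [lp.coeFn_sub, Pi.sub_apply] at this

theorem tree_isClosed : IsClosed (Tree D) := by
  have h1 : IsClosed {F : L1 H | ∀ u, F u ∈ D.Y} := by
    rw [Set.ofPred_forall]
    exact isClosed_iInter fun u => D.isClosed.preimage (continuous_apply u)
  have h2 : IsClosed {F : L1 H | ∀ (m : ℤ) (u : List ℤ), F (m :: u) = 0 ∨ F u = D.q m} := by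
    simp only [Set.ofPred_forall]
    refine isClosed_iInter fun m => isClosed_iInter fun u => ?_
    have : {F : L1 H | F (m :: u) = 0 ∨ F u = D.q m} =
        {F : L1 H | F (m :: u) = 0} ∪ {F : L1 H | F u = D.q m} := rfl
    rw [this]
    exact (isClosed_eq (continuous_apply _) continuous_const).union
      (isClosed_eq (continuous_apply _) continuous_const)
  have h3 : IsClosed {F : L1 H | ∀ u : List ℤ, u ≠ [] → F (0 :: u) = 0} := by
    simp only [Set.ofPred_forall]
    refine isClosed_iInter fun u => isClosed_iInter fun _ => ?_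
    exact isClosed_eq (continuous_apply _) continuous_const
  exact h1.inter (h2.inter h3)

theorem continuous_pt (v : List ℤ) : Continuous (pt D v) := by
  have : Isometry (pt D v) := by
    refine Isometry.of_dist_eq fun x y => ?_
    rw [dist_eq_norm, dist_eq_norm, norm_pt_sub]
  exact this.continuous

theorem tree_inter_compact (hD : ∀ R, IsCompact (D.Y ∩ closedBall 0 R)) (R : ℝ) :
    IsCompact (Tree D ∩ closedBall 0 R) := by
  have hfin := finite_copies (D := D) R
  have hK : IsCompact (⋃ v ∈ {v : List ℤ | Adm v ∧ ‖pt D v 0‖ ≤ R},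
      pt D v '' (D.Y ∩ closedBall 0 R)) :=
    hfin.isCompact_biUnion fun v _ => (hD R).image (continuous_pt v)
  refine hK.of_isClosed_subset (tree_isClosed.inter isClosed_closedBall) ?_
  rintro F ⟨hF, hFR⟩
  rw [mem_closedBall_zero_iff] at hFR
  obtain ⟨v, hv, y, hy, rfl⟩ := exists_rep hF
  rw [norm_pt_eq] at hFR
  refine Set.mem_biUnion (x := v) ⟨hv, ?_⟩ ⟨y, ⟨hy, ?_⟩, rfl⟩
  · linarith [norm_nonneg y]
  · rw [mem_closedBall_zero_iff]
    linarith [norm_nonneg (pt D v 0)]

theorem tx_proper (hD : ∀ R, IsCompact (D.Y ∩ closedBall 0 R)) : ProperSpace (TX D) := by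
  refine ⟨fun x r => ?_⟩
  rw [Subtype.isCompact_iff]
  refine (tree_inter_compact hD (r + ‖x.1‖)).of_isClosed_subset ?_ ?_
  · have h1 : ((↑) '' closedBall x r : Set (L1 H)) = Tree D ∩ closedBall x.1 r := by
      ext F
      constructor
      · rintro ⟨G, hG, rfl⟩
        exact ⟨G.2, hG⟩
      · rintro ⟨h1, h2⟩
        exact ⟨⟨F, h1⟩, h2, rfl⟩
    rw [h1]
    exact tree_isClosed.inter isClosed_closedBall
  · rintro _ ⟨G, hG, rfl⟩
    refine ⟨G.2, ?_⟩
    rw [mem_closedBall_zero_iff]
    have h1 : dist G x ≤ r := hG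
    rw [tx_dist] at h1
    have h2 : ‖G.1‖ ≤ ‖G.1 - x.1‖ + ‖x.1‖ := by
      have := norm_add_le (G.1 - x.1) x.1
      rwa [sub_add_cancel] at this
    linarith

end Pool.Agent.helper65.Cat
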